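import Pool.Agent.Work.MP_3892ce_str.Core10
import Pool.Agent.Work.MP_3892ce_num.Corn

/-! # Melzak, case A2: splitting into five regions of the corner (helper15) -/

set_option autoImplicit false

open MeasureTheory Set

namespace Pool.Agent.Work.MP_3892ce_str

open Pool.Agent.Work.MP_3892ce_static (E HP len L Irr Adj Frame area NinePairs)
open Pool.Agent.Work.MP_3892ce_num (sn sn_symm sharp_cases)

/-- the static bound if the sines at the corner `3, 0, 1` satisfy `C` -/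
def Stmt_Reg (τ : ℝ) (C : ℝ → ℝ → ℝ → Prop) : Prop :=
  ∀ (ι : Type) [Fintype ι] [DecidableEq ι] (n : ι → E 3) (b : ι → ℝ)
    (U : ι → (E 2 →ₗᵢ[ℝ] E 3)), (∀ i, Frame (n i) (U i)) → Irr n b → 5 < Fintype.card ι →
    ∀ m : Fin 5 → ι, Largest n b U m → NinePairs n b m →
      Bornology.IsBounded (HP (fun k => n (m k)) (fun k => b (m k))) → tail n b U m ≤ τ →
      C (sn n U (m 3) (m 0) (m 1)) (sn n U (m 0) (m 3) (m 1)) (sn n U (m 1) (m 3) (m 0)) →
      1684 * (volume (HP n b)).toReal ≤ L n b ^ 3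

/-- the same with ordered areas of the facets `0` and `1` -/
def Stmt_RegO (τ : ℝ) (C : ℝ → ℝ → ℝ → Prop) : Prop :=
  ∀ (ι : Type) [Fintype ι] [DecidableEq ι] (n : ι → E 3) (b : ι → ℝ)
    (U : ι → (E 2 →ₗᵢ[ℝ] E 3)), (∀ i, Frame (n i) (U i)) → Irr n b → 5 < Fintype.card ι →
    ∀ m : Fin 5 → ι, Largest n b U m → NinePairs n b m →
      Bornology.IsBounded (HP (fun k => n (m k)) (fun k => b (m k))) → tail n b U m ≤ τ →
      al n b U (m 1) ≤ al n b U (m 0) →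
      C (sn n U (m 3) (m 0) (m 1)) (sn n U (m 0) (m 3) (m 1)) (sn n U (m 1) (m 3) (m 0)) →
      1684 * (volume (HP n b)).toReal ≤ L n b ^ 3

/-- exchange of the facets `0` and `1` -/
theorem reg_swap {τ : ℝ} {C : ℝ → ℝ → ℝ → Prop} (h : Stmt_Reg τ C) :
    Stmt_Reg τ fun x y z => C x z y := by
  intro ι _ _ n b U hU hI h5 m hL hN hB ht hC
  obtain ⟨r1, r2, r3, r4⟩ := relabel hL hN hB (Equiv.swap 0 1) (by decide)
  have e0 : Equiv.swap (0 : Fin 5) 1 0 = 1 := by decide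
  have e1 : Equiv.swap (0 : Fin 5) 1 1 = 0 := by decide
  have e3 : Equiv.swap (0 : Fin 5) 1 3 = 3 := by decide
  refine h ι n b U hU hI h5 _ r1 r2 r3 (by rw [r4]; exact ht) ?_
  simp only [e0, e1, e3]
  rw [sn_symm n U (m 3)]
  exact hC

/-- the order of the areas can be chosen if the condition is symmetric -/
theorem reg_of_ord {τ : ℝ} {C : ℝ → ℝ → ℝ → Prop} (hC : ∀ x y z, C x y z → C x z y)
    (h : Stmt_RegO τ C) : Stmt_Reg τ C := by
  intro ι _ _ n b U hU hI h5 m hL hN hB ht hc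
  rcases le_total (al n b U (m 1)) (al n b U (m 0)) with h1 | h1
  · exact h ι n b U hU hI h5 m hL hN hB ht h1 hc
  · obtain ⟨r1, r2, r3, r4⟩ := relabel hL hN hB (Equiv.swap 0 1) (by decide)
    have e0 : Equiv.swap (0 : Fin 5) 1 0 = 1 := by decide
    have e1 : Equiv.swap (0 : Fin 5) 1 1 = 0 := by decide
    have e3 : Equiv.swap (0 : Fin 5) 1 3 = 3 := by decide
    refine h ι n b U hU hI h5 _ r1 r2 r3 (by rw [r4]; exact ht) ?_ ?_
    · simp only [e0, e1]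
      exact h1
    · simp only [e0, e1, e3]
      rw [sn_symm n U (m 3)]
      exact hC _ _ _ hc

/-- case A2 from the five regions -/
theorem A2_of_regions {τ : ℝ}
    (h1 : Stmt_RegO τ fun x _ _ => x ≤ 3 / 10)
    (h2 : Stmt_Reg τ fun _ y _ => y ≤ 47 / 100)
    (h3 : Stmt_RegO τ fun x y z => 9 / 25 ≤ x ∧ 1 / 2 ≤ y ∧ 1 / 2 ≤ z ∧ x + y + z ≤ 151 / 100)
    (h4 : Stmt_RegO τ fun x y z => 3 / 10 ≤ x ∧ x ≤ 9 / 25 ∧ 47 / 100 ≤ y ∧ 47 / 100 ≤ z ∧
      x + y + z ≤ 303 / 200)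
    (h5 : Stmt_Reg τ fun x y z => 9 / 25 ≤ x ∧ 47 / 100 ≤ y ∧ y ≤ 1 / 2 ∧ 47 / 100 ≤ z ∧
      x + y + z ≤ 303 / 200) : Stmt_A2 τ := by
  have g1 := reg_of_ord (fun _ _ _ h => h) h1
  have g2 := reg_swap h2
  have g3 := reg_of_ord (fun _ _ _ h => ⟨h.1, h.2.2.1, h.2.1, by linarith [h.2.2.2]⟩) h3
  have g4 := reg_of_ord (fun _ _ _ h => ⟨h.1, h.2.1, h.2.2.2.1, h.2.2.1,
    by linarith [h.2.2.2.2]⟩) h4
  have g5 := reg_swap h5
  intro ι _ _ n b U hU hI hcard m hL hN hB ht hS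
  have a30 := Pool.Agent.Work.MP_3892ce_static.FILL.nine_adj hN
    (by decide +kernel : Pool.Agent.Work.MP_3892ce_static.FILL.Nine 3 0)
  have a31 := Pool.Agent.Work.MP_3892ce_static.FILL.nine_adj hN
    (by decide +kernel : Pool.Agent.Work.MP_3892ce_static.FILL.Nine 3 1)
  have a01 := Pool.Agent.Work.MP_3892ce_static.FILL.nine_adj hN
    (by decide +kernel : Pool.Agent.Work.MP_3892ce_static.FILL.Nine 0 1)
  have key := sharp_cases hU hI a30 a31 a01 hS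
  specialize g1 ι n b U hU hI hcard m hL hN hB ht
  specialize h2 ι n b U hU hI hcard m hL hN hB ht
  specialize g2 ι n b U hU hI hcard m hL hN hB ht
  specialize g3 ι n b U hU hI hcard m hL hN hB ht
  specialize g4 ι n b U hU hI hcard m hL hN hB ht
  specialize h5 ι n b U hU hI hcard m hL hN hB ht
  specialize g5 ι n b U hU hI hcard m hL hN hB ht
  set x := sn n U (m 3) (m 0) (m 1) with hx
  set y := sn n U (m 0) (m 3) (m 1) with hy
  set z := sn n U (m 1) (m 3) (m 0) with hz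
  by_cases c1 : x ≤ 3 / 10
  · exact g1 c1
  by_cases c2 : y ≤ 47 / 100
  · exact h2 c2
  by_cases c3 : z ≤ 47 / 100
  · exact g2 c3
  push Not at c1 c2 c3
  have hsum : x + y + z ≤ 303 / 200 := by
    rcases key with k | k | k | ⟨_, k⟩ | k <;> linarith
  by_cases c4 : x ≤ 9 / 25
  · exact g4 ⟨c1.le, c4, c2.le, c3.le, hsum⟩
  push Not at c4
  by_cases c5 : y ≤ 1 / 2
  · exact h5 ⟨c4.le, c2.le, c5, c3.le, hsum⟩
  by_cases c6 : z ≤ 1 / 2
  · exact g5 ⟨c4.le, c3.le, c6, c2.le, by linarith⟩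
  push Not at c5 c6
  refine g3 ⟨c4.le, c5.le, c6.le, ?_⟩
  rcases key with k | k | k | ⟨k1 | k1 | k1, _⟩ | k <;> linarith

end Pool.Agent.Work.MP_3892ce_str
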