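import Pool.Agent.Work.MP_3892ce_str.Ext2

/-! # Melzak's conjecture: the constant and the case of equality (helper15) -/

set_option autoImplicit false

open MeasureTheory Set
open scoped ENNReal Pointwise

namespace Pool.Agent.Work.MP_3892ce_str

open Pool.Agent.Work.MP_3892ce_static (E)
open Pool.Agent.Work.MP_3892ce_gt (IsEdge zeta1 IsArchPrism prS)

/-- the class `C_1^3`: compact convex sets with nonempty interior and finite total edge length -/
def IsC13 (K : Set (E 3)) : Prop :=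
  IsCompact K ∧ Convex ℝ K ∧ (interior K).Nonempty ∧ zetaLim K ≠ ∞

/-- the constant of Melzak -/
noncomputable def gamma0 : ℝ := 2 ^ (-(2 / 3) : ℝ) * 3 ^ (-(11 / 6) : ℝ)

theorem gamma0_pos : 0 < gamma0 := by
  unfold gamma0
  positivity

theorem gamma0_cube : gamma0 ^ 3 * (972 * √3) = 1 := by
  have h2 : ((2 : ℝ) ^ (-(2 / 3) : ℝ)) ^ 3 = 1 / 4 := by
    rw [← Real.rpow_natCast, ← Real.rpow_mul (by norm_num)]
    norm_num
  have h3 : ((3 : ℝ) ^ (-(11 / 6) : ℝ)) ^ 3 = (243 * √3)⁻¹ := by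
    rw [← Real.rpow_natCast, ← Real.rpow_mul (by norm_num)]
    have e : (-(11 / 6) * ((3 : ℕ) : ℝ) : ℝ) = -(5 + 1 / 2) := by norm_num
    rw [e, Real.rpow_neg (by norm_num), Real.rpow_add (by norm_num), ← Real.sqrt_eq_rpow]
    norm_num
  have h4 : (0 : ℝ) < √3 := by positivity
  unfold gamma0
  rw [mul_pow, h2, h3]
  field_simp
  norm_num

/-- passing from cubes to cube roots -/
theorem cube_form {V z : ℝ} (hV : 0 ≤ V) (hz : 0 ≤ z) :
    (V ^ (1 / 3 : ℝ) ≤ gamma0 * z ↔ 972 * √3 * V ≤ z ^ 3) ∧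
    (V ^ (1 / 3 : ℝ) = gamma0 * z ↔ 972 * √3 * V = z ^ 3) := by
  have hg := gamma0_pos
  have hc := gamma0_cube
  set v := V ^ (1 / 3 : ℝ) with hv
  have hv0 : 0 ≤ v := Real.rpow_nonneg hV _
  have hv3 : v ^ 3 = V := by
    rw [hv, ← Real.rpow_natCast, ← Real.rpow_mul hV]
    norm_num
  have hk : (0 : ℝ) < 972 * √3 := by positivity
  have e1 : 972 * √3 * (gamma0 * z) ^ 3 = z ^ 3 := by
    calc 972 * √3 * (gamma0 * z) ^ 3 = (gamma0 ^ 3 * (972 * √3)) * z ^ 3 := by ring
      _ = z ^ 3 := by rw [hc, one_mul]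
  have hgz : 0 ≤ gamma0 * z := by positivity
  constructor
  · rw [← hv3, ← e1, mul_le_mul_iff_right₀ hk]
    exact (pow_le_pow_iff_left₀ hv0 hgz (by norm_num)).symm
  · rw [← hv3, ← e1, mul_right_inj' hk.ne']
    exact (pow_left_inj₀ hv0 hgz (by norm_num)).symm

/-- an Archimedean prism -/
theorem exists_arch : ∃ K : Set (E 3), IsArchPrism K := by
  let e : Fin 3 → E 3 := fun i => EuclideanSpace.single i 1
  let u : E 3 := √(2 / 3) • (e 0 + e 1 + e 2)
  have hin : ∀ i j, inner ℝ (e i) (e j) = if i = j then (1 : ℝ) else 0 := by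
    intro i j
    have h := (EuclideanSpace.basisFun (Fin 3) ℝ).inner_eq_ite i j
    simp only [EuclideanSpace.basisFun_apply] at h
    exact h
  have hsum : ‖e 0 + e 1 + e 2‖ ^ 2 = 3 := by
    rw [← real_inner_self_eq_norm_sq]
    simp only [inner_add_left, inner_add_right, hin]
    have h01 : (0 : Fin 3) ≠ 1 := by decide
    have h02 : (0 : Fin 3) ≠ 2 := by decide
    have h12 : (1 : Fin 3) ≠ 2 := by decide
    simp only [if_true, if_neg h01, if_neg h02, if_neg h12, if_neg h01.symm, if_neg h02.symm,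
      if_neg h12.symm]
    norm_num
  have hie : ∀ i, inner ℝ (e i) (e 0 + e 1 + e 2) = (1 : ℝ) := by
    intro i
    simp only [inner_add_right, hin]
    have h : ∀ i : Fin 3, (i = 0 ∧ i ≠ 1 ∧ i ≠ 2) ∨ (i ≠ 0 ∧ i = 1 ∧ i ≠ 2) ∨
        (i ≠ 0 ∧ i ≠ 1 ∧ i = 2) := by decide
    rcases h i with ⟨a, b, c⟩ | ⟨a, b, c⟩ | ⟨a, b, c⟩
    · rw [if_pos a, if_neg b, if_neg c]
      norm_num
    · rw [if_neg a, if_pos b, if_neg c]
      norm_num
    · rw [if_neg a, if_neg b, if_pos c]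
      norm_num
  refine ⟨_, e, u, √2, by positivity, ?_, ?_, ?_, rfl⟩
  · intro i j hij
    rw [dist_eq_norm]
    refine (sq_eq_sq₀ (norm_nonneg _) (Real.sqrt_nonneg _)).1 ?_
    rw [Real.sq_sqrt (by norm_num), ← real_inner_self_eq_norm_sq]
    simp only [inner_sub_left, inner_sub_right, hin, if_pos, if_neg hij, if_neg hij.symm]
    norm_num
  · refine (sq_eq_sq₀ (norm_nonneg _) (Real.sqrt_nonneg _)).1 ?_
    rw [Real.sq_sqrt (by norm_num), norm_smul, mul_pow, hsum, Real.norm_eq_abs, sq_abs,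
      Real.sq_sqrt (by norm_num)]
    norm_num
  · intro i j
    rw [inner_smul_right, inner_sub_left, hie, hie, sub_self, mul_zero]

theorem arch_class {K : Set (E 3)} (h : IsArchPrism K) : IsC13 K := by
  have hP := arch_isPoly h
  have hfin : zetaLim K ≠ ∞ := by
    obtain ⟨a, u, s, hs, hd, hu, ho, rfl⟩ := h
    exact ne_top_of_le_ne_top ENNReal.ofReal_ne_top ((zetaLim_le_of_poly hP).trans
      (Pool.Agent.Work.MP_3892ce_gt.zeta1_arch hs hd hu ho))
  refine ⟨?_, ?_, hP.2.1, hfin⟩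
  · obtain ⟨a, u, s, hs, hd, hu, ho, rfl⟩ := h
    exact Set.Finite.isCompact_convexHull ℝ ((Set.finite_range _).union (Set.finite_range _))
  · obtain ⟨a, u, s, hs, hd, hu, ho, rfl⟩ := h
    exact convex_convexHull ℝ _

/-- the form of the problem -/
theorem form (H : ∀ K : Set (E 3), IsCompact K → Convex ℝ K → (interior K).Nonempty →
    ENNReal.ofReal (972 * √3) * volume K ≤ zetaLim K ^ 3 ∧
    (ENNReal.ofReal (972 * √3) * volume K = zetaLim K ^ 3 ↔ IsArchPrism K)) :
    IsLeast {γ : ℝ | ∀ K, IsC13 K → (volume K).toReal ^ (1 / 3 : ℝ) ≤ γ * (zetaLim K).toReal}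
      (2 ^ (-(2 / 3) : ℝ) * 3 ^ (-(11 / 6) : ℝ)) ∧
    (∀ K, IsC13 K → ((volume K).toReal ^ (1 / 3 : ℝ) =
      2 ^ (-(2 / 3) : ℝ) * 3 ^ (-(11 / 6) : ℝ) * (zetaLim K).toReal ↔ IsArchPrism K)) ∧
    (∀ P, IsPoly P → ENNReal.ofReal (972 * √3) * volume P ≤ zeta1 P ^ 3 ∧
      (ENNReal.ofReal (972 * √3) * volume P = zeta1 P ^ 3 ↔ IsArchPrism P)) := by
  have key : ∀ K, IsC13 K → ((volume K).toReal ^ (1 / 3 : ℝ) ≤ gamma0 * (zetaLim K).toReal) ∧
      ((volume K).toReal ^ (1 / 3 : ℝ) = gamma0 * (zetaLim K).toReal ↔ IsArchPrism K) := by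
    rintro K ⟨h1, h2, h3, h4⟩
    obtain ⟨q1, q2⟩ := H K h1 h2 h3
    have hVfin : volume K ≠ ∞ := h1.measure_lt_top.ne
    obtain ⟨f1, f2⟩ := cube_form (V := (volume K).toReal) (z := (zetaLim K).toReal)
      ENNReal.toReal_nonneg ENNReal.toReal_nonneg
    have e1 : ENNReal.ofReal (972 * √3) * volume K =
        ENNReal.ofReal (972 * √3 * (volume K).toReal) := by
      nth_rw 1 [← ENNReal.ofReal_toReal hVfin]
      rw [← ENNReal.ofReal_mul (by positivity)]
    have e2 : zetaLim K ^ 3 = ENNReal.ofReal ((zetaLim K).toReal ^ 3) := by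
      rw [ENNReal.ofReal_pow ENNReal.toReal_nonneg, ENNReal.ofReal_toReal h4]
    have hz0 : 0 ≤ (zetaLim K).toReal ^ 3 := pow_nonneg ENNReal.toReal_nonneg 3
    have hV0 : 0 ≤ 972 * √3 * (volume K).toReal :=
      mul_nonneg (by positivity) ENNReal.toReal_nonneg
    constructor
    · rw [f1]
      rw [e1, e2, ENNReal.ofReal_le_ofReal_iff hz0] at q1
      exact q1
    · rw [f2, ← q2, e1, e2, ENNReal.ofReal_eq_ofReal_iff hV0 hz0]
  refine ⟨⟨fun K hK => (key K hK).1, ?_⟩, fun K hK => (key K hK).2, ?_⟩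
  · intro γ hγ
    obtain ⟨K, hK⟩ := exists_arch
    have hC := arch_class hK
    have h1 := (key K hC).2.2 hK
    have h2 := hγ K hC
    rw [h1] at h2
    have hz : 0 < (zetaLim K).toReal := by
      refine lt_of_le_of_ne ENNReal.toReal_nonneg fun h0 => ?_
      rw [← h0, mul_zero] at h1
      have hV : 0 < (volume K).toReal := by
        refine ENNReal.toReal_pos ?_ hC.1.measure_lt_top.ne
        intro h0
        exact (isOpen_interior.measure_pos volume hC.2.2.1).ne'
          (measure_mono_null interior_subset h0)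
      exact absurd h1 (Real.rpow_pos_of_pos hV _).ne'
    exact le_of_mul_le_mul_right h2 hz
  · intro P hP
    have hP' := hP
    obtain ⟨h1, h2, m, n, b, h3⟩ := hP'
    have hcomp : IsCompact P := by
      refine Metric.isCompact_of_isClosed_isBounded ?_ h1
      rw [h3]
      have : {x : E 3 | ∀ i, inner ℝ (n i) x ≤ b i} = ⋂ i, {x | inner ℝ (n i) x ≤ b i} := by
        ext x; simp
      rw [this]
      exact isClosed_iInter fun i => isClosed_le (by fun_prop) continuous_const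
    have hconv : Convex ℝ P := by
      rw [h3]
      exact convex_HP n b
    obtain ⟨q1, q2⟩ := H P hcomp hconv h2
    have hz := zetaLim_le_of_poly hP
    have hz3 : zetaLim P ^ 3 ≤ zeta1 P ^ 3 := by gcongr
    refine ⟨q1.trans hz3, fun he => ?_, fun ha => ?_⟩
    · exact q2.1 (le_antisymm q1 (hz3.trans he.symm.le))
    · exact le_antisymm (q1.trans hz3) (Pool.Agent.Work.MP_3892ce_gt.arch_eq ha)

end Pool.Agent.Work.MP_3892ce_str
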