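import Pool.Agent.Work.MP_3892ce_str.CL

/-! # The facets of a polytope in space as polygons (helper15, after STAT of helper74) -/

set_option autoImplicit false

open MeasureTheory Set
open scoped ENNReal Pointwise

namespace Pool.Agent.Work.MP_3892ce_str

open Pool.Agent.Work.MP_3892ce_static

/-- projection of `n j` to the plane of the facet `i`, in coordinates -/
noncomputable def pw {ι : Type} (n : ι → E 3) (_i : ι) (U : E 2 →ₗᵢ[ℝ] E 3) (j : ι) : E 2 :=
  STAT.pr U (n j)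

/-- unit normals in coordinates -/
noncomputable def nuc {ι : Type} (n : ι → E 3) (i : ι) (U : E 2 →ₗᵢ[ℝ] E 3) (j : ι) : E 2 :=
  (‖pw n i U j‖)⁻¹ • pw n i U j

theorem U_pw {ι : Type} {n : ι → E 3} {i : ι} {U : E 2 →ₗᵢ[ℝ] E 3} (hU : Frame (n i) U) (j : ι) :
    U (pw n i U j) = wv n i j := U_pr hU (n j)

theorem norm_pw {ι : Type} {n : ι → E 3} {i : ι} {U : E 2 →ₗᵢ[ℝ] E 3} (hU : Frame (n i) U)
    (j : ι) : ‖pw n i U j‖ = ‖wv n i j‖ := by
  rw [← U_pw hU, U.norm_map]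

theorem U_nuc {ι : Type} {n : ι → E 3} {i : ι} {U : E 2 →ₗᵢ[ℝ] E 3} (hU : Frame (n i) U) (j : ι) :
    U (nuc n i U j) = nu n i j := by
  unfold nuc nu
  rw [map_smul, U_pw hU, norm_pw hU]

theorem len_nonneg {ι : Type} [DecidableEq ι] (n : ι → E 3) (b : ι → ℝ) (i j : ι) :
    0 ≤ len n b i j := by
  unfold len
  split_ifs
  · exact le_rfl
  · exact Metric.diam_nonneg

theorem iso_sec (c : E 3) (U : E 2 →ₗᵢ[ℝ] E 3) : Isometry (fun y => c + U y) :=
  (IsometryEquiv.addLeft c).isometry.comp U.isometry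

theorem face_eq {ι : Type} {n : ι → E 3} {b : ι → ℝ} {i : ι} {U : E 2 →ₗᵢ[ℝ] E 3}
    (hU : Frame (n i) U) (j : ι) : Face n b i ∩ Face n b j
      = (fun y => b i • n i + U y) '' {y | (b i • n i + U y) ∈ HP n b ∧
        inner ℝ (n j) (b i • n i + U y) = b j} := by
  ext x
  constructor
  · rintro ⟨⟨h1, h2⟩, h3, h4⟩
    obtain ⟨y, hy⟩ := STAT.onto hU x
    rw [h2] at hy
    refine ⟨y, ?_, hy.symm⟩
    rw [mem_ofPred_eq, ← hy]
    exact ⟨h1, h4⟩
  · rintro ⟨y, hy, rfl⟩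
    rw [mem_ofPred_eq] at hy
    exact ⟨⟨hy.1, STAT.inner_self_pt hU _ _⟩, hy.1, hy.2⟩

theorem wit_coord {ι : Type} {n : ι → E 3} {b : ι → ℝ} (hI : Irr n b) {i : ι}
    {U : E 2 →ₗᵢ[ℝ] E 3} (hU : Frame (n i) U) :
    ∃ y : E 2, ∀ j, j ≠ i → b i * inner ℝ (n j) (n i) + inner ℝ (pw n i U j) y < b j := by
  obtain ⟨x, hx, hxj⟩ := hI.wit i
  obtain ⟨y, hy⟩ := STAT.onto hU x
  refine ⟨y, fun j hj => ?_⟩
  have h1 := hxj j hj
  rw [hy, hx, STAT.inner_pt] at h1
  exact h1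

theorem ne_of_len {ι : Type} [DecidableEq ι] {n : ι → E 3} {b : ι → ℝ} (hI : Irr n b) {i : ι}
    {U : E 2 →ₗᵢ[ℝ] E 3} (hU : Frame (n i) U) {j : ι} (h : 0 < len n b i j) :
    j ≠ i ∧ pw n i U j ≠ 0 := by
  have hji : j ≠ i := by
    rintro rfl
    rw [len, if_pos rfl] at h
    exact lt_irrefl _ h
  refine ⟨hji, fun hz => ?_⟩
  rw [len, if_neg (fun h' => hji h'.symm), face_eq hU j, (iso_sec _ U).diam_image] at h
  have hemp : {y : E 2 | (b i • n i + U y) ∈ HP n b ∧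
      inner ℝ (n j) (b i • n i + U y) = b j} = ∅ := by
    rw [Set.eq_empty_iff_forall_notMem]
    intro y hy
    rw [mem_ofPred_eq] at hy
    obtain ⟨y0, hy0⟩ := wit_coord hI hU
    have h1 := hy0 j hji
    have h2 := hy.2
    rw [STAT.inner_pt] at h2
    change _ + inner ℝ (pw n i U j) y = _ at h2
    rw [hz, inner_zero_left] at h1 h2
    linarith
  rw [hemp, Metric.diam_empty] at h
  exact lt_irrefl _ h

/-- the facets which cut the plane of the facet `i` -/
abbrev JJ {ι : Type} (n : ι → E 3) (i : ι) (U : E 2 →ₗᵢ[ℝ] E 3) : Type :=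
  {j : ι // j ≠ i ∧ pw n i U j ≠ 0}

noncomputable def nJ {ι : Type} (n : ι → E 3) (i : ι) (U : E 2 →ₗᵢ[ℝ] E 3) (j : JJ n i U) : E 2 :=
  nuc n i U j.1

noncomputable def bJ {ι : Type} (n : ι → E 3) (b : ι → ℝ) (i : ι) (U : E 2 →ₗᵢ[ℝ] E 3)
    (j : JJ n i U) : ℝ := (‖pw n i U j.1‖)⁻¹ * (b j.1 - b i * inner ℝ (n j.1) (n i))

section

variable {ι : Type} {n : ι → E 3} {b : ι → ℝ} {i : ι} {U : E 2 →ₗᵢ[ℝ] E 3}

theorem inner_nJ (j : JJ n i U) (y : E 2) :
    inner ℝ (nJ n i U j) y = (‖pw n i U j.1‖)⁻¹ * inner ℝ (pw n i U j.1) y := by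
  unfold nJ nuc
  rw [real_inner_smul_left]

theorem posJ (j : JJ n i U) : 0 < (‖pw n i U j.1‖)⁻¹ := inv_pos.2 (norm_pos_iff.2 j.2.2)

theorem norm_nJ (j : JJ n i U) : ‖nJ n i U j‖ = 1 := by
  unfold nJ nuc
  rw [norm_smul, norm_inv, norm_norm, inv_mul_cancel₀ (norm_ne_zero_iff.2 j.2.2)]

theorem sec_eq (hI : Irr n b) (hU : Frame (n i) U) :
    Sec (HP n b) (n i) U (b i) = HP (nJ n i U) (bJ n b i U) := by
  ext y
  change (∀ j, inner ℝ (n j) (b i • n i + U y) ≤ b j) ↔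
    ∀ j : JJ n i U, inner ℝ (nJ n i U j) y ≤ bJ n b i U j
  constructor
  · intro h j
    rw [inner_nJ]
    unfold bJ
    have h1 := h j.1
    rw [STAT.inner_pt] at h1
    exact mul_le_mul_of_nonneg_left (by unfold pw; linarith) (posJ j).le
  · intro h j
    by_cases hji : j = i
    · rw [hji, STAT.inner_self_pt hU]
    · by_cases hz : pw n i U j = 0
      · obtain ⟨y0, hy0⟩ := wit_coord hI hU
        have h1 := hy0 j hji
        rw [STAT.inner_pt]
        change _ + inner ℝ (pw n i U j) y ≤ _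
        rw [hz, inner_zero_left] at h1 ⊢
        exact h1.le
      · have h1 := h ⟨j, hji, hz⟩
        rw [inner_nJ] at h1
        unfold bJ at h1
        have h2 := le_of_mul_le_mul_left h1 (posJ ⟨j, hji, hz⟩)
        rw [STAT.inner_pt]
        change _ + inner ℝ (pw n i U j) y ≤ _
        simp only at h2
        linarith

theorem bddJ (hI : Irr n b) (hU : Frame (n i) U) :
    Bornology.IsBounded (HP (nJ n i U) (bJ n b i U)) := by
  rw [← sec_eq hI hU]
  exact (iso_sec (b i • n i) U).antilipschitz.isBounded_preimage hI.bdd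

theorem intJ (hI : Irr n b) (hU : Frame (n i) U) :
    ∃ x, ∀ j, inner ℝ (nJ n i U j) x < bJ n b i U j := by
  obtain ⟨y0, hy0⟩ := wit_coord hI hU
  refine ⟨y0, fun j => ?_⟩
  rw [inner_nJ]
  unfold bJ
  have h1 := hy0 j.1 j.2.1
  exact mul_lt_mul_of_pos_left (by linarith) (posJ j)

theorem convex_HP {d : ℕ} {κ : Type} (m : κ → E d) (c : κ → ℝ) : Convex ℝ (HP m c) := by
  intro x hx y hy s t hs ht hst j
  rw [inner_add_right, inner_smul_right, inner_smul_right]
  have h1 := hx j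
  have h2 := hy j
  calc s * inner ℝ (m j) x + t * inner ℝ (m j) y ≤ s * c j + t * c j :=
        add_le_add (mul_le_mul_of_nonneg_left h1 hs) (mul_le_mul_of_nonneg_left h2 ht)
    _ = c j := by rw [← add_mul, hst, one_mul]

theorem areaJ [DecidableEq ι] (hLEN : Stmt_LEN) (hI : Irr n b) (hU : Frame (n i) U)
    (j : JJ n i U) {W : E 1 →ₗᵢ[ℝ] E 2} (hW : Frame (nJ n i U j) W) :
    area (HP (nJ n i U) (bJ n b i U)) (nJ n i U j) W (bJ n b i U j) = len n b i j.1 := by
  rw [hLEN _ _ _ _ hW (convex_HP _ _) (VOL.closed_HP _ _) (bddJ hI hU), len,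
    if_neg (fun h' => j.2.1 h'.symm), face_eq hU j.1, (iso_sec _ U).diam_image]
  congr 1
  ext y
  rw [mem_ofPred_eq, mem_ofPred_eq, ← sec_eq hI hU, inner_nJ, STAT.inner_pt]
  apply and_congr Iff.rfl
  unfold bJ
  change (‖pw n i U j.1‖)⁻¹ * inner ℝ (pw n i U j.1) y = (‖pw n i U j.1‖)⁻¹ * _ ↔
    b i * inner ℝ (n j.1) (n i) + inner ℝ (pw n i U j.1) y = b j.1
  rw [mul_right_inj' (posJ j).ne']
  constructor <;> intro h <;> linarith

theorem distJ (hI : Irr n b) (hU : Frame (n i) U) (j k : JJ n i U) (hjk : j ≠ k)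
    (h : nJ n i U j = nJ n i U k) : bJ n b i U j ≠ bJ n b i U k := by
  intro h2
  have hw : wv n i j.1 ≠ 0 := by
    rw [← norm_pos_iff, ← norm_pw hU, norm_pos_iff]
    exact j.2.2
  refine line_ne hI j.2.1 k.2.1 (fun e => hjk (Subtype.ext e)) hw ?_ ?_
  · have h3 : U (nJ n i U j) = U (nJ n i U k) := by rw [h]
    unfold nJ at h3
    rw [U_nuc hU, U_nuc hU] at h3
    exact h3
  · unfold bJ at h2
    rw [norm_pw hU, norm_pw hU, real_inner_comm, real_inner_comm (n i) (n k.1)] at h2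
    exact h2

/-- a sum over the neighbours -/
theorem sumJ {A : Type*} [AddCommMonoid A] [Fintype ι] [Fintype (JJ n i U)]
    (f : ι → A) (h0 : ∀ j, ¬ (j ≠ i ∧ pw n i U j ≠ 0) → f j = 0) :
    ∑ j : JJ n i U, f j.1 = ∑ j, f j := by
  classical
  have h1 : ∑ j ∈ Finset.univ.filter (fun j => j ≠ i ∧ pw n i U j ≠ 0), f j =
      ∑ j : JJ n i U, f j.1 := Finset.sum_subtype _ (fun x => by simp) f
  rw [← h1, Finset.sum_filter]
  refine Finset.sum_congr rfl fun j _ => ?_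
  split_ifs with h
  · rfl
  · exact (h0 j h).symm

/-- the closing relation in a facet, in coordinates -/
theorem close_J [DecidableEq ι] [Fintype ι] (hFR2 : Stmt_FR2) (hFR1 : Stmt_FR1)
    (hLEN : Stmt_LEN) (hI : Irr n b) (hU : Frame (n i) U) :
    ∑ j, len n b i j • nuc n i U j = 0 := by
  classical
  choose W hW using fun j : JJ n i U => hFR1 1 (nJ n i U j) (norm_nJ j)
  have h1 := close_gen hFR2 (k := 1) hW (distJ hI hU) (bddJ hI hU) (intJ hI hU)
  rw [Finset.sum_congr rfl fun j _ => by rw [areaJ hLEN hI hU j (hW j)]] at h1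
  have h2 := sumJ (i := i) (U := U) (n := n) (fun j => len n b i j • nuc n i U j) (by
    intro j hj
    have : len n b i j = 0 := by
      refine le_antisymm (not_lt.1 fun h => hj (ne_of_len hI hU h)) (len_nonneg n b i j)
    rw [this, zero_smul])
  rw [← h2]
  exact h1

/-- the closing relation in a facet -/
theorem close_facet [DecidableEq ι] [Fintype ι] (hFR2 : Stmt_FR2) (hFR1 : Stmt_FR1)
    (hLEN : Stmt_LEN) (hI : Irr n b) (i : ι) : ∑ j, len n b i j • nu n i j = 0 := by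
  obtain ⟨U, hU⟩ := hFR1 2 (n i) (hI.unit i)
  have h1 := congrArg U (close_J hFR2 hFR1 hLEN hI hU)
  rw [map_zero, map_sum] at h1
  rw [← h1]
  refine Finset.sum_congr rfl fun j _ => ?_
  rw [map_smul, U_nuc hU]

theorem norm_nuc [DecidableEq ι] (hI : Irr n b) (hU : Frame (n i) U) {j : ι}
    (h : 0 < len n b i j) : ‖nuc n i U j‖ = 1 := by
  unfold nuc
  rw [norm_smul, norm_inv, norm_norm,
    inv_mul_cancel₀ (norm_ne_zero_iff.2 (ne_of_len hI hU h).2)]

/-- planar Minkowski inequality in the facet `i`, with explicit normals -/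
theorem stat_facet [DecidableEq ι] [Fintype ι] (hMINK : Stmt_MINK) (hFR1 : Stmt_FR1)
    (hLEN : Stmt_LEN) (hI : Irr n b) (hU : Frame (n i) U) (K : Set (E 2)) (κ : ι → ℝ)
    (hK : IsCompact K) (hKn : K.Nonempty) (hκ : ∀ j, 0 ≤ κ j)
    (hsup : ∀ y ∈ K, ∀ j, 0 < len n b i j → inner ℝ (nuc n i U j) y ≤ κ j) :
    2 * √(area (HP n b) (n i) U (b i) * (volume K).toReal) ≤ ∑ j, len n b i j * κ j := by
  classical
  choose W hW using fun j : JJ n i U => hFR1 1 (nJ n i U j) (norm_nJ j)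
  obtain ⟨R, hR⟩ := hK.isBounded.exists_norm_le
  set κ' : JJ n i U → ℝ := fun j => if 0 < len n b i j.1 then κ j.1 else |R| with hκ'
  have hM := hMINK 1 (JJ n i U) (nJ n i U) (bJ n b i U) W hW (intJ hI hU) (bddJ hI hU) K κ' hK hKn
    (by
      intro j
      rw [hκ']
      simp only
      split_ifs
      · exact hκ _
      · exact abs_nonneg _)
    (by
      intro y hy j
      rw [hκ']
      simp only
      split_ifs with h
      · exact hsup y hy j.1 h
      · calc inner ℝ (nJ n i U j) y ≤ ‖nJ n i U j‖ * ‖y‖ := real_inner_le_norm _ _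
          _ = ‖y‖ := by rw [norm_nJ, one_mul]
          _ ≤ R := hR y hy
          _ ≤ |R| := le_abs_self R)
  have hA : area (HP n b) (n i) U (b i) = (volume (HP (nJ n i U) (bJ n b i U))).toReal := by
    unfold area
    rw [sec_eq hI hU]
  have hsum : ∑ j : JJ n i U, area (HP (nJ n i U) (bJ n b i U)) (nJ n i U j) (W j) (bJ n b i U j) *
      κ' j = ∑ j, len n b i j * κ j := by
    have h1 : ∀ j : JJ n i U, area (HP (nJ n i U) (bJ n b i U)) (nJ n i U j) (W j)
        (bJ n b i U j) * κ' j = len n b i j.1 * κ j.1 := by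
      intro j
      rw [areaJ hLEN hI hU j (hW j), hκ']
      simp only
      split_ifs with h
      · rfl
      · have h0 : len n b i j.1 = 0 := le_antisymm (not_lt.1 h) (len_nonneg _ _ _ _)
        rw [h0, zero_mul, zero_mul]
    rw [Finset.sum_congr rfl fun j _ => h1 j]
    exact sumJ (i := i) (U := U) (n := n) (fun j => len n b i j * κ j) (by
      intro j hj
      have : len n b i j = 0 := by
        refine le_antisymm (not_lt.1 fun h => hj (ne_of_len hI hU h)) (len_nonneg n b i j)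
      rw [this, zero_mul])
  rw [hsum] at hM
  refine le_trans ?_ hM
  rw [hA]
  have e1 : ((1 : ℕ) : ℝ) / (((1 : ℕ) : ℝ) + 1) = 1 / 2 := by norm_num
  have e2 : (1 : ℝ) / (((1 : ℕ) : ℝ) + 1) = 1 / 2 := by norm_num
  rw [e1, e2, ← Real.sqrt_eq_rpow, ← Real.sqrt_eq_rpow, Real.sqrt_mul ENNReal.toReal_nonneg,
    Nat.cast_one]
  apply le_of_eq
  ring

end

end Pool.Agent.Work.MP_3892ce_str
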