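import Pool.Agent.Work.MP_3892ce_str.Closed
import Pool.Agent.Work.MP_3892ce_static.Eng
import Pool.Agent.Work.MP_3892ce_str.Facet

/-! # From the checker to the static bound (helper15) -/

set_option autoImplicit false

open MeasureTheory Set
open scoped ENNReal Pointwise

namespace Pool.Agent.Work.MP_3892ce_str

open Pool.Agent.Work.MP_3892ce_static

section real

variable {ι : Type} [Fintype ι]

/-- elementary facts on the relative areas -/
theorem rel_facts {α : ι → ℝ} (h0 : ∀ i, 0 < α i) (h1 : ∀ i, α i ≤ 1 / 2) (hs : ∑ i, α i = 1)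
    (hc : 3 ≤ Fintype.card ι) : ∑ i, α i ^ 2 < 1 / 2 ∧
    (1 - ∑ i, α i ^ 2) * (1 - 2 * ∑ i, α i ^ 2) ≤
      1 - 3 * ∑ i, α i ^ 2 + 2 * ∑ i, α i ^ 3 := by
  constructor
  · have h2 : ∃ i, α i < 1 / 2 := by
      by_contra hcon
      push Not at hcon
      have h3 : ∑ _i : ι, (1 / 2 : ℝ) ≤ ∑ i, α i := Finset.sum_le_sum fun i _ => hcon i
      rw [hs, Finset.sum_const, Finset.card_univ, nsmul_eq_mul] at h3
      have h4 : (3 : ℝ) ≤ Fintype.card ι := by exact_mod_cast hc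
      linarith
    have h3 : ∑ i, α i ^ 2 < ∑ i, α i * (1 / 2) := by
      refine Finset.sum_lt_sum (fun i _ => ?_) ?_
      · have := h0 i
        have := h1 i
        nlinarith
      · obtain ⟨i, hi⟩ := h2
        refine ⟨i, Finset.mem_univ i, ?_⟩
        have := h0 i
        nlinarith
    rw [← Finset.sum_mul, hs] at h3
    linarith
  · have h2 : (∑ i, α i ^ 2) ^ 2 ≤ ∑ i, α i ^ 3 := by
      have h3 : (∑ i, α i ^ 2) ^ 2 ≤ (∑ i, α i) * ∑ i, α i ^ 3 := by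
        refine Finset.sum_sq_le_sum_mul_sum_of_sq_le_mul _ (fun i _ => (h0 i).le)
          (fun i _ => (pow_pos (h0 i) 3).le) fun i _ => le_of_eq (by ring)
      rw [hs, one_mul] at h3
      exact h3
    nlinarith

theorem sum_sqrt_ge {α : ι → ℝ} (h0 : ∀ i, 0 < α i) (h1 : ∀ i, α i ≤ 1 / 2) (hs : ∑ i, α i = 1) :
    √2 ≤ ∑ i, √(α i) := by
  calc √2 = ∑ i, √2 * α i := by rw [← Finset.mul_sum, hs, mul_one]
    _ ≤ ∑ i, √(α i) := by
        refine Finset.sum_le_sum fun i _ => ?_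
        rw [← Real.sqrt_sq (h0 i).le, ← Real.sqrt_mul (by norm_num), Real.sqrt_sq (h0 i).le]
        apply Real.sqrt_le_sqrt
        have := h0 i
        have := h1 i
        nlinarith

/-- the final computation -/
theorem final_ineq {q cc S l L V K c₀ : ℝ} (hS : 0 < S) (hl : l ^ 2 * S = L ^ 2) (hL : 0 ≤ L)
    (hV : 0 ≤ V) (hY : 0 < 1 - 3 * q + 2 * cc)
    (hiso : 36 * Real.pi * (1 - 3 * q + 2 * cc) * V ^ 2 ≤ (S * (1 - 2 * q)) ^ 3)
    (hK0 : 0 ≤ K) (hK : K ^ 3 * (1 - 2 * q) ^ 3 ≤ l ^ 6 * (1 - 3 * q + 2 * cc))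
    (hc0 : 0 ≤ c₀) (hc : c₀ ^ 2 ≤ 36 * Real.pi * K ^ 3) : c₀ * V ≤ L ^ 3 := by
  set Y := 1 - 3 * q + 2 * cc with hYd
  have hpi := Real.pi_pos
  have h1 : K ^ 3 * (36 * Real.pi * Y * V ^ 2) ≤ K ^ 3 * (S * (1 - 2 * q)) ^ 3 :=
    mul_le_mul_of_nonneg_left hiso (by positivity)
  have h2 : K ^ 3 * (S * (1 - 2 * q)) ^ 3 ≤ L ^ 6 * Y := by
    calc K ^ 3 * (S * (1 - 2 * q)) ^ 3 = S ^ 3 * (K ^ 3 * (1 - 2 * q) ^ 3) := by ring
      _ ≤ S ^ 3 * (l ^ 6 * Y) := mul_le_mul_of_nonneg_left hK (by positivity)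
      _ = (l ^ 2 * S) ^ 3 * Y := by ring
      _ = L ^ 6 * Y := by rw [hl]; ring
  have h3 : (36 * Real.pi * K ^ 3) * V ^ 2 * Y ≤ L ^ 6 * Y := by
    calc (36 * Real.pi * K ^ 3) * V ^ 2 * Y = K ^ 3 * (36 * Real.pi * Y * V ^ 2) := by ring
      _ ≤ _ := h1.trans h2
  have h4 := le_of_mul_le_mul_right h3 hY
  have h5 : c₀ ^ 2 * V ^ 2 ≤ (36 * Real.pi * K ^ 3) * V ^ 2 :=
    mul_le_mul_of_nonneg_right hc (sq_nonneg V)
  have h6 : (c₀ * V) ^ 2 ≤ (L ^ 3) ^ 2 := by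
    calc (c₀ * V) ^ 2 = c₀ ^ 2 * V ^ 2 := by ring
      _ ≤ L ^ 6 := h5.trans h4
      _ = (L ^ 3) ^ 2 := by ring
  exact (sq_le_sq₀ (by positivity) (by positivity)).1 h6

/-- the region where `Y` is small -/
theorem small_Y {q cc l K : ℝ} (hq : q < 1 / 2)
    (hcc : (1 - q) * (1 - 2 * q) ≤ 1 - 3 * q + 2 * cc) (hY : 1 - 3 * q + 2 * cc ≤ 35 / 1000)
    (hl : Real.pi * 2 ≤ l ^ 2) (hK : K ^ 3 ≤ 25300) :
    K ^ 3 * (1 - 2 * q) ^ 3 ≤ l ^ 6 * (1 - 3 * q + 2 * cc) := by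
  set e := 1 - 2 * q with he
  have he0 : 0 < e := by linarith
  have h1 : 1 - q = (1 + e) / 2 := by linarith
  rw [h1] at hcc
  have h2 : e ≤ 7 / 100 := by nlinarith
  have hpi := Real.pi_gt_d6
  have h3 : (248 : ℝ) ≤ l ^ 6 := by
    have h4 : (6.28318 : ℝ) ≤ l ^ 2 := by linarith
    have h5 : (6.28318 : ℝ) ^ 3 ≤ (l ^ 2) ^ 3 := pow_le_pow_left₀ (by norm_num) h4 3
    calc (248 : ℝ) ≤ (6.28318 : ℝ) ^ 3 := by norm_num
      _ ≤ (l ^ 2) ^ 3 := h5
      _ = l ^ 6 := by ring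
  have h4 : e / 2 ≤ 1 - 3 * q + 2 * cc := by nlinarith
  have e3 : 0 ≤ e ^ 3 := by positivity
  calc K ^ 3 * e ^ 3 ≤ 25300 * e ^ 3 := mul_le_mul_of_nonneg_right hK e3
    _ = 25300 * e ^ 2 * e := by ring
    _ ≤ 25300 * (7 / 100) ^ 2 * e := by gcongr
    _ ≤ 248 * (e / 2) := by nlinarith
    _ ≤ l ^ 6 * (1 - 3 * q + 2 * cc) := by gcongr

end real

section poly

variable {ι : Type} [Fintype ι] [DecidableEq ι] {n : ι → E 3} {b : ι → ℝ}
  {U : ι → (E 2 →ₗᵢ[ℝ] E 3)}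

/-- total area -/
noncomputable def SS (n : ι → E 3) (b : ι → ℝ) (U : ι → (E 2 →ₗᵢ[ℝ] E 3)) : ℝ :=
  ∑ i, area (HP n b) (n i) (U i) (b i)

/-- relative areas -/
noncomputable def al (n : ι → E 3) (b : ι → ℝ) (U : ι → (E 2 →ₗᵢ[ℝ] E 3)) (i : ι) : ℝ :=
  area (HP n b) (n i) (U i) (b i) / SS n b U

omit [DecidableEq ι] [Fintype ι] in
theorem nonempty_of_irr (hI : Irr n b) : Nonempty ι := by
  by_contra hcon
  rw [not_nonempty_iff] at hcon
  have h1 : HP n b = univ := by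
    ext x
    simp [HP]
  have h2 := hI.bdd
  rw [h1] at h2
  exact NormedSpace.unbounded_univ ℝ (E 3) h2

omit [DecidableEq ι] in
theorem SS_pos (hU : ∀ i, Frame (n i) (U i)) (hI : Irr n b) : 0 < SS n b U := by
  have := nonempty_of_irr hI
  exact Finset.sum_pos (fun i _ => blk_POS ι n b U hU hI i) Finset.univ_nonempty

omit [DecidableEq ι] in
theorem al_pos (hU : ∀ i, Frame (n i) (U i)) (hI : Irr n b) (i : ι) : 0 < al n b U i :=
  div_pos (blk_POS ι n b U hU hI i) (SS_pos hU hI)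

omit [DecidableEq ι] in
theorem sum_al (hU : ∀ i, Frame (n i) (U i)) (hI : Irr n b) : ∑ i, al n b U i = 1 := by
  unfold al
  rw [← Finset.sum_div]
  exact div_self (SS_pos hU hI).ne'

theorem al_le (hU : ∀ i, Frame (n i) (U i)) (hI : Irr n b) (i : ι) : al n b U i ≤ 1 / 2 := by
  set A : ι → ℝ := fun i => area (HP n b) (n i) (U i) (b i) with hA
  have hApos : ∀ i, 0 < A i := fun i => blk_POS ι n b U hU hI i
  have hc := Closed.CLOSE ι n b U hU hI
  rw [← Finset.add_sum_erase _ _ (Finset.mem_univ i)] at hc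
  have h1 : A i • n i = - ∑ j ∈ Finset.univ.erase i, A j • n j := eq_neg_of_add_eq_zero_left hc
  have h2 : A i ≤ ∑ j ∈ Finset.univ.erase i, A j := by
    calc A i = ‖A i • n i‖ := by
          rw [norm_smul, hI.unit, mul_one, Real.norm_eq_abs, abs_of_pos (hApos i)]
      _ = ‖∑ j ∈ Finset.univ.erase i, A j • n j‖ := by rw [h1, norm_neg]
      _ ≤ ∑ j ∈ Finset.univ.erase i, ‖A j • n j‖ := norm_sum_le _ _
      _ = ∑ j ∈ Finset.univ.erase i, A j := by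
          refine Finset.sum_congr rfl fun j _ => ?_
          rw [norm_smul, hI.unit, mul_one, Real.norm_eq_abs, abs_of_pos (hApos j)]
  have h3 : A i + ∑ j ∈ Finset.univ.erase i, A j = SS n b U :=
    Finset.add_sum_erase _ _ (Finset.mem_univ i)
  unfold al
  rw [div_le_iff₀ (SS_pos hU hI)]
  change A i ≤ _
  linarith

omit [DecidableEq ι] in
theorem sqrt_area (hU : ∀ i, Frame (n i) (U i)) (hI : Irr n b) (i : ι) :
    √(area (HP n b) (n i) (U i) (b i)) = √(al n b U i) * √(SS n b U) := by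
  rw [← Real.sqrt_mul (al_pos hU hI i).le]
  congr 1
  unfold al
  rw [div_mul_cancel₀ _ (SS_pos hU hI).ne']

theorem L_nonneg (n : ι → E 3) (b : ι → ℝ) : 0 ≤ L n b := by
  unfold L
  have : 0 ≤ ∑ i, ∑ j, len n b i j :=
    Finset.sum_nonneg fun i _ => Finset.sum_nonneg fun j _ => len_nonneg _ _ i j
  linarith

/-- the family with all weights one half -/
theorem fam0 (hU : ∀ i, Frame (n i) (U i)) (hI : Irr n b) :
    √Real.pi * ∑ i, √(al n b U i) ≤ L n b / √(SS n b U) := by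
  have h := Closed.TWO ι n b U hU hI ∅ (1 / 2) (fun _ => 1 / 2) (by norm_num)
    (fun i hi => absurd hi (Finset.notMem_empty i)) (fun i _ => by norm_num)
  have hS := SS_pos hU hI
  rw [le_div_iff₀ (Real.sqrt_pos.2 hS)]
  refine le_trans (le_of_eq ?_) h
  rw [mul_assoc, Finset.sum_mul, Finset.mul_sum]
  refine Finset.sum_congr rfl fun i _ => ?_
  rw [← sqrt_area hU hI i]
  have h2 : Wd (1 / 2) (if i ∈ (∅ : Finset ι) then 1 / 2 else 1 - 1 / 2)
      ((∅ : Finset ι).filter (fun j => 0 < len n b i j)).card = Real.pi / 4 := by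
    unfold Wd
    rw [Finset.filter_empty, Finset.card_empty]
    push_cast
    ring
  rw [h2, Real.sqrt_mul (blk_POS ι n b U hU hI i).le, Real.sqrt_div' _ (by norm_num)]
  have h4 : √(4 : ℝ) = 2 := by
    rw [show (4 : ℝ) = 2 ^ 2 by norm_num, Real.sqrt_sq (by norm_num)]
  rw [h4]
  ring

theorem l_sq (hU : ∀ i, Frame (n i) (U i)) (hI : Irr n b) :
    Real.pi * 2 ≤ (L n b / √(SS n b U)) ^ 2 := by
  have h1 := fam0 hU hI
  have h2 := sum_sqrt_ge (al_pos hU hI) (al_le hU hI) (sum_al hU hI)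
  have h3 : √Real.pi * √2 ≤ L n b / √(SS n b U) :=
    (mul_le_mul_of_nonneg_left h2 (Real.sqrt_nonneg _)).trans h1
  have h4 := pow_le_pow_left₀ (by positivity) h3 2
  rw [mul_pow, Real.sq_sqrt Real.pi_pos.le, Real.sq_sqrt (by norm_num)] at h4
  exact h4

/-- splitting a sum into the numbered facets and the others -/
theorem sum_split {k : ℕ} {m : Fin k → ι} (hm : Function.Injective m) (f : ι → ℝ) (g : ℕ → ℝ)
    (hg : ∀ i : Fin k, g i = f (m i)) :
    ∑ i ∈ Finset.range k, g i + ∑ a : {a : ι // a ∉ Set.range m}, f a.1 = ∑ i, f i := by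
  classical
  rw [← Fin.sum_univ_eq_sum_range]
  have h1 : ∑ i : Fin k, g i = ∑ a ∈ Finset.univ.filter (fun a => a ∈ Set.range m), f a := by
    have e : Finset.univ.filter (fun a => a ∈ Set.range m) = Finset.univ.image m := by
      ext a
      simp
    rw [e, Finset.sum_image fun i _ j _ h => hm h]
    exact Finset.sum_congr rfl fun i _ => hg i
  have h2 : ∑ a ∈ Finset.univ.filter (fun a => a ∉ Set.range m), f a =
      ∑ a : {a : ι // a ∉ Set.range m}, f a.1 := Finset.sum_subtype _ (fun x => by simp) f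
  rw [h1, ← h2]
  exact Finset.sum_filter_add_sum_filter_not _ _ _

/-- from the checker to the static bound -/
theorem glue (hU : ∀ i, Frame (n i) (U i)) (hI : Irr n b)
    (P : Eng.Prob) (c : Eng.Cell) (tr : Eng.Tree) (hch : Eng.check P c tr = true)
    (h1 : c.hi.length = c.lo.length) (h2 : ∀ i ∈ P.pos, i < c.lo.length) (h3 : P.pos.Nodup)
    (h4 : c.sb.length = P.pos.length)
    (h5 : ∀ f ∈ P.fams, f.c.length = c.lo.length ∧ f.m.length ≤ P.pos.length)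
    (h6 : ∀ h ∈ c.lo, 0 ≤ h) (h7 : 0 < c.Y1) (h7' : c.Y1 ≤ 35) (h8 : 1000 ≤ c.Y2)
    {k : ℕ} (hk : c.lo.length = k) (hk3 : 3 ≤ k) (m : Fin k → ι) (hm : Function.Injective m)
    (x : ℕ → ℝ) (hx : ∀ i : Fin k, x i = √(al n b U (m i)))
    (hbox : ∀ i < k, (c.lo.getD i 0 : ℝ) ≤ 1000 * x i ∧ 1000 * x i ≤ (c.hi.getD i 0 : ℝ))
    (hyx : ∀ a, a ∉ Set.range m → ∀ i : Fin k, al n b U a ≤ al n b U (m i))
    (hH : ∀ a, a ∉ Set.range m → 1000 * √(al n b U a) ≤ (c.H : ℝ))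
    (hdn : ∀ i < k, ∀ j ∈ P.dn.getD i [], x j ≤ x i)
    (hup : ∀ i < k, ∀ j ∈ P.up.getD i [], x i ≤ x j)
    (s : ℕ → ℝ)
    (hs : ∀ j < c.sb.length, ((c.sb.getD j (0, 0)).1 : ℝ) ≤ 10000 * s j ∧
        10000 * s j ≤ ((c.sb.getD j (0, 0)).2 : ℝ))
    (hS0 : 10000 * ∑ j ∈ Finset.range P.pos.length, s j ≤ (P.S0 : ℝ))
    (hT1 : (c.T1 : ℝ) ≤ 1000000 * (∑ i ∈ (Finset.range k).filter (fun i => i ∈ P.gr), x i ^ 2 +
      ∑ a : {a : ι // a ∉ Set.range m}, al n b U a.1))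
    (hT2 : 1000000 * (∑ i ∈ (Finset.range k).filter (fun i => i ∈ P.gr), x i ^ 2 +
      ∑ a : {a : ι // a ∉ Set.range m}, al n b U a.1) ≤ (c.T2 : ℝ))
    (hfam : ∀ f ∈ P.fams, (∀ j < f.sb.length, ((f.sb.getD j (0, 0)).1 : ℝ) ≤ 10000 * s j ∧
          10000 * s j ≤ ((f.sb.getD j (0, 0)).2 : ℝ)) →
        ∑ i ∈ Finset.range k, (f.c.getD i 0 : ℝ) * x i +
          (f.t : ℝ) * ∑ a : {a : ι // a ∉ Set.range m}, √(al n b U a.1) -
          ∑ j ∈ Finset.range P.pos.length, (f.m.getD j 0 : ℝ) * s j * x (P.pos.getD j 0) ≤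
          100000 * (L n b / √(SS n b U)))
    {c₀ : ℝ} (hc0 : 0 ≤ c₀) (hK0 : 0 ≤ P.K2) (hK1 : ((P.K2 : ℝ) / 100000000) ^ 3 ≤ 25300)
    (hK : c₀ ^ 2 ≤ 36 * Real.pi * ((P.K2 : ℝ) / 100000000) ^ 3) :
    c₀ * (volume (HP n b)).toReal ≤ L n b ^ 3 := by
  subst hk
  have hal0 := al_pos hU hI
  have hal1 := al_le hU hI
  have hals := sum_al hU hI
  have hS := SS_pos hU hI
  have hcard : 3 ≤ Fintype.card ι := by
    have := Fintype.card_le_of_injective m hm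
    rw [Fintype.card_fin] at this
    omega
  obtain ⟨hq, hcc⟩ := rel_facts hal0 hal1 hals hcard
  set q := ∑ i, al n b U i ^ 2 with hqd
  set cc := ∑ i, al n b U i ^ 3 with hccd
  set l := L n b / √(SS n b U) with hl
  have hlS : l ^ 2 * SS n b U = L n b ^ 2 := by
    rw [hl, div_pow, Real.sq_sqrt hS.le, div_mul_cancel₀ _ hS.ne']
  have hYpos : 0 < 1 - 3 * q + 2 * cc := by
    refine lt_of_lt_of_le ?_ hcc
    exact mul_pos (by linarith) (by linarith)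
  have hiso := Closed.ISO ι n b U hU hI (al n b U) (SS n b U) rfl (fun i => rfl)
  rw [← hqd, ← hccd] at hiso
  have hK0' : (0 : ℝ) ≤ (P.K2 : ℝ) / 100000000 := by
    have : (0 : ℝ) ≤ P.K2 := by exact_mod_cast hK0
    positivity
  refine final_ineq hS hlS (L_nonneg n b) ENNReal.toReal_nonneg hYpos hiso hK0' ?_ hc0 hK
  rcases le_or_gt (1 - 3 * q + 2 * cc) (35 / 1000) with hY | hY
  · exact small_Y hq hcc hY (l_sq hU hI) hK1
  have e2 : ∀ i, √(al n b U i) ^ 2 = al n b U i := fun i => Real.sq_sqrt (hal0 i).le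
  have e4 : ∀ i, √(al n b U i) ^ 4 = al n b U i ^ 2 := fun i => by
    rw [← e2 i]
    rw [e2]
    rw [show √(al n b U i) ^ 4 = (√(al n b U i) ^ 2) ^ 2 by ring, e2]
  have e6 : ∀ i, √(al n b U i) ^ 6 = al n b U i ^ 3 := fun i => by
    rw [show √(al n b U i) ^ 6 = (√(al n b U i) ^ 2) ^ 3 by ring, e2]
  have t0 : ∑ a : {a : ι // a ∉ Set.range m}, √(al n b U a.1) ^ 2 =
      ∑ a : {a : ι // a ∉ Set.range m}, al n b U a.1 :=
    Finset.sum_congr rfl fun a _ => e2 a.1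
  refine Eng.blk_ENG P c tr hch h1 h2 h3 h4 h5 h6 h7 {a : ι // a ∉ Set.range m} x
    (fun a => √(al n b U a.1)) s l q cc
    (∑ i ∈ (Finset.range c.lo.length).filter (fun i => i ∈ P.gr), x i ^ 2 +
      ∑ a : {a : ι // a ∉ Set.range m}, al n b U a.1)
    hbox (fun a => Real.sqrt_nonneg _) ?_ (fun a => hH a.1 a.2) hdn hup hs hS0 (by rw [t0]) ?_ ?_ ?_
    hT1 hT2 ?_ ?_ (by linarith) hfam
  · intro a i hi
    rw [hx ⟨i, hi⟩]
    exact Real.sqrt_le_sqrt (hyx a.1 a.2 ⟨i, hi⟩)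
  · rw [t0, sum_split hm (al n b U) (fun i => x i ^ 2) (fun i => by rw [hx i, e2])]
    exact hals
  · have h := sum_split hm (fun i => al n b U i ^ 2) (fun i => x i ^ 4)
      (fun i => by rw [hx i, e4])
    rw [hqd, ← h]
    congr 1
    exact Finset.sum_congr rfl fun a _ => (e4 a.1).symm
  · have h := sum_split hm (fun i => al n b U i ^ 3) (fun i => x i ^ 6)
      (fun i => by rw [hx i, e6])
    rw [hccd, ← h]
    congr 1
    exact Finset.sum_congr rfl fun a _ => (e6 a.1).symm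
  · have h9 : (c.Y1 : ℝ) ≤ 35 := by exact_mod_cast h7'
    linarith
  · have h9 : (1000 : ℝ) ≤ c.Y2 := by exact_mod_cast h8
    have h10 : 2 * cc ≤ 3 * q := by
      rw [hqd, hccd, Finset.mul_sum, Finset.mul_sum]
      refine Finset.sum_le_sum fun i _ => ?_
      have a0 := hal0 i
      have a1 := hal1 i
      have : 0 ≤ al n b U i ^ 2 := sq_nonneg _
      nlinarith
    linarith

end poly

end Pool.Agent.Work.MP_3892ce_str
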