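import Pool.Agent.Work.MP_3892ce_static.ZETA
import Pool.Agent.Work.MP_3892ce_static.ADJ

/-! # All edges of an irredundant polytope are common segments of two facets (helper15) -/

set_option autoImplicit false

open MeasureTheory Set
open scoped ENNReal Pointwise

namespace Pool.Agent.Work.MP_3892ce_str

open Pool.Agent.Work.MP_3892ce_static
open Pool.Agent.Work.MP_3892ce_gt (IsEdge zeta1)

variable {ι : Type} {n : ι → E 3} {b : ι → ℝ}

/-- finitely many strict inequalities stay true -/
theorem eps_move [Finite ι] (m w : E 3) (J : Set ι) (h : ∀ i ∈ J, inner ℝ (n i) m < b i) :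
    ∃ ε : ℝ, 0 < ε ∧ ∀ i ∈ J, inner ℝ (n i) (m + ε • w) ≤ b i ∧
      inner ℝ (n i) (m + (-ε) • w) ≤ b i := by
  have h1 : ∀ i : ι, ∃ ε : ℝ, 0 < ε ∧ ∀ δ, 0 ≤ δ → δ ≤ ε → i ∈ J →
      inner ℝ (n i) (m + δ • w) ≤ b i ∧ inner ℝ (n i) (m + (-δ) • w) ≤ b i := by
    intro i
    by_cases hi : i ∈ J
    · have h2 := h i hi
      set t := |inner ℝ (n i) w| + 1 with ht
      have ht0 : 0 < t := by positivity
      refine ⟨(b i - inner ℝ (n i) m) / t, div_pos (by linarith) ht0, fun δ h0 h3 _ => ?_⟩
      have h4 : δ * t ≤ b i - inner ℝ (n i) m := by rwa [le_div_iff₀ ht0] at h3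
      have h5 : |δ * inner ℝ (n i) w| ≤ δ * t := by
        rw [abs_mul, abs_of_nonneg h0]
        exact mul_le_mul_of_nonneg_left (by linarith) h0
      rw [inner_add_right, inner_smul_right, inner_add_right, inner_smul_right]
      rw [abs_le] at h5
      constructor <;> linarith
    · exact ⟨1, one_pos, fun δ _ _ h => absurd h hi⟩
  choose ε hε hεi using h1
  rcases isEmpty_or_nonempty ι with he | he
  · exact ⟨1, one_pos, fun i => he.elim i⟩
  · obtain ⟨i0, hi0⟩ := Finite.exists_min ε
    exact ⟨ε i0, hε i0, fun i hi => hεi i (ε i0) (hε i0).le (hi0 i) hi⟩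

theorem edge_pair [Finite ι] (hI : Irr n b) {F : Set (E 3)} (hF : IsEdge (HP n b) F) :
    ∃ i j, i ≠ j ∧ F = Face n b i ∩ Face n b j := by
  classical
  obtain ⟨hex, x, y, hxy, hseg⟩ := hF
  have hxF : x ∈ F := by rw [hseg]; exact left_mem_segment ℝ x y
  have hyF : y ∈ F := by rw [hseg]; exact right_mem_segment ℝ x y
  obtain ⟨l, hl⟩ := hex ⟨x, hxF⟩
  have hFP : ∀ z ∈ F, z ∈ HP n b ∧ ∀ w ∈ HP n b, l w ≤ l z := by
    intro z hz
    rw [hl] at hz
    exact hz
  have hFl : ∀ z ∈ HP n b, l z = l x → z ∈ F := by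
    intro z hz h
    rw [hl]
    exact ⟨hz, fun w hw => by rw [h]; exact (hFP x hxF).2 w hw⟩
  have hlxy : l x = l y := le_antisymm ((hFP y hyF).2 x (hFP x hxF).1)
    ((hFP x hxF).2 y (hFP y hyF).1)
  set m : E 3 := (1 / 2 : ℝ) • x + (1 / 2 : ℝ) • y with hm
  have hmF : m ∈ F := by
    rw [hseg]
    exact ⟨1 / 2, 1 / 2, by norm_num, by norm_num, by norm_num, rfl⟩
  have hlm : l m = l x := by
    rw [hm, map_add, map_smul, map_smul, ← hlxy, smul_eq_mul]
    ring
  set u := y - x with hu
  have hu0 : u ≠ 0 := sub_ne_zero.2 hxy.symm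
  -- tight constraints at `m` are tight at `x` and `y`
  have htight : ∀ i, inner ℝ (n i) m = b i → inner ℝ (n i) x = b i ∧ inner ℝ (n i) y = b i := by
    intro i hi
    have h1 := (hFP x hxF).1 i
    have h2 := (hFP y hyF).1 i
    rw [hm, inner_add_right, inner_smul_right, inner_smul_right] at hi
    constructor <;> linarith
  have hor : ∀ i, inner ℝ (n i) m = b i → inner ℝ (n i) u = 0 := by
    intro i hi
    obtain ⟨h1, h2⟩ := htight i hi
    rw [hu, inner_sub_right, h1, h2, sub_self]
  -- moving in a direction orthogonal to the tight normals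
  have hmove : ∀ w : E 3, (∀ i, inner ℝ (n i) m = b i → inner ℝ (n i) w = 0) →
      ∃ t : ℝ, w = t • u := by
    intro w hw
    obtain ⟨ε, hε, hεJ⟩ := eps_move (n := n) (b := b) m w {i | inner ℝ (n i) m ≠ b i}
      (fun i hi => lt_of_le_of_ne ((hFP m hmF).1 i) hi)
    have hP : ∀ δ : ℝ, (δ = ε ∨ δ = -ε) → m + δ • w ∈ HP n b := by
      intro δ hδ i
      by_cases hi : inner ℝ (n i) m = b i
      · rw [inner_add_right, inner_smul_right, hw i hi, mul_zero, add_zero, hi]
      · rcases hδ with h | h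
        · rw [h]; exact (hεJ i hi).1
        · rw [h]; exact (hεJ i hi).2
    have h1 := (hFP m hmF).2 _ (hP ε (Or.inl rfl))
    have h2 := (hFP m hmF).2 _ (hP (-ε) (Or.inr rfl))
    rw [map_add, map_smul, smul_eq_mul] at h1 h2
    have h3 : l w = 0 := by nlinarith
    have h4 : m + ε • w ∈ F := by
      refine hFl _ (hP ε (Or.inl rfl)) ?_
      rw [map_add, map_smul, h3, smul_zero, add_zero, hlm]
    rw [hseg, segment_eq_image'] at h4
    obtain ⟨t, _, ht⟩ := h4
    have h5 : ε • w = (t - 1 / 2) • u := by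
      have h6 : x + t • u = m + ε • w := ht
      have h7 : m = x + (1 / 2 : ℝ) • u := by
        rw [hm, hu, smul_sub]
        have : x = (1 / 2 : ℝ) • x + (1 / 2 : ℝ) • x := by
          rw [← add_smul]
          norm_num
        nth_rw 2 [this]
        abel
      have h8 : ε • w = x + t • u - m := by rw [h6]; abel
      rw [h8, h7, sub_smul]
      abel
    refine ⟨ε⁻¹ * (t - 1 / 2), ?_⟩
    rw [mul_smul, ← h5, smul_smul, inv_mul_cancel₀ hε.ne', one_smul]
  -- existence of a vector orthogonal to a given vector and to `u`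
  have horth : ∀ a : E 3, ∃ w : E 3, w ≠ 0 ∧ inner ℝ a w = 0 ∧ inner ℝ u w = 0 := by
    intro a
    set S : Submodule ℝ (E 3) := Submodule.span ℝ {a, u} with hS
    have hf : Module.finrank ℝ S ≤ 2 := by
      have h1 := finrank_span_finset_le_card (R := ℝ) ({a, u} : Finset (E 3))
      have h2 : ({a, u} : Finset (E 3)).card ≤ 2 := Finset.card_le_two
      have h3 : ((({a, u} : Finset (E 3)) : Set (E 3))) = {a, u} := by simp
      rw [h3] at h1
      exact h1.trans h2
    have hf2 : 0 < Module.finrank ℝ Sᗮ := by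
      have h1 := Submodule.finrank_add_finrank_orthogonal S
      rw [finrank_euclideanSpace, Fintype.card_fin] at h1
      omega
    have hnt : Nontrivial Sᗮ := Module.nontrivial_of_finrank_pos hf2
    obtain ⟨⟨w, hwS⟩, hw0⟩ := exists_ne (0 : Sᗮ)
    rw [Submodule.mem_orthogonal] at hwS
    refine ⟨w, fun h => hw0 (Subtype.ext h), hwS a (Submodule.subset_span (by simp)),
      hwS u (Submodule.subset_span (by simp))⟩
  -- there is a tight constraint
  have hex1 : ∃ i, inner ℝ (n i) m = b i := by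
    by_contra hcon
    push Not at hcon
    obtain ⟨w, hw0, _, hwu⟩ := horth 0
    obtain ⟨t, ht⟩ := hmove w (fun i hi => absurd hi (hcon i))
    rw [ht, inner_smul_right] at hwu
    rcases mul_eq_zero.1 hwu with h | h
    · rw [h, zero_smul] at ht
      exact hw0 ht
    · exact hu0 (inner_self_eq_zero.1 h)
  obtain ⟨i, hi⟩ := hex1
  have hex2 : ∃ j, j ≠ i ∧ inner ℝ (n j) m = b j := by
    by_contra hcon
    push Not at hcon
    obtain ⟨w, hw0, hwi, hwu⟩ := horth (n i)
    obtain ⟨t, ht⟩ := hmove w (fun j hj => by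
      by_cases h : j = i
      · rw [h]; exact hwi
      · exact absurd hj (hcon j h))
    rw [ht, inner_smul_right] at hwu
    rcases mul_eq_zero.1 hwu with h | h
    · rw [h, zero_smul] at ht
      exact hw0 ht
    · exact hu0 (inner_self_eq_zero.1 h)
  obtain ⟨j, hji, hj⟩ := hex2
  refine ⟨i, j, hji.symm, ?_⟩
  obtain ⟨xi, yi⟩ := htight i hi
  obtain ⟨xj, yj⟩ := htight j hj
  have hxm : x ∈ Face n b i ∩ Face n b j := ⟨⟨(hFP x hxF).1, xi⟩, ⟨(hFP x hxF).1, xj⟩⟩
  apply Subset.antisymm
  · rw [hseg]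
    refine ((ZETA.convex_Face n b i).inter (ZETA.convex_Face n b j)).segment_subset hxm ?_
    exact ⟨⟨(hFP y hyF).1, yi⟩, ⟨(hFP y hyF).1, yj⟩⟩
  · rintro z ⟨⟨hz, hzi⟩, ⟨_, hzj⟩⟩
    obtain ⟨e1, e2⟩ := ZETA.ne_of_face hI hji.symm hxm
    obtain ⟨t, ht⟩ := ZETA.line (n i) (n j) (ZETA.indep hI e1 e2) u (z - x) hu0 (hor i hi)
      (hor j hj) (by rw [inner_sub_right, hzi, xi, sub_self])
      (by rw [inner_sub_right, hzj, xj, sub_self])
    refine hFl z hz ?_
    have h1 : z = x + t • u := by rw [← ht]; abel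
    rw [h1, map_add, map_smul, hu, map_sub, hlxy, sub_self, smul_zero, add_zero]

/-- the total edge length is the sum over the pairs of facets -/
theorem zeta1_le [Fintype ι] [DecidableEq ι] (hI : Irr n b) :
    zeta1 (HP n b) ≤ ENNReal.ofReal (L n b) := by
  classical
  set F : ι × ι → Set (E 3) := fun p => Face n b p.1 ∩ Face n b p.2 with hF
  set S : Finset (Set (E 3)) := (Finset.univ.filter fun p : ι × ι => p.1 ≠ p.2).image F with hS
  have hmem : ∀ G : {G : Set (E 3) // IsEdge (HP n b) G}, G.1 ∈ S := by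
    rintro ⟨G, hG⟩
    obtain ⟨i, j, hij, h⟩ := edge_pair hI hG
    exact Finset.mem_image.2 ⟨(i, j), Finset.mem_filter.2 ⟨Finset.mem_univ _, hij⟩, h.symm⟩
  -- finitely many edges
  have hz : zeta1 (HP n b) ≤ ∑ s ∈ S, Metric.ediam s := by
    unfold zeta1
    have h1 : ∑' G : {G : Set (E 3) // IsEdge (HP n b) G}, Metric.ediam G.1 ≤
        ∑' s : S, Metric.ediam s.1 := by
      refine ENNReal.tsum_comp_le_tsum_of_injective
        (f := fun G : {G : Set (E 3) // IsEdge (HP n b) G} => (⟨G.1, hmem G⟩ : S)) ?_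
        (fun s : S => Metric.ediam s.1)
      intro G G' h
      have h' : G.1 = G'.1 := congrArg (fun s : S => s.1) h
      exact Subtype.ext h'
    refine h1.trans ?_
    rw [tsum_fintype, Finset.sum_coe_sort S (fun s => Metric.ediam s)]
  refine hz.trans ?_
  have hbd : ∀ s ∈ S, Metric.ediam s = ENNReal.ofReal (Metric.diam s) := by
    intro s hs
    obtain ⟨p, _, rfl⟩ := Finset.mem_image.1 hs
    have hB : Bornology.IsBounded (F p) := hI.bdd.subset fun x hx => hx.1.1
    unfold Metric.diam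
    rw [ENNReal.ofReal_toReal]
    exact Metric.isBounded_iff_ediam_ne_top.1 hB
  rw [Finset.sum_congr rfl hbd, ← ENNReal.ofReal_sum_of_nonneg fun _ _ => Metric.diam_nonneg]
  refine ENNReal.ofReal_le_ofReal ?_
  -- each set occurs at least twice
  set Q := Finset.univ.filter fun p : ι × ι => p.1 ≠ p.2 with hQ
  have h1 : ∑ i, ∑ j, len n b i j = ∑ p ∈ Q, Metric.diam (F p) := by
    rw [← Finset.sum_product', Finset.univ_product_univ]
    rw [← Finset.sum_filter_add_sum_filter_not Finset.univ (fun p : ι × ι => p.1 ≠ p.2)]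
    have h2 : ∑ p ∈ Finset.univ.filter (fun p : ι × ι => ¬ p.1 ≠ p.2), len n b p.1 p.2 = 0 := by
      refine Finset.sum_eq_zero fun p hp => ?_
      have h3 := (Finset.mem_filter.1 hp).2
      unfold len
      rw [if_pos (not_not.1 h3)]
    rw [h2, add_zero]
    refine Finset.sum_congr rfl fun p hp => ?_
    unfold len
    rw [if_neg (Finset.mem_filter.1 hp).2]
  have h2 : ∑ s ∈ S, 2 * Metric.diam s ≤ ∑ p ∈ Q, Metric.diam (F p) := by
    rw [← Finset.sum_fiberwise_of_maps_to (s := Q) (t := S) (g := F) (fun p hp =>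
      Finset.mem_image_of_mem F hp)]
    refine Finset.sum_le_sum fun s hs => ?_
    obtain ⟨p, hp, rfl⟩ := Finset.mem_image.1 hs
    have hpne : p.1 ≠ p.2 := (Finset.mem_filter.1 hp).2
    have h3 : ∑ q ∈ Q with F q = F p, Metric.diam (F q) =
        ((Q.filter fun q => F q = F p).card : ℝ) * Metric.diam (F p) := by
      rw [← nsmul_eq_mul, ← Finset.sum_const]
      refine Finset.sum_congr rfl fun q hq => ?_
      rw [(Finset.mem_filter.1 hq).2]
    rw [h3]
    refine mul_le_mul_of_nonneg_right ?_ Metric.diam_nonneg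
    have h4 : ({p, p.swap} : Finset (ι × ι)) ⊆ Q.filter fun q => F q = F p := by
      intro q hq
      rw [Finset.mem_insert, Finset.mem_singleton] at hq
      rcases hq with rfl | rfl
      · exact Finset.mem_filter.2 ⟨hp, rfl⟩
      · refine Finset.mem_filter.2 ⟨Finset.mem_filter.2 ⟨Finset.mem_univ _, ?_⟩, ?_⟩
        · exact hpne.symm
        · exact inter_comm _ _
    have h5 : ({p, p.swap} : Finset (ι × ι)).card = 2 := by
      refine Finset.card_pair fun h => hpne ?_
      have := congrArg Prod.fst h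
      exact this
    have h6 := Finset.card_le_card h4
    rw [h5] at h6
    exact_mod_cast h6
  unfold L
  rw [h1]
  rw [← Finset.mul_sum] at h2
  linarith

end Pool.Agent.Work.MP_3892ce_str
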