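import Pool.Agent.Work.MP_3892ce_str.Fill
import Pool.Agent.Work.MP_3892ce_str.Edges
import Pool.Agent.Work.MP_3892ce_gt.Final

/-! # Reduction to polytopes with at most five facets (helper15)

`Stmt_S2 c`: if among the five largest facets there are two different non-adjacent pairs then
`c * V ≤ L ^ 3`. `Stmt_S5 c`: the same if the five largest facets form a prism structure, there are
further facets, and every cut vertex is sharp (or at infinity). -/

set_option autoImplicit false

open MeasureTheory Set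
open scoped ENNReal Pointwise

namespace Pool.Agent.Work.MP_3892ce_str

open Pool.Agent.Work.MP_3892ce_static
open Pool.Agent.Work.MP_3892ce_gt (IsEdge zeta1 Cert IsArchPrism)

/-- static bound, two non-adjacent pairs among the five largest facets -/
def Stmt_S2 (c : ℝ) : Prop :=
  ∀ (ι : Type) [Fintype ι] [DecidableEq ι] (n : ι → E 3) (b : ι → ℝ)
    (U : ι → (E 2 →ₗᵢ[ℝ] E 3)), (∀ i, Frame (n i) (U i)) → Irr n b → 5 < Fintype.card ι →
    ∀ s : Fin 5 → ι, Function.Injective s →
      (∀ k, k ∉ Set.range s → ∀ i, area (HP n b) (n k) (U k) (b k) ≤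
        area (HP n b) (n (s i)) (U (s i)) (b (s i))) →
      (¬ ∃ p : Equiv.Perm (Fin 5), PAdj n b (s ∘ p)) →
      c * (volume (HP n b)).toReal ≤ L n b ^ 3

/-- static bound, prism structure, all cut vertices are sharp -/
def Stmt_S5 (c : ℝ) : Prop :=
  ∀ (ι : Type) [Fintype ι] [DecidableEq ι] (n : ι → E 3) (b : ι → ℝ)
    (U : ι → (E 2 →ₗᵢ[ℝ] E 3)), (∀ i, Frame (n i) (U i)) → Irr n b →
    ∀ (s : Fin 5 → ι) (μ : Fin 5 → ℝ) (F : ι → VV → ℝ) (Λ : VV → ℝ), Cuts n b s μ F Λ →
      (∀ k, k ∉ Set.range s → ∀ i, area (HP n b) (n k) (U k) (b k) ≤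
        area (HP n b) (n (s i)) (U (s i)) (b (s i))) →
      (∃ k, k ∉ Set.range s) →
      (∀ v : VV, (CS s F v).Nonempty →
        Λ v ≤ 0 ∨ ¬ NonSharp n (s (f0 v)) (s (f1 v)) (s (f2 v))) →
      c * (volume (HP n b)).toReal ≤ L n b ^ 3

/-- the `m` largest values of a function -/
theorem largest {ι : Type} [Fintype ι] (A : ι → ℝ) :
    ∀ m : ℕ, m ≤ Fintype.card ι → ∃ s : Fin m → ι, Function.Injective s ∧
      ∀ k, k ∉ Set.range s → ∀ i, A k ≤ A (s i) := by
  classical
  intro m
  induction m with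
  | zero => exact fun _ => ⟨Fin.elim0, fun i => i.elim0, fun _ _ i => i.elim0⟩
  | succ m ih =>
    intro hm
    obtain ⟨s, hs, hA⟩ := ih (by omega)
    have hne : (Finset.univ \ Finset.univ.image s).Nonempty := by
      rw [← Finset.card_pos, Finset.card_sdiff_of_subset (Finset.subset_univ _),
        Finset.card_image_of_injective _ hs, Finset.card_univ, Finset.card_univ,
        Fintype.card_fin]
      omega
    obtain ⟨k0, hk0, hmax⟩ := Finset.exists_max_image _ A hne
    have hk0' : k0 ∉ Set.range s := by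
      rintro ⟨i, hi⟩
      have := (Finset.mem_sdiff.1 hk0).2
      exact this (Finset.mem_image.2 ⟨i, Finset.mem_univ _, hi⟩)
    refine ⟨Fin.snoc s k0, ?_, ?_⟩
    · intro i j hij
      induction i using Fin.lastCases with
      | last =>
        induction j using Fin.lastCases with
        | last => rfl
        | cast j =>
          rw [Fin.snoc_last, Fin.snoc_castSucc] at hij
          exact absurd ⟨j, hij.symm⟩ hk0'
      | cast i =>
        induction j using Fin.lastCases with
        | last =>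
          rw [Fin.snoc_last, Fin.snoc_castSucc] at hij
          exact absurd ⟨i, hij⟩ hk0'
        | cast j =>
          rw [Fin.snoc_castSucc, Fin.snoc_castSucc] at hij
          rw [hs hij]
    · intro k hk i
      have hks : k ∉ Set.range s := by
        rintro ⟨j, hj⟩
        exact hk ⟨j.castSucc, by rw [Fin.snoc_castSucc]; exact hj⟩
      induction i using Fin.lastCases with
      | last =>
        rw [Fin.snoc_last]
        refine hmax k (Finset.mem_sdiff.2 ⟨Finset.mem_univ _, fun h => ?_⟩)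
        obtain ⟨j, _, hj⟩ := Finset.mem_image.1 h
        exact hks ⟨j, hj⟩
      | cast i =>
        rw [Fin.snoc_castSucc]
        exact hA k hks i

/-- at most five facets -/
theorem few {ι : Type} [Fintype ι] [DecidableEq ι] {n : ι → E 3} {b : ι → ℝ} (hI : Irr n b)
    (hc : Fintype.card ι ≤ 5) : ∃ (m : Fin 5 → E 3) (a : Fin 5 → ℝ), HP m a = HP n b := by
  have hne : Nonempty ι := by
    by_contra h
    rw [not_nonempty_iff] at h
    have h1 : HP n b = Set.univ := by
      ext x
      simp only [HP, mem_ofPred_eq, mem_univ, iff_true]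
      exact fun i => h.elim i
    have h2 := hI.bdd
    rw [h1] at h2
    exact NormedSpace.unbounded_univ ℝ (E 3) h2
  obtain ⟨e⟩ : Nonempty (ι ↪ Fin 5) := by
    refine Function.Embedding.nonempty_of_card_le ?_
    rw [Fintype.card_fin]
    exact hc
  have hsurj : Function.Surjective (Function.invFun e) := Function.invFun_surjective e.injective
  refine ⟨fun i => n (Function.invFun e i), fun i => b (Function.invFun e i), ?_⟩
  ext x
  constructor
  · intro hx i
    obtain ⟨j, rfl⟩ := hsurj i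
    exact hx j
  · intro hx i
    exact hx _

theorem volume_mono_fill {ι : Type} {n : ι → E 3} {b : ι → ℝ} {s : Fin 5 → ι}
    {F : ι → VV → ℝ} {v : VV} (hB : Bornology.IsBounded (HP (rn n s F v) (rb b s F v))) :
    (volume (HP n b)).toReal ≤ (volume (HP (rn n s F v) (rb b s F v))).toReal :=
  ENNReal.toReal_mono hB.measure_lt_top.ne (measure_mono subset_fill)

/-- the reduction -/
theorem core (hFR2 : Stmt_FR2) (hFR1 : Stmt_FR1) (hLEN : Stmt_LEN) {c : ℝ} (hc : 0 ≤ c)
    (hS2 : Stmt_S2 c) (hS5 : Stmt_S5 c) : ∀ (N : ℕ) (ι : Type) [Fintype ι] [DecidableEq ι]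
    (n : ι → E 3) (b : ι → ℝ), Fintype.card ι = N → Irr n b →
    L n b ^ 3 < c * (volume (HP n b)).toReal →
    ∃ (m : Fin 5 → E 3) (a : Fin 5 → ℝ), Bornology.IsBounded (HP m a) ∧ HP n b ⊆ HP m a ∧
      zeta1 (HP m a) ≤ ENNReal.ofReal (L n b) := by
  intro N
  induction N using Nat.strong_induction_on with
  | _ N ih =>
  intro ι _ _ n b hN hI hlt
  classical
  rcases Nat.lt_or_ge 5 N with h5 | h5
  swap
  · obtain ⟨m, a, hma⟩ := few hI (hN ▸ h5)
    exact ⟨m, a, hma ▸ hI.bdd, hma.symm.subset, by rw [hma]; exact zeta1_le hI⟩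
  choose U hU using fun i => hFR1 2 (n i) (hI.unit i)
  obtain ⟨s, hs, hsA⟩ := largest (fun i => area (HP n b) (n i) (U i) (b i)) 5 (by omega)
  by_cases hp : ∃ p : Equiv.Perm (Fin 5), PAdj n b (s ∘ p)
  swap
  · exact absurd (hS2 ι n b U hU hI (hN ▸ h5) s hs hsA hp) (not_le.2 hlt)
  obtain ⟨p, hp⟩ := hp
  have hs' : Function.Injective (s ∘ p) := hs.comp p.injective
  have hran : Set.range (s ∘ p) = Set.range s := p.surjective.range_comp s
  obtain ⟨μ, F, Λ, hC⟩ := exists_cuts hs' hp
  by_cases hv : ∃ v : VV, (CS (s ∘ p) F v).Nonempty ∧ 0 < Λ v ∧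
      NonSharp n ((s ∘ p) (f0 v)) ((s ∘ p) (f1 v)) ((s ∘ p) (f2 v))
  · obtain ⟨v, hne, hΛ, hns⟩ := hv
    have hfill := hC.fill hFR2 hFR1 hLEN hI hΛ hns
    have hI' := hC.irr_fill hI hΛ
    have hcard : Fintype.card (RI (s ∘ p) F v) < N := by
      rw [← hN]
      obtain ⟨k, hk⟩ := hne
      refine Fintype.card_subtype_lt (x := k) ?_
      exact not_not.2 hk
    have hL0 : 0 ≤ L (rn n (s ∘ p) F v) (rb b (s ∘ p) F v) := by
      unfold L
      have : 0 ≤ ∑ i, ∑ j, len (rn n (s ∘ p) F v) (rb b (s ∘ p) F v) i j :=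
        Finset.sum_nonneg fun i _ => Finset.sum_nonneg fun j _ => len_nonneg _ _ i j
      linarith
    have hlt' : L (rn n (s ∘ p) F v) (rb b (s ∘ p) F v) ^ 3 <
        c * (volume (HP (rn n (s ∘ p) F v) (rb b (s ∘ p) F v))).toReal := by
      calc _ ≤ L n b ^ 3 := pow_le_pow_left₀ hL0 hfill 3
        _ < _ := hlt
        _ ≤ _ := mul_le_mul_of_nonneg_left (volume_mono_fill hI'.bdd) hc
    obtain ⟨m, a, h1, h2, h3⟩ := ih _ hcard (RI (s ∘ p) F v) (rn n (s ∘ p) F v)
      (rb b (s ∘ p) F v) rfl hI' hlt'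
    exact ⟨m, a, h1, subset_fill.trans h2, h3.trans (ENNReal.ofReal_le_ofReal hfill)⟩
  · refine absurd (hS5 ι n b U hU hI (s ∘ p) μ F Λ hC ?_ ?_ ?_) (not_le.2 hlt)
    · intro k hk i
      rw [hran] at hk
      exact hsA k hk (p i)
    · by_contra hcon
      push Not at hcon
      have h6 : Fintype.card ι ≤ Fintype.card (Fin 5) :=
        Fintype.card_le_of_surjective (s ∘ p) fun k => hcon k
      rw [Fintype.card_fin, hN] at h6
      omega
    · intro v hne
      by_contra hcon
      push Not at hcon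
      exact hv ⟨v, hne, hcon.1, hcon.2⟩

end Pool.Agent.Work.MP_3892ce_str
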