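import Pool.Agent.Work.MP_3892ce_str.Core9
import Pool.Agent.Work.MP_3892ce_str.Glue
import Pool.Agent.Work.MP_3892ce_static.UNBS5

/-! # Melzak's conjecture: the last three static statements (helper15) -/

set_option autoImplicit false

open MeasureTheory Set
open scoped ENNReal Pointwise

namespace Pool.Agent.Work.MP_3892ce_str

open Pool.Agent.Work.MP_3892ce_static (E HP Face len L Irr Adj Frame area Stmt_FR1 Stmt_FR2 Stmt_LEN
  Stmt_FILL NinePairs Stmt_ADJ Stmt_IRR)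
open Pool.Agent.Work.MP_3892ce_gt (IsArchPrism zeta1)

/-- relative area of the facets which are not named -/
noncomputable def tail {ι : Type} [Fintype ι] [DecidableEq ι] (n : ι → E 3) (b : ι → ℝ)
    (U : ι → (E 2 →ₗᵢ[ℝ] E 3)) {k : ℕ} (m : Fin k → ι) : ℝ :=
  ∑ a : {a : ι // a ∉ Set.range m}, al n b U a.1

/-- sharp corner of the facets `t, i, j` -/
def Sharp {ι : Type} (n : ι → E 3) (U : ι → (E 2 →ₗᵢ[ℝ] E 3)) (t i j : ι) : Prop :=
  ∃ α β γ : ℝ, 0 ≤ α ∧ 0 ≤ β ∧ 0 ≤ γ ∧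
    ‖β • Pool.Agent.Work.MP_3892ce_static.nu n U t i +
      γ • Pool.Agent.Work.MP_3892ce_static.nu n U t j‖ +
    ‖α • Pool.Agent.Work.MP_3892ce_static.nu n U i j +
      β • Pool.Agent.Work.MP_3892ce_static.nu n U i t‖ +
    ‖α • Pool.Agent.Work.MP_3892ce_static.nu n U j i +
      γ • Pool.Agent.Work.MP_3892ce_static.nu n U j t‖ < α + β + γ

/-- `A1`: nine pairs, the other facets have relative area at least `τ` -/
def Stmt_A1 (τ : ℝ) : Prop :=
  ∀ (ι : Type) [Fintype ι] [DecidableEq ι] (n : ι → E 3) (b : ι → ℝ)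
    (U : ι → (E 2 →ₗᵢ[ℝ] E 3)), (∀ i, Frame (n i) (U i)) → Irr n b →
    ∀ m : Fin 5 → ι, Largest n b U m → NinePairs n b m → τ ≤ tail n b U m →
      1684 * (volume (HP n b)).toReal ≤ L n b ^ 3

/-- `A2`: nine pairs, bounded, the other facets have relative area at most `τ`, and the corner
`3, 0, 1` is sharp -/
def Stmt_A2 (τ : ℝ) : Prop :=
  ∀ (ι : Type) [Fintype ι] [DecidableEq ι] (n : ι → E 3) (b : ι → ℝ)
    (U : ι → (E 2 →ₗᵢ[ℝ] E 3)), (∀ i, Frame (n i) (U i)) → Irr n b → 5 < Fintype.card ι →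
    ∀ m : Fin 5 → ι, Largest n b U m → NinePairs n b m →
      Bornology.IsBounded (HP (fun k => n (m k)) (fun k => b (m k))) → tail n b U m ≤ τ →
      Sharp n U (m 3) (m 0) (m 1) →
      1684 * (volume (HP n b)).toReal ≤ L n b ^ 3

theorem tail_eq {ι : Type} [Fintype ι] [DecidableEq ι] {n : ι → E 3} {b : ι → ℝ}
    {U : ι → (E 2 →ₗᵢ[ℝ] E 3)} (hU : ∀ i, Frame (n i) (U i)) (hI : Irr n b) {k : ℕ}
    (m : Fin k → ι) : ∑ i with i ∉ Set.range m, area (HP n b) (n i) (U i) (b i) =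
      tail n b U m * SS n b U := by
  classical
  unfold tail
  rw [Finset.sum_mul]
  have h1 : ∑ a : {a : ι // a ∉ Set.range m}, al n b U a.1 * SS n b U =
      ∑ a : {a : ι // a ∉ Set.range m}, area (HP n b) (n a.1) (U a.1) (b a.1) := by
    refine Finset.sum_congr rfl fun a _ => ?_
    unfold al
    rw [div_mul_cancel₀ _ (SS_pos hU hI).ne']
  rw [h1]
  exact Finset.sum_subtype _ (fun x => by simp) _

theorem stmt_UNBC {τ : ℝ} (hτ : τ ≤ 1 / 160) (hA1 : Stmt_A1 τ) : Stmt_UNBC 1684 := by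
  intro ι _ _ n b U hU hI m hL hN hB
  by_cases h : τ ≤ tail n b U m
  · exact hA1 ι n b U hU hI m hL hN h
  · refine Pool.Agent.Work.MP_3892ce_static.unbounded_bound' Closed.UNB Closed.TWO
      Closed.CLOSE ι n b U hU hI m hB ?_
    rw [tail_eq hU hI]
    have hS := SS_pos hU hI
    have : tail n b U m ≤ 1 / 160 := by linarith
    change 160 * (tail n b U m * SS n b U) ≤ SS n b U
    nlinarith

/-- relabelling -/
theorem relabel {ι : Type} [Fintype ι] [DecidableEq ι] {n : ι → E 3} {b : ι → ℝ}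
    {U : ι → (E 2 →ₗᵢ[ℝ] E 3)} {m : Fin 5 → ι} (hL : Largest n b U m) (hN : NinePairs n b m)
    (hB : Bornology.IsBounded (HP (fun k => n (m k)) (fun k => b (m k))))
    (σ : Equiv.Perm (Fin 5)) (hσ : ∀ i, i ≤ 2 → σ i ≤ 2) :
    Largest n b U (fun k => m (σ k)) ∧ NinePairs n b (fun k => m (σ k)) ∧
      Bornology.IsBounded (HP (fun k => n (m (σ k))) (fun k => b (m (σ k)))) ∧
      tail n b U (fun k => m (σ k)) = tail n b U m := by
  have hr : Set.range (fun k => m (σ k)) = Set.range m := by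
    have : (fun k => m (σ k)) = m ∘ σ := rfl
    rw [this]
    exact σ.surjective.range_comp m
  refine ⟨⟨hL.1.comp σ.injective, fun k hk i => ?_⟩, ?_, ?_, ?_⟩
  · rw [hr] at hk
    exact hL.2 k hk _
  · intro i j hij h34
    have hne : σ i ≠ σ j := fun h => hij.ne (σ.injective h)
    have hsur : ∀ k : Fin 5, ¬ (k ≤ 2) → ¬ (σ k ≤ 2) := by
      -- `σ` maps `{0, 1, 2}` onto itself
      intro k hk hk'
      have hcard : (Finset.univ.filter (fun i : Fin 5 => i ≤ 2)).image σ =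
          Finset.univ.filter (fun i : Fin 5 => i ≤ 2) := by
        refine Finset.eq_of_subset_of_card_le ?_ ?_
        · intro x hx
          obtain ⟨y, hy, rfl⟩ := Finset.mem_image.1 hx
          exact Finset.mem_filter.2 ⟨Finset.mem_univ _, hσ y (Finset.mem_filter.1 hy).2⟩
        · rw [Finset.card_image_of_injective _ σ.injective]
      have h1 : σ k ∈ (Finset.univ.filter (fun i : Fin 5 => i ≤ 2)).image σ := by
        rw [hcard]
        exact Finset.mem_filter.2 ⟨Finset.mem_univ _, hk'⟩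
      obtain ⟨y, hy, hyk⟩ := Finset.mem_image.1 h1
      exact hk (σ.injective hyk ▸ (Finset.mem_filter.1 hy).2)
    have hnot : ∀ p q : Fin 5, (p = 3 ∧ q = 4) → (¬ p ≤ 2 ∧ ¬ q ≤ 2) := by decide
    rcases lt_or_gt_of_ne hne with h | h
    · refine hN _ _ h fun h' => ?_
      obtain ⟨g1, g2⟩ := hnot _ _ h'
      have a1 : ¬ i ≤ 2 := fun h => g1 (hσ i h)
      have a2 : ¬ j ≤ 2 := fun h => g2 (hσ j h)
      have : ∀ i j : Fin 5, i < j → ¬ i ≤ 2 → ¬ j ≤ 2 → i = 3 ∧ j = 4 := by decide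
      exact h34 (this i j hij a1 a2)
    · obtain ⟨e1, x, e2, e3, e4⟩ := hN _ _ h fun h' => by
        obtain ⟨g1, g2⟩ := hnot _ _ h'
        have a1 : ¬ j ≤ 2 := fun h => g1 (hσ j h)
        have a2 : ¬ i ≤ 2 := fun h => g2 (hσ i h)
        have : ∀ i j : Fin 5, i < j → ¬ i ≤ 2 → ¬ j ≤ 2 → i = 3 ∧ j = 4 := by decide
        exact h34 (this i j hij a2 a1)
      exact ⟨e1.symm, x, e3, e2, fun k hk hk' => e4 k hk' hk⟩
  · have h := HP_comp (fun k => n (m k)) (fun k => b (m k)) σ.surjective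
    rw [h]
    exact hB
  · unfold tail
    have hiff : ∀ a, a ∉ Set.range (fun k => m (σ k)) ↔ a ∉ Set.range m := by
      intro a
      rw [hr]
    exact Fintype.sum_equiv (Equiv.subtypeEquivRight hiff) _ _ fun a => rfl

theorem exists_perm : ∀ t i j : Fin 5, (t = 3 ∨ t = 4) → i < j → j ≤ 2 →
    ∃ σ : Equiv.Perm (Fin 5), (∀ k, k ≤ 2 → σ k ≤ 2) ∧ σ 3 = t ∧ σ 0 = i ∧ σ 1 = j := by
  have key : ∀ t i j : Fin 5, (t = 3 ∨ t = 4) → i < j → j ≤ 2 →
      ∃ f g : Fin 5 → Fin 5, (∀ k, g (f k) = k) ∧ (∀ k, f (g k) = k) ∧ (∀ k, k ≤ 2 → f k ≤ 2) ∧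
        f 3 = t ∧ f 0 = i ∧ f 1 = j := by
    intro t i j ht hij hj
    have hi : ∀ i j : Fin 5, i < j → j ≤ 2 → (i = 0 ∧ j = 1) ∨ (i = 0 ∧ j = 2) ∨
        (i = 1 ∧ j = 2) := by decide
    rcases ht with rfl | rfl
    · rcases hi i j hij hj with ⟨rfl, rfl⟩ | ⟨rfl, rfl⟩ | ⟨rfl, rfl⟩
      · exact ⟨![0, 1, 2, 3, 4], ![0, 1, 2, 3, 4], by decide, by decide, by decide, rfl, rfl, rfl⟩
      · exact ⟨![0, 2, 1, 3, 4], ![0, 2, 1, 3, 4], by decide, by decide, by decide, rfl, rfl, rfl⟩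
      · exact ⟨![1, 2, 0, 3, 4], ![2, 0, 1, 3, 4], by decide, by decide, by decide, rfl, rfl, rfl⟩
    · rcases hi i j hij hj with ⟨rfl, rfl⟩ | ⟨rfl, rfl⟩ | ⟨rfl, rfl⟩
      · exact ⟨![0, 1, 2, 4, 3], ![0, 1, 2, 4, 3], by decide, by decide, by decide, rfl, rfl, rfl⟩
      · exact ⟨![0, 2, 1, 4, 3], ![0, 2, 1, 4, 3], by decide, by decide, by decide, rfl, rfl, rfl⟩
      · exact ⟨![1, 2, 0, 4, 3], ![2, 0, 1, 4, 3], by decide, by decide, by decide, rfl, rfl, rfl⟩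
  intro t i j ht hij hj
  obtain ⟨f, g, h1, h2, h3, h4, h5, h6⟩ := key t i j ht hij hj
  exact ⟨⟨f, g, h1, h2⟩, h3, h4, h5, h6⟩

theorem stmt_SHARP {τ : ℝ} (hA1 : Stmt_A1 τ) (hA2 : Stmt_A2 τ) : Stmt_SHARP 1684 := by
  intro ι _ _ n b U hU hI h5 m hL hN hB ⟨t, i, j, ht, hij, hj, hsh⟩
  by_cases h : τ ≤ tail n b U m
  · exact hA1 ι n b U hU hI m hL hN h
  · obtain ⟨σ, s1, s2, s3, s4⟩ := exists_perm t i j ht hij hj
    obtain ⟨r1, r2, r3, r4⟩ := relabel hL hN hB σ s1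
    refine hA2 ι n b U hU hI h5 (fun k => m (σ k)) r1 r2 r3 (by rw [r4]; linarith) ?_
    simp only [s2, s3, s4]
    exact hsh

/-- Melzak's conjecture from the last three static statements -/
theorem full10 {τ : ℝ} (hτ : τ ≤ 1 / 160) (hS2 : Stmt_S2 1684) (hA1 : Stmt_A1 τ)
    (hA2 : Stmt_A2 τ) {K : Set (E 3)} (hKc : IsCompact K) (hK : Convex ℝ K)
    (hint : (interior K).Nonempty) :
    ENNReal.ofReal (972 * √3) * volume K ≤ zetaLim K ^ 3 ∧
    (ENNReal.ofReal (972 * √3) * volume K = zetaLim K ^ 3 ↔ IsArchPrism K) := by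
  have hc : 972 * √3 < (1684 : ℝ) := by
    have h3 : √3 < 1.7321 := by
      rw [Real.sqrt_lt' (by norm_num)]
      norm_num
    linarith
  exact full9 Pool.Agent.Work.MP_3892ce_static.blk_FR1 Closed.FILL
    Pool.Agent.Work.MP_3892ce_static.blk_ADJ Pool.Agent.Work.MP_3892ce_static.blk_IRR hc hS2
    (stmt_UNBC hτ hA1) (stmt_SHARP hA1 hA2) hKc hK hint

end Pool.Agent.Work.MP_3892ce_str
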