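import Pool.Agent.Work.MP_3892ce_static.VOL
import Pool.Agent.Work.MP_3892ce_static.CLOSE
import Pool.Agent.Work.MP_3892ce_static.FR2
import Pool.Agent.Work.MP_3892ce_static.FR1
import Pool.Agent.Work.MP_3892ce_static.LEN
import Pool.Agent.Work.MP_3892ce_static.MINK
import Pool.Agent.Work.MP_3892ce_static.STAT

/-! # Closing relations in all dimensions and in the facets of a polytope in space (helper15) -/

set_option autoImplicit false

open MeasureTheory Set
open scoped ENNReal Pointwise

namespace Pool.Agent.Work.MP_3892ce_str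

open Pool.Agent.Work.MP_3892ce_static

/-- different cones meet in a null set -/
theorem null_gen {d : ℕ} {ι : Type} {n : ι → E d} {b : ι → ℝ} (hu : ∀ i, ‖n i‖ = 1)
    (hb : ∀ i, 0 < b i) {i j : ι} (hij : n i = n j → b i ≠ b j) :
    volume (VOL.Cn (HP n b) (n i) (b i) ∩ VOL.Cn (HP n b) (n j) (b j)) = 0 := by
  set v : E d := b i • n j - b j • n i with hv
  have hv0 : v ≠ 0 := by
    intro h
    have h1 : b i • n j = b j • n i := sub_eq_zero.1 h
    have h2 : ‖b i • n j‖ = ‖b j • n i‖ := by rw [h1]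
    rw [norm_smul, norm_smul, hu, hu, Real.norm_eq_abs, Real.norm_eq_abs,
      abs_of_pos (hb i), abs_of_pos (hb j), mul_one, mul_one] at h2
    rw [h2] at h1
    have h3 : n j = n i := smul_right_injective _ (hb j).ne' h1
    exact hij h3.symm h2
  set K : Submodule ℝ (E d) := LinearMap.ker ((innerSL ℝ v).toLinearMap) with hK
  have hKtop : K ≠ ⊤ := by
    intro h
    have h1 : v ∈ K := by rw [h]; trivial
    rw [hK, LinearMap.mem_ker] at h1
    have h2 : inner ℝ v v = 0 := h1
    exact hv0 (inner_self_eq_zero.1 h2)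
  refine measure_mono_null ?_ (Measure.addHaar_submodule volume K hKtop)
  rintro x ⟨⟨⟨h1, _⟩, h2⟩, ⟨⟨h3, _⟩, h4⟩⟩
  have h5 := h2 j
  have h6 := h4 i
  rw [inner_smul_right, div_mul_eq_mul_div, div_le_iff₀ h1] at h5
  rw [inner_smul_right, div_mul_eq_mul_div, div_le_iff₀ h3] at h6
  have h7 : inner ℝ v x = 0 := by
    rw [hv, inner_sub_left, real_inner_smul_left, real_inner_smul_left]
    linarith
  exact h7

/-- volume as a sum of cones -/
theorem vol_gen (hFR2 : Stmt_FR2) {k : ℕ} {ι : Type} [Fintype ι] {n : ι → E (k + 1)} {b : ι → ℝ}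
    {U : ι → (E k →ₗᵢ[ℝ] E (k + 1))} (hU : ∀ i, Frame (n i) (U i))
    (hd : ∀ i j, i ≠ j → n i = n j → b i ≠ b j)
    (hB : Bornology.IsBounded (HP n b)) (hb : ∀ i, 0 < b i) :
    (volume (HP n b)).toReal = (1 / ((k : ℝ) + 1)) *
      ∑ i, area (HP n b) (n i) (U i) (b i) * b i := by
  classical
  have hd : Pairwise (Function.onFun (AEDisjoint (volume : Measure (E (k + 1))))
      (fun i => VOL.Cn (HP n b) (n i) (b i))) := fun i j hij =>
    null_gen (fun i => (hU i).unit) hb (hd i j hij)
  have hm : ∀ i, NullMeasurableSet (VOL.Cn (HP n b) (n i) (b i)) volume :=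
    fun i => (VOL.meas_Cn (VOL.closed_HP n b) (n i) (b i)).nullMeasurableSet
  have h1 : volume (HP n b) = ∑ i, volume (VOL.Cn (HP n b) (n i) (b i)) := by
    have h2 : volume (⋃ i, VOL.Cn (HP n b) (n i) (b i)) =
        ∑ i, volume (VOL.Cn (HP n b) (n i) (b i)) := by
      rw [measure_iUnion₀ hd hm, tsum_fintype]
    rw [← h2]
    refine le_antisymm ?_ (measure_mono (iUnion_subset fun i => VOL.Cn_sub hb i))
    calc volume (HP n b) ≤ volume ((⋃ i, VOL.Cn (HP n b) (n i) (b i)) ∪ {0}) :=
          measure_mono (VOL.cover hb hB)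
      _ ≤ volume (⋃ i, VOL.Cn (HP n b) (n i) (b i)) + volume ({0} : Set (E (k + 1))) :=
          measure_union_le _ _
      _ = volume (⋃ i, VOL.Cn (HP n b) (n i) (b i)) := by rw [measure_singleton, add_zero]
  have hfin : volume (HP n b) ≠ ∞ := hB.measure_lt_top.ne
  have hfin' : ∀ i, volume (VOL.Cn (HP n b) (n i) (b i)) ≠ ∞ :=
    fun i => ne_top_of_le_ne_top hfin (measure_mono (VOL.Cn_sub hb i))
  rw [h1, ENNReal.toReal_sum (fun i _ => hfin' i), Finset.mul_sum]
  refine Finset.sum_congr rfl fun i _ => ?_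
  rw [VOL.vol_Cn hFR2 (VOL.closed_HP n b) (hU i) (hb i), ENNReal.toReal_mul,
    ENNReal.toReal_ofReal (by have := hb i; positivity)]
  unfold area
  ring

theorem bdd_trans {d : ℕ} {ι : Type} {n : ι → E d} {b : ι → ℝ}
    (hB : Bornology.IsBounded (HP n b)) (v : E d) :
    Bornology.IsBounded (HP n (fun i => b i - inner ℝ (n i) v)) := by
  rw [CLOSE.HP_trans]
  have e : (fun x => x + v) ⁻¹' (HP n b) = (fun x => x - v) '' (HP n b) := by
    ext x
    constructor
    · intro h
      exact ⟨x + v, h, by simp⟩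
    · rintro ⟨y, hy, rfl⟩
      simpa using hy
  rw [e]
  have h1 : LipschitzWith 1 (fun x : E d => x - v) := by
    refine LipschitzWith.of_dist_le_mul fun x y => ?_
    rw [dist_sub_right]
    simp
  exact h1.isBounded_image hB

/-- the closing relation in all dimensions -/
theorem close_gen (hFR2 : Stmt_FR2) {k : ℕ} {ι : Type} [Fintype ι] {n : ι → E (k + 1)}
    {b : ι → ℝ} {U : ι → (E k →ₗᵢ[ℝ] E (k + 1))} (hU : ∀ i, Frame (n i) (U i))
    (hd : ∀ i j, i ≠ j → n i = n j → b i ≠ b j)
    (hB : Bornology.IsBounded (HP n b)) (hint : ∃ x, ∀ i, inner ℝ (n i) x < b i) :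
    ∑ i, area (HP n b) (n i) (U i) (b i) • n i = 0 := by
  have key : ∀ v : E (k + 1), (∀ i, inner ℝ (n i) v < b i) →
      (volume (HP n b)).toReal = (1 / ((k : ℝ) + 1)) *
        ∑ i, area (HP n b) (n i) (U i) (b i) * b i
        - (1 / ((k : ℝ) + 1)) * inner ℝ (∑ i, area (HP n b) (n i) (U i) (b i) • n i) v := by
    intro v hv
    have h1 := vol_gen hFR2 (n := n) (b := fun i => b i - inner ℝ (n i) v) hU
      (by
        intro i j hij h
        have h2 := hd i j hij h
        intro h3
        apply h2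
        rw [h] at h3
        linarith)
      (bdd_trans hB v) (fun i => by have := hv i; linarith)
    rw [CLOSE.HP_trans, measure_preimage_add_right] at h1
    rw [h1, sum_inner]
    rw [← mul_sub, ← Finset.sum_sub_distrib]
    congr 1
    refine Finset.sum_congr rfl fun i _ => ?_
    rw [← CLOSE.HP_trans, CLOSE.area_trans n b v (hU i), real_inner_smul_left]
    ring
  obtain ⟨v0, hv0⟩ := hint
  set S := ∑ i, area (HP n b) (n i) (U i) (b i) • n i with hS
  have hopen : IsOpen {x : E (k + 1) | ∀ i, inner ℝ (n i) x < b i} := by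
    have : {x : E (k + 1) | ∀ i, inner ℝ (n i) x < b i} = ⋂ i, {x | inner ℝ (n i) x < b i} := by
      ext x; simp
    rw [this]
    exact isOpen_iInter_of_finite fun i => isOpen_lt (by fun_prop) continuous_const
  have hcont : Continuous (fun t : ℝ => v0 + t • S) := by fun_prop
  have h1 : {t : ℝ | v0 + t • S ∈ {x : E (k + 1) | ∀ i, inner ℝ (n i) x < b i}} ∈
      nhds (0 : ℝ) := by
    refine hcont.continuousAt.preimage_mem_nhds (hopen.mem_nhds ?_)
    simpa using hv0
  obtain ⟨ε, hε, hball⟩ := Metric.mem_nhds_iff.1 h1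
  have h2 : ∀ i, inner ℝ (n i) (v0 + (ε / 2) • S) < b i := by
    have : (ε / 2) ∈ Metric.ball (0 : ℝ) ε := by
      rw [Metric.mem_ball, dist_zero_right, Real.norm_eq_abs, abs_of_pos (by positivity)]
      linarith
    exact hball this
  have h3 := key v0 hv0
  have h4 := key _ h2
  rw [inner_add_right, inner_smul_right] at h4
  have hk : (0 : ℝ) < 1 / ((k : ℝ) + 1) := by positivity
  have h5 : (1 / ((k : ℝ) + 1)) * (ε / 2 * inner ℝ S S) = 0 := by linarith
  have h6 : inner ℝ S S = 0 := by
    rcases mul_eq_zero.1 h5 with h | h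
    · exact absurd h hk.ne'
    rcases mul_eq_zero.1 h with h | h
    · linarith
    · exact h
  exact inner_self_eq_zero.1 h6

/-! ### in the facets -/

/-- projection of `n j` to the plane of the facet `i` -/
noncomputable def wv {ι : Type} (n : ι → E 3) (i j : ι) : E 3 := n j - inner ℝ (n i) (n j) • n i

/-- unit normal, in the plane of the facet `i`, of the edge between `i` and `j` -/
noncomputable def nu {ι : Type} (n : ι → E 3) (i j : ι) : E 3 := (‖wv n i j‖)⁻¹ • wv n i j

/-- the projection in coordinates -/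
theorem U_pr {k : ℕ} {n : E (k + 1)} {U : E k →ₗᵢ[ℝ] E (k + 1)} (hF : Frame n U)
    (m : E (k + 1)) : U (STAT.pr U m) = m - inner ℝ n m • n := by
  obtain ⟨y, hy⟩ := STAT.onto hF m
  have h1 : STAT.pr U m = y := by
    have h2 : ∀ z, inner ℝ (STAT.pr U m) z = inner ℝ y z := by
      intro z
      rw [STAT.pr_inner, hy, inner_add_left, real_inner_smul_left, hF.orth, mul_zero, zero_add]
      exact U.inner_map_map y z
    exact ext_inner_right ℝ h2
  rw [h1]
  nth_rw 1 [hy]
  abel

/-- three facet planes of an irredundant polytope do not meet in a line where two of them have a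
common edge; here: the lines of the facets `j`, `k` in the plane of the facet `i` are different -/
theorem line_ne {ι : Type} {n : ι → E 3} {b : ι → ℝ} (hI : Irr n b) {i j k : ι} (hij : j ≠ i)
    (hik : k ≠ i) (hjk : j ≠ k) (hw : wv n i j ≠ 0)
    (h1 : (‖wv n i j‖)⁻¹ • wv n i j = (‖wv n i k‖)⁻¹ • wv n i k)
    (h2 : (‖wv n i j‖)⁻¹ * (b j - b i * inner ℝ (n i) (n j)) =
      (‖wv n i k‖)⁻¹ * (b k - b i * inner ℝ (n i) (n k))) : False := by
  have hp : 0 < ‖wv n i j‖ := norm_pos_iff.2 hw
  have hwk : wv n i k ≠ 0 := by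
    intro h
    rw [h, norm_zero, inv_zero, zero_smul, smul_eq_zero] at h1
    rcases h1 with h1 | h1
    · exact (inv_pos.2 hp).ne' h1
    · exact hw h1
  have hpk : 0 < ‖wv n i k‖ := norm_pos_iff.2 hwk
  set p := ‖wv n i j‖ with hpd
  set q := ‖wv n i k‖ with hqd
  -- `q * slack j - p * slack k` is a multiple of `slack i`
  have e1 : q • wv n i j = p • wv n i k := by
    have h3 : (p * q) • ((p)⁻¹ • wv n i j) = (p * q) • ((q)⁻¹ • wv n i k) := by rw [h1]
    rw [smul_smul, smul_smul] at h3
    have h4 : p * q * p⁻¹ = q := by field_simp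
    have h5 : p * q * q⁻¹ = p := by field_simp
    rw [h4, h5] at h3
    exact h3
  have e2 : q * (b j - b i * inner ℝ (n i) (n j)) = p * (b k - b i * inner ℝ (n i) (n k)) := by
    have h3 : (p * q) * ((p)⁻¹ * (b j - b i * inner ℝ (n i) (n j))) =
      (p * q) * ((q)⁻¹ * (b k - b i * inner ℝ (n i) (n k))) := by rw [h2]
    have h4 : p * q * p⁻¹ = q := by field_simp
    have h5 : p * q * q⁻¹ = p := by field_simp
    rw [← mul_assoc, ← mul_assoc, h4, h5] at h3
    exact h3
  set t := q * inner ℝ (n i) (n j) - p * inner ℝ (n i) (n k) with ht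
  have key : ∀ x : E 3, q * (b j - inner ℝ (n j) x) - p * (b k - inner ℝ (n k) x) =
      t * (b i - inner ℝ (n i) x) := by
    intro x
    have h3 : inner ℝ (q • wv n i j) x = inner ℝ (p • wv n i k) x := by rw [e1]
    unfold wv at h3
    rw [real_inner_smul_left, real_inner_smul_left, inner_sub_left, inner_sub_left,
      real_inner_smul_left, real_inner_smul_left] at h3
    rw [ht]
    linear_combination e2 - h3
  obtain ⟨x0, hx0⟩ := hI.int
  obtain ⟨xj, hxj, hxj'⟩ := hI.wit j
  obtain ⟨xk, hxk, hxk'⟩ := hI.wit k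
  have k1 := key xj
  have k2 := key xk
  have a1 := hxj' k hjk.symm
  have a2 := hxj' i hij.symm
  have a3 := hxk' j hjk
  have a4 := hxk' i hik.symm
  rw [hxj, sub_self, mul_zero] at k1
  rw [hxk, sub_self, mul_zero] at k2
  have c1 : t * (b i - inner ℝ (n i) xj) < 0 := by
    rw [← k1]
    have := mul_pos hpk (sub_pos.2 a1)
    have := mul_pos hp (sub_pos.2 a1)
    linarith
  have c2 : 0 < t * (b i - inner ℝ (n i) xk) := by
    rw [← k2]
    have := mul_pos hpk (sub_pos.2 a3)
    linarith
  have d1 : t < 0 := by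
    by_contra h
    have := mul_nonneg (not_lt.1 h) (sub_pos.2 a2).le
    linarith
  have d2 : 0 < t := by
    by_contra h
    have := mul_nonpos_of_nonpos_of_nonneg (not_lt.1 h) (sub_pos.2 a4).le
    linarith
  linarith

end Pool.Agent.Work.MP_3892ce_str
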