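import Pool.Agent.Work.MP_3892ce_static.ADJ
import Pool.Agent.Work.MP_3892ce_static.AR1
import Pool.Agent.Work.MP_3892ce_static.BDD
import Pool.Agent.Work.MP_3892ce_static.BM
import Pool.Agent.Work.MP_3892ce_static.CAP
import Pool.Agent.Work.MP_3892ce_static.CLOSE
import Pool.Agent.Work.MP_3892ce_static.CONE
import Pool.Agent.Work.MP_3892ce_static.FR1
import Pool.Agent.Work.MP_3892ce_static.FR2
import Pool.Agent.Work.MP_3892ce_static.IRR
import Pool.Agent.Work.MP_3892ce_static.ISO
import Pool.Agent.Work.MP_3892ce_static.LEN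
import Pool.Agent.Work.MP_3892ce_static.MINK
import Pool.Agent.Work.MP_3892ce_static.PL1
import Pool.Agent.Work.MP_3892ce_static.PLN
import Pool.Agent.Work.MP_3892ce_static.POS
import Pool.Agent.Work.MP_3892ce_static.SEG
import Pool.Agent.Work.MP_3892ce_static.STAT
import Pool.Agent.Work.MP_3892ce_static.STATN
import Pool.Agent.Work.MP_3892ce_static.TWO
import Pool.Agent.Work.MP_3892ce_static.UNB
import Pool.Agent.Work.MP_3892ce_static.VOL
import Pool.Agent.Work.MP_3892ce_static.ZETA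
import Pool.Agent.Work.MP_3892ce_static.FILL

/-! # The geometry blocks of the static method without hypotheses (helper15) -/

set_option autoImplicit false

namespace Pool.Agent.Work.MP_3892ce_str.Closed

open Pool.Agent.Work.MP_3892ce_static

theorem PLN : Stmt_PLN := blk_PLN blk_PL1
theorem BM : Stmt_BM := blk_BM PLN
theorem CONE : Stmt_CONE := blk_CONE blk_FR2
theorem MINK : Stmt_MINK := blk_MINK BM CONE blk_BDD
theorem VOL : Stmt_VOL := blk_VOL blk_FR2
theorem CLOSE : Stmt_CLOSE := blk_CLOSE VOL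
theorem CAP : Stmt_CAP := blk_CAP blk_FR1 blk_FR2
theorem ISO : Stmt_ISO := blk_ISO MINK CAP CLOSE blk_POS
theorem SEG : Stmt_SEG := blk_SEG blk_FR1 blk_FR2
theorem STAT : Stmt_STAT := blk_STAT MINK blk_LEN blk_FR1
theorem TWO : Stmt_TWO := blk_TWO STAT SEG
theorem AR1 : Stmt_AR1 := blk_AR1 blk_FR1 blk_FR2
theorem STATN : Stmt_STATN := blk_STATN MINK blk_LEN blk_FR1 blk_FR2 blk_ADJ
theorem UNB : Stmt_UNB := blk_UNB MINK blk_POS blk_FR1 blk_FR2
theorem ZETA : Stmt_ZETA := blk_ZETA blk_ADJ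
theorem FILL : Stmt_FILL := blk_FILL STATN

end Pool.Agent.Work.MP_3892ce_str.Closed
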