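import Pool.Agent.Work.MP_3892ce_str.Ext

/-! # Melzak's inequality for limits of polytopes, the case of equality (helper15) -/

set_option autoImplicit false

open MeasureTheory Set
open scoped ENNReal Pointwise

namespace Pool.Agent.Work.MP_3892ce_str

open Pool.Agent.Work.MP_3892ce_static
open Pool.Agent.Work.MP_3892ce_gt (IsEdge zeta1 Cert IsArchPrism prS det3 pla vol6 Lsum E3)

theorem ext_ineq (hADJ : Stmt_ADJ) (hIRR : Stmt_IRR) {c : ℝ} (hc : 972 * √3 < c)
    (hCORE : Stmt_CORE c)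
    {K : Set (E 3)} (hKc : IsCompact K) (hK : Convex ℝ K) (hint : (interior K).Nonempty) :
    ENNReal.ofReal (972 * √3) * volume K ≤ zetaLim K ^ 3 := by
  apply EXT.cube_root'
  unfold zetaLim
  refine le_iInf fun P => le_iInf fun hP => le_iInf fun hlim => ?_
  apply EXT.cube_root
  refine blk_EXT (ENNReal.ofReal (972 * √3)) ?_ K P hKc hK hint ?_ hlim
  · intro m n b hB hI
    exact (poly hADJ hIRR hc hCORE (Fin m) n b hB hI).1
  · intro j
    obtain ⟨h1, h2, m, n, b, h3⟩ := hP j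
    rw [h3] at h1 h2
    exact ⟨m, n, b, h1, h2, h3⟩

theorem near {K : Set (E 3)} {z : ℝ≥0∞} (hz : zetaLim K < z) {ε : ℝ} (hε : 0 < ε) :
    ∃ P, IsPoly P ∧ Metric.hausdorffDist P K < ε ∧ zeta1 P < z := by
  unfold zetaLim at hz
  simp only [iInf_lt_iff] at hz
  obtain ⟨P, hP, hlim, h⟩ := hz
  have h1 : ∃ᶠ j in Filter.atTop, zeta1 (P j) < z := Filter.frequently_lt_of_liminf_lt
    (by isBoundedDefault) h
  have h2 : ∀ᶠ j in Filter.atTop, Metric.hausdorffDist (P j) K < ε :=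
    hlim.eventually (gt_mem_nhds hε)
  obtain ⟨j, h3, h4⟩ := (h1.and_eventually h2).exists
  exact ⟨P j, hP j, h4, h3⟩

/-- approximation by six points -/
theorem approx (hADJ : Stmt_ADJ) (hIRR : Stmt_IRR) {c : ℝ} (hc : 972 * √3 < c)
    (hCORE : Stmt_CORE c)
    {K : Set (E 3)} (hKc : IsCompact K) (hK : Convex ℝ K) (hint : (interior K).Nonempty)
    {V z : ℝ} (hV : volume K = ENNReal.ofReal V) (hV0 : 0 < V)
    (hz : zetaLim K = ENNReal.ofReal z) (hz0 : 0 ≤ z) (hzV : z ^ 3 ≤ 972 * √3 * V)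
    {η : ℝ} (hη : 0 < η) :
    ∃ A B : Fin 3 → E3, (pla A B 0 1 = 0 ∧ pla A B 1 2 = 0 ∧ pla A B 0 2 = 0) ∧
      Lsum A B ≤ z + η ∧ V - η ≤ |vol6 A B| / 6 ∧
      ∀ x ∈ K, ∃ p ∈ convexHull ℝ (Set.range A ∪ Set.range B), dist x p ≤ η := by
  have hc0 : 0 < c := kappa_pos.trans hc
  obtain ⟨x0, hx0⟩ := hint
  obtain ⟨r0, hr0, hball0⟩ := Metric.isOpen_iff.1 isOpen_interior x0 hx0
  have hball : Metric.closedBall x0 (r0 / 2) ⊆ K :=
    (Metric.closedBall_subset_ball (by linarith)).trans (hball0.trans interior_subset)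
  have hr : 0 < r0 / 2 := by linarith
  -- the factor
  obtain ⟨s, hs0, hs1, hsV, hsc⟩ : ∃ s : ℝ, 0 < s ∧ s < 1 ∧ V - η < s ^ 3 * V ∧
      972 * √3 < c * s ^ 3 := by
    have c1 : Filter.Tendsto (fun s : ℝ => s ^ 3 * V) (nhdsWithin 1 (Set.Iio 1)) (nhds V) := by
      have h2 : Continuous fun s : ℝ => s ^ 3 * V := by fun_prop
      have h3 := (h2.tendsto 1).mono_left (nhdsWithin_le_nhds (s := Set.Iio (1 : ℝ)))
      simpa using h3
    have c2 : Filter.Tendsto (fun s : ℝ => c * s ^ 3) (nhdsWithin 1 (Set.Iio 1)) (nhds c) := by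
      have h2 : Continuous fun s : ℝ => c * s ^ 3 := by fun_prop
      have h3 := (h2.tendsto 1).mono_left (nhdsWithin_le_nhds (s := Set.Iio (1 : ℝ)))
      simpa using h3
    have e1 := c1.eventually (lt_mem_nhds (by linarith : V - η < V))
    have e2 := c2.eventually (lt_mem_nhds hc)
    have e3 : ∀ᶠ s : ℝ in nhdsWithin 1 (Set.Iio 1), 0 < s :=
      (lt_mem_nhds one_pos).filter_mono nhdsWithin_le_nhds
    have e4 : ∀ᶠ s : ℝ in nhdsWithin 1 (Set.Iio 1), s < 1 := self_mem_nhdsWithin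
    obtain ⟨s, h1, h2, h3, h4⟩ := (e1.and (e2.and (e3.and e4))).exists
    exact ⟨s, h3, h4, h1, h2⟩
  have hlt0 : z ^ 3 < c * s ^ 3 * V := hzV.trans_lt (mul_lt_mul_of_pos_right hsc hV0)
  obtain ⟨δ, hδ0, hδη, hδ⟩ : ∃ δ : ℝ, 0 < δ ∧ δ < η ∧ (z + δ) ^ 3 < c * s ^ 3 * V := by
    have c1 : Filter.Tendsto (fun δ : ℝ => (z + δ) ^ 3) (nhdsWithin 0 (Set.Ioi 0))
        (nhds (z ^ 3)) := by
      have h2 : Continuous fun δ : ℝ => (z + δ) ^ 3 := by fun_prop
      have h3 := (h2.tendsto 0).mono_left (nhdsWithin_le_nhds (s := Set.Ioi (0 : ℝ)))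
      simpa using h3
    have e1 := c1.eventually (gt_mem_nhds hlt0)
    have e3 : ∀ᶠ δ : ℝ in nhdsWithin 0 (Set.Ioi 0), δ < η :=
      (gt_mem_nhds hη).filter_mono nhdsWithin_le_nhds
    have e4 : ∀ᶠ δ : ℝ in nhdsWithin 0 (Set.Ioi 0), 0 < δ := self_mem_nhdsWithin
    obtain ⟨δ, h1, h2, h3⟩ := (e1.and (e3.and e4)).exists
    exact ⟨δ, h3, h2, h1⟩
  have hzlt : zetaLim K < ENNReal.ofReal (z + δ) := by
    rw [hz]
    exact (ENNReal.ofReal_lt_ofReal_iff (by linarith)).2 (by linarith)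
  obtain ⟨P, ⟨hPB, hPI, m, n, b, hP⟩, hPd, hPz⟩ := near (K := K) hzlt
    (ε := min δ ((1 - s) * (r0 / 2))) (lt_min hδ0 (mul_pos (by linarith) hr))
  change P = HP n b at hP
  subst hP
  obtain ⟨k, n', b', hI, heq⟩ := hIRR (Fin m) n b hPB hPI
  have hPn : (HP n b).Nonempty := hPI.mono interior_subset
  have hL0 : 0 ≤ L n' b' := by
    unfold L
    have : 0 ≤ ∑ i, ∑ j, len n' b' i j :=
      Finset.sum_nonneg fun i _ => Finset.sum_nonneg fun j _ => len_nonneg _ _ i j
    linarith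
  have hzL : zeta1 (HP n b) = ENNReal.ofReal (L n' b') := by
    rw [← heq]
    exact le_antisymm (zeta1_le hI) (blk_ZETA hADJ (Fin k) n' b' hI)
  have hLz : L n' b' < z + δ := by
    rw [hzL] at hPz
    exact (ENNReal.ofReal_lt_ofReal_iff (by linarith)).1 hPz
  -- volume
  have hshr := EXT.shrink n b hr hs0.le hs1 hball hK hKc.isBounded hPB hPn
    (hPd.trans_le (min_le_right _ _))
  have hvol1 : ENNReal.ofReal (s ^ 3 * V) ≤ volume (HP n b) := by
    have h5 := Measure.addHaar_image_homothety (volume : Measure (E 3)) x0 s K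
    have h6 : Module.finrank ℝ (E 3) = 3 := by simp
    rw [h6] at h5
    have h7 : ENNReal.ofReal |s ^ 3| * volume K = ENNReal.ofReal (s ^ 3 * V) := by
      rw [hV, abs_of_pos (by positivity), ← ENNReal.ofReal_mul (by positivity)]
    rw [← h7, ← h5]
    exact measure_mono hshr
  have hfin : volume (HP n b) ≠ ∞ := hPB.measure_lt_top.ne
  have hvol2 : s ^ 3 * V ≤ (volume (HP n b)).toReal := by
    rw [← ENNReal.ofReal_le_iff_le_toReal hfin]
    exact hvol1
  have hlt : L n' b' ^ 3 < c * (volume (HP n' b')).toReal := by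
    rw [heq]
    calc L n' b' ^ 3 ≤ (z + δ) ^ 3 := pow_le_pow_left₀ hL0 hLz.le 3
      _ < c * s ^ 3 * V := hδ
      _ = c * (s ^ 3 * V) := by ring
      _ ≤ _ := mul_le_mul_of_nonneg_left hvol2 hc0.le
  obtain ⟨mm, aa, hB, hsub, hzQ⟩ := hCORE (Fin k) n' b' hI hlt
  rw [heq] at hsub
  have hintQ : (interior (HP mm aa)).Nonempty := hPI.mono (interior_mono hsub)
  obtain ⟨A, B, hCert⟩ := Pool.Agent.Work.MP_3892ce_gt.red (n := mm) (b := aa) hB hintQ
  refine ⟨A, B, ⟨hCert.p01, hCert.p12, hCert.p02⟩, ?_, ?_, ?_⟩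
  · have h1 := hCert.edg.trans hzQ
    rw [ENNReal.ofReal_le_ofReal_iff hL0] at h1
    linarith
  · have h1 : ENNReal.ofReal (s ^ 3 * V) ≤ ENNReal.ofReal (|vol6 A B| / 6) :=
      hvol1.trans ((measure_mono hsub).trans hCert.volume_le)
    rw [ENNReal.ofReal_le_ofReal_iff (by positivity)] at h1
    linarith
  · intro x hx
    have hfd : Metric.hausdorffEDist (HP n b) K ≠ ⊤ :=
      Metric.hausdorffEDist_ne_top_of_nonempty_of_bounded hPn ⟨x, hx⟩ hPB hKc.isBounded
    obtain ⟨p, hp, hdist⟩ := Metric.exists_dist_lt_of_hausdorffDist_lt' hx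
      (hPd.trans_le (min_le_left _ _)) hfd
    refine ⟨p, ?_, ?_⟩
    · have h1 := hsub hp
      have h2 : HP mm aa = convexHull ℝ (Set.range A ∪ Set.range B) := hCert.hull
      rw [h2] at h1
      exact h1
    · rw [dist_comm] at hdist
      linarith [hdist.le]

theorem dist_le_Lsum (A B : Fin 3 → E3) : ∀ x ∈ convexHull ℝ (Set.range A ∪ Set.range B),
    dist x (A 0) ≤ Lsum A B := by
  have h0 : ∀ a b : E3, 0 ≤ dist a b := fun _ _ => dist_nonneg
  intro x hx
  have h1 : convexHull ℝ (Set.range A ∪ Set.range B) ⊆ Metric.closedBall (A 0) (Lsum A B) := by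
    refine convexHull_min ?_ (convex_closedBall _ _)
    rintro _ (⟨i, rfl⟩ | ⟨i, rfl⟩)
    · rw [Metric.mem_closedBall]
      unfold Lsum
      fin_cases i
      · show dist (A 0) (A 0) ≤ _
        rw [dist_self]
        positivity
      · show dist (A 1) (A 0) ≤ _
        rw [dist_comm (A 1)]
        linarith [h0 (A 0) (A 2), h0 (A 1) (A 2), h0 (B 0) (B 1), h0 (B 0) (B 2), h0 (B 1) (B 2),
          h0 (A 0) (B 0), h0 (A 1) (B 1), h0 (A 2) (B 2)]
      · show dist (A 2) (A 0) ≤ _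
        rw [dist_comm (A 2)]
        linarith [h0 (A 0) (A 1), h0 (A 1) (A 2), h0 (B 0) (B 1), h0 (B 0) (B 2), h0 (B 1) (B 2),
          h0 (A 0) (B 0), h0 (A 1) (B 1), h0 (A 2) (B 2)]
    · rw [Metric.mem_closedBall]
      unfold Lsum
      fin_cases i
      · show dist (B 0) (A 0) ≤ _
        rw [dist_comm (B 0) (A 0)]
        linarith [h0 (A 0) (A 1), h0 (A 0) (A 2), h0 (A 1) (A 2), h0 (B 0) (B 1), h0 (B 0) (B 2),
          h0 (B 1) (B 2), h0 (A 1) (B 1), h0 (A 2) (B 2)]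
      · show dist (B 1) (A 0) ≤ _
        have := dist_triangle (A 0) (B 0) (B 1)
        rw [dist_comm (B 1) (A 0)]
        linarith [h0 (A 0) (A 1), h0 (A 0) (A 2), h0 (A 1) (A 2), h0 (B 0) (B 1), h0 (B 0) (B 2),
          h0 (B 1) (B 2), h0 (A 1) (B 1), h0 (A 2) (B 2)]
      · show dist (B 2) (A 0) ≤ _
        have := dist_triangle (A 0) (B 0) (B 2)
        rw [dist_comm (B 2) (A 0)]
        linarith [h0 (A 0) (A 1), h0 (A 0) (A 2), h0 (A 1) (A 2), h0 (B 0) (B 1), h0 (B 0) (B 2),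
          h0 (B 1) (B 2), h0 (A 1) (B 1), h0 (A 2) (B 2)]
  exact Metric.mem_closedBall.1 (h1 hx)

/-- limits of the six points -/
theorem limit (hADJ : Stmt_ADJ) (hIRR : Stmt_IRR) {c : ℝ} (hc : 972 * √3 < c)
    (hCORE : Stmt_CORE c)
    {K : Set (E 3)} (hKc : IsCompact K) (hK : Convex ℝ K) (hint : (interior K).Nonempty)
    {V z : ℝ} (hV : volume K = ENNReal.ofReal V) (hV0 : 0 < V)
    (hz : zetaLim K = ENNReal.ofReal z) (hz0 : 0 ≤ z) (hzV : z ^ 3 ≤ 972 * √3 * V) :
    ∃ A B : Fin 3 → E3, (pla A B 0 1 = 0 ∧ pla A B 1 2 = 0 ∧ pla A B 0 2 = 0) ∧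
      Lsum A B ≤ z ∧ V ≤ |vol6 A B| / 6 ∧ K ⊆ convexHull ℝ (Set.range A ∪ Set.range B) := by
  have happ := fun k : ℕ => approx hADJ hIRR hc hCORE hKc hK hint hV hV0 hz hz0
    hzV (η := 1 / ((k : ℝ) + 1)) (by positivity)
  choose A B hpl hL hvol hcov using happ
  obtain ⟨x0, hx0⟩ := hint.mono interior_subset
  have hk1 : ∀ k : ℕ, 1 / ((k : ℝ) + 1) ≤ 1 := by
    intro k
    rw [div_le_one (by positivity)]
    linarith [Nat.cast_nonneg (α := ℝ) k]
  have hbd : ∀ k, ∀ y ∈ convexHull ℝ (Set.range (A k) ∪ Set.range (B k)),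
      dist y x0 ≤ 1 + 2 * (z + 1) := by
    intro k y hy
    obtain ⟨p, hp, hd⟩ := hcov k x0 hx0
    have h1 := dist_le_Lsum _ _ y hy
    have h2 := dist_le_Lsum _ _ p hp
    have h3 := hL k
    have h4 := hk1 k
    have t1 := dist_triangle y (A k 0) x0
    have t2 := dist_triangle (A k 0) p x0
    rw [dist_comm (A k 0) p, dist_comm p x0] at t2
    linarith
  have hcomp : IsCompact ((Set.univ.pi fun _ : Fin 3 => Metric.closedBall x0 (1 + 2 * (z + 1))) ×ˢ
      (Set.univ.pi fun _ : Fin 3 => Metric.closedBall x0 (1 + 2 * (z + 1)))) :=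
    (isCompact_univ_pi fun _ => isCompact_closedBall _ _).prod
      (isCompact_univ_pi fun _ => isCompact_closedBall _ _)
  have hmem : ∀ k, (A k, B k) ∈
      ((Set.univ.pi fun _ : Fin 3 => Metric.closedBall x0 (1 + 2 * (z + 1))) ×ˢ
      (Set.univ.pi fun _ : Fin 3 => Metric.closedBall x0 (1 + 2 * (z + 1)))) := by
    intro k
    refine ⟨fun i _ => ?_, fun i _ => ?_⟩
    · exact hbd k _ (subset_convexHull ℝ _ (Or.inl ⟨i, rfl⟩))
    · exact hbd k _ (subset_convexHull ℝ _ (Or.inr ⟨i, rfl⟩))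
  obtain ⟨⟨A', B'⟩, -, φ, hφ, hlim⟩ := hcomp.tendsto_subseq hmem
  have hη : Filter.Tendsto (fun k => 1 / (((φ k : ℕ) : ℝ) + 1)) Filter.atTop (nhds 0) :=
    tendsto_one_div_add_atTop_nhds_zero_nat.comp hφ.tendsto_atTop
  have cL : Continuous fun X : (Fin 3 → E3) × (Fin 3 → E3) => Lsum X.1 X.2 := by
    unfold Lsum
    fun_prop
  have cV : Continuous fun X : (Fin 3 → E3) × (Fin 3 → E3) => |vol6 X.1 X.2| / 6 := by
    unfold vol6 det3
    fun_prop
  have cP : ∀ i j, Continuous fun X : (Fin 3 → E3) × (Fin 3 → E3) => pla X.1 X.2 i j := by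
    intro i j
    unfold pla det3
    fun_prop
  have hpla : ∀ i j, (∀ k, pla (A k) (B k) i j = 0) → pla A' B' i j = 0 := by
    intro i j h
    have h1 := ((cP i j).tendsto (A', B')).comp hlim
    refine tendsto_nhds_unique h1 ?_
    have : ((fun X : (Fin 3 → E3) × (Fin 3 → E3) => pla X.1 X.2 i j) ∘
        ((fun n => (A n, B n)) ∘ φ)) = fun _ => (0 : ℝ) := by
      funext k
      exact h (φ k)
    rw [this]
    exact tendsto_const_nhds
  refine ⟨A', B', ⟨hpla 0 1 fun k => (hpl k).1, hpla 1 2 fun k => (hpl k).2.1,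
    hpla 0 2 fun k => (hpl k).2.2⟩, ?_, ?_, ?_⟩
  · have h1 := (cL.tendsto (A', B')).comp hlim
    have h2 : Filter.Tendsto (fun k => z + 1 / (((φ k : ℕ) : ℝ) + 1)) Filter.atTop
        (nhds (z + 0)) := tendsto_const_nhds.add hη
    rw [add_zero] at h2
    exact le_of_tendsto_of_tendsto' h1 h2 fun k => hL (φ k)
  · have h1 := (cV.tendsto (A', B')).comp hlim
    have h2 : Filter.Tendsto (fun k => V - 1 / (((φ k : ℕ) : ℝ) + 1)) Filter.atTop
        (nhds (V - 0)) := tendsto_const_nhds.sub hη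
    rw [sub_zero] at h2
    exact le_of_tendsto_of_tendsto' h2 h1 fun k => hvol (φ k)
  · intro x hx
    set Q := convexHull ℝ (Set.range A' ∪ Set.range B') with hQ
    have hQc : IsClosed Q :=
      Set.Finite.isClosed_convexHull ℝ ((Set.finite_range A').union (Set.finite_range B'))
    rw [← hQc.closure_eq, Metric.closure_eq_iInter_cthickening]
    simp only [mem_iInter]
    intro ε hε
    have hA : ∀ i, Filter.Tendsto (fun k => A (φ k) i) Filter.atTop (nhds (A' i)) := by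
      intro i
      have h1 : Continuous fun X : (Fin 3 → E3) × (Fin 3 → E3) => X.1 i := by fun_prop
      exact (h1.tendsto (A', B')).comp hlim
    have hB : ∀ i, Filter.Tendsto (fun k => B (φ k) i) Filter.atTop (nhds (B' i)) := by
      intro i
      have h1 : Continuous fun X : (Fin 3 → E3) × (Fin 3 → E3) => X.2 i := by fun_prop
      exact (h1.tendsto (A', B')).comp hlim
    have eA : ∀ᶠ k in Filter.atTop, ∀ i, dist (A (φ k) i) (A' i) ≤ ε / 2 := by
      rw [Filter.eventually_all]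
      intro i
      have := (Metric.tendsto_nhds.1 (hA i)) (ε / 2) (by linarith)
      exact this.mono fun k h => h.le
    have eB : ∀ᶠ k in Filter.atTop, ∀ i, dist (B (φ k) i) (B' i) ≤ ε / 2 := by
      rw [Filter.eventually_all]
      intro i
      have := (Metric.tendsto_nhds.1 (hB i)) (ε / 2) (by linarith)
      exact this.mono fun k h => h.le
    have eη : ∀ᶠ k in Filter.atTop, 1 / (((φ k : ℕ) : ℝ) + 1) < ε / 2 :=
      hη.eventually (gt_mem_nhds (by linarith))
    obtain ⟨k, kA, kB, kη⟩ := (eA.and (eB.and eη)).exists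
    obtain ⟨p, hp, hd⟩ := hcov (φ k) x hx
    have hp' : p ∈ Metric.cthickening (ε / 2) Q := by
      refine convexHull_min ?_ ((convex_convexHull ℝ _).cthickening (ε / 2)) hp
      rintro _ (⟨i, rfl⟩ | ⟨i, rfl⟩)
      · exact Metric.mem_cthickening_of_dist_le _ _ _ _
          (subset_convexHull ℝ _ (Or.inl ⟨i, rfl⟩)) (kA i)
      · exact Metric.mem_cthickening_of_dist_le _ _ _ _
          (subset_convexHull ℝ _ (Or.inr ⟨i, rfl⟩)) (kB i)
    have h3 : x ∈ Metric.cthickening (ε / 2) (Metric.cthickening (ε / 2) Q) :=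
      Metric.mem_cthickening_of_dist_le _ _ _ _ hp' (hd.trans kη.le)
    have h4 := Metric.cthickening_cthickening_subset (by linarith : (0 : ℝ) ≤ ε / 2)
      (by linarith : (0 : ℝ) ≤ ε / 2) Q h3
    rwa [add_halves] at h4

theorem ext_eq (hADJ : Stmt_ADJ) (hIRR : Stmt_IRR) {c : ℝ} (hc : 972 * √3 < c)
    (hCORE : Stmt_CORE c)
    {K : Set (E 3)} (hKc : IsCompact K) (hK : Convex ℝ K) (hint : (interior K).Nonempty)
    (heq : ENNReal.ofReal (972 * √3) * volume K = zetaLim K ^ 3) : IsArchPrism K := by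
  have hVfin : volume K ≠ ∞ := hKc.measure_lt_top.ne
  set V := (volume K).toReal with hVdef
  have hV : volume K = ENNReal.ofReal V := (ENNReal.ofReal_toReal hVfin).symm
  have hV0 : 0 < V := by
    refine ENNReal.toReal_pos ?_ hVfin
    intro h0
    exact (isOpen_interior.measure_pos volume hint).ne' (measure_mono_null interior_subset h0)
  have hzfin : zetaLim K ≠ ∞ := by
    intro h
    rw [h] at heq
    have : ENNReal.ofReal (972 * √3) * volume K ≠ ∞ := ENNReal.mul_ne_top ENNReal.ofReal_ne_top hVfin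
    apply this
    rw [heq]
    simp
  set z := (zetaLim K).toReal with hzdef
  have hz : zetaLim K = ENNReal.ofReal z := (ENNReal.ofReal_toReal hzfin).symm
  have hz0 : 0 ≤ z := ENNReal.toReal_nonneg
  have hzV : 972 * √3 * V = z ^ 3 := by
    rw [hV, hz, ← ENNReal.ofReal_mul kappa_pos.le, ← ENNReal.ofReal_pow hz0,
      ENNReal.ofReal_eq_ofReal_iff (by positivity) (by positivity)] at heq
    exact heq
  obtain ⟨A, B, ⟨p01, p12, p02⟩, hL, hvol, hsub⟩ := limit hADJ hIRR hc hCORE hKc hK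
    hint hV hV0 hz hz0 hzV.symm.le
  obtain ⟨h6, h6e⟩ := Pool.Agent.Work.MP_3892ce_gt.six A B p01 p12 p02
  have hL0 := Cert.Lnonneg A B
  have hLz : Lsum A B ^ 3 ≤ z ^ 3 := pow_le_pow_left₀ hL0 hL 3
  have hs3 : (0 : ℝ) < √3 := by positivity
  have c1 : 972 * √3 * V ≤ 162 * √3 * |vol6 A B| := by
    have := mul_le_mul_of_nonneg_left hvol kappa_pos.le
    linarith
  have e1 : 0 < |vol6 A B| := by linarith
  have e2 : 162 * √3 * |vol6 A B| = Lsum A B ^ 3 := by
    refine le_antisymm h6 ?_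
    linarith
  obtain ⟨u, s, hs, hB, hd, hu, ho⟩ := h6e e1 e2
  have hB' : B = fun i => A i + u := funext hB
  have hArch : IsArchPrism (prS A u) := ⟨A, u, s, hs, hd, hu, ho, rfl⟩
  have hsub' : K ⊆ prS A u := by
    rw [hB'] at hsub
    exact hsub
  obtain ⟨hQB, hQI, -⟩ := arch_isPoly hArch
  have hQc : IsClosed (prS A u) :=
    Set.Finite.isClosed_convexHull ℝ ((Set.finite_range A).union (Set.finite_range _))
  -- the length of the prism
  have h9 : Lsum A B = 9 * s := by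
    have hdB : ∀ i j, i ≠ j → dist (B i) (B j) = s := by
      intro i j hij
      rw [hB, hB, dist_add_right]
      exact hd i j hij
    have hAB : ∀ i, dist (A i) (B i) = s := by
      intro i
      rw [hB, dist_self_add_right]
      exact hu
    unfold Lsum
    rw [hd 0 1 (by decide), hd 0 2 (by decide), hd 1 2 (by decide), hdB 0 1 (by decide),
      hdB 0 2 (by decide), hdB 1 2 (by decide), hAB, hAB, hAB]
    ring
  -- the volume of the prism
  have hvQ : volume (prS A u) ≤ volume K := by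
    obtain ⟨n, b, hnb⟩ := arch_HP hs hd hu ho
    have hQ0 : volume (HP n b) ≠ 0 := by
      intro h0
      rw [← hnb] at h0
      exact (isOpen_interior.measure_pos volume hQI).ne' (measure_mono_null interior_subset h0)
    have hB1 : Bornology.IsBounded (HP n b) := by rw [← hnb]; exact hQB
    have hI1 : (interior (HP n b)).Nonempty := by rw [← hnb]; exact hQI
    obtain ⟨A1, B1, hCert⟩ := Pool.Agent.Work.MP_3892ce_gt.red (n := n) (b := b) hB1 hI1
    have h1 := (hCert.main hQ0).1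
    change ENNReal.ofReal (972 * √3) * volume (HP n b) ≤ zeta1 (HP n b) ^ 3 at h1
    rw [← hnb] at h1
    have h2 : zeta1 (prS A u) ^ 3 ≤ ENNReal.ofReal (9 * s) ^ 3 := by
      gcongr
      exact Pool.Agent.Work.MP_3892ce_gt.zeta1_arch hs hd hu ho
    have h3 : ENNReal.ofReal (9 * s) ^ 3 ≤ ENNReal.ofReal (972 * √3) * volume K := by
      rw [heq, hz, ← h9]
      gcongr
    have h4 := h1.trans (h2.trans h3)
    refine (ENNReal.mul_le_mul_iff_right ?_ ENNReal.ofReal_ne_top).1 h4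
    rw [Ne, ENNReal.ofReal_eq_zero, not_le]
    exact kappa_pos
  have hKQ : K = prS A u := eq_of_volume hKc.isClosed hsub' (convex_convexHull ℝ _) hQc hQI
    hQB.measure_lt_top.ne hvQ
  rw [hKQ]
  exact hArch

/-- Melzak's conjecture, from the two static statements -/
theorem full (hADJ : Stmt_ADJ) (hIRR : Stmt_IRR) {c : ℝ} (hc : 972 * √3 < c)
    (hCORE : Stmt_CORE c)
    {K : Set (E 3)} (hKc : IsCompact K) (hK : Convex ℝ K) (hint : (interior K).Nonempty) :
    ENNReal.ofReal (972 * √3) * volume K ≤ zetaLim K ^ 3 ∧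
    (ENNReal.ofReal (972 * √3) * volume K = zetaLim K ^ 3 ↔ IsArchPrism K) := by
  have h1 := ext_ineq hADJ hIRR hc hCORE hKc hK hint
  refine ⟨h1, ext_eq hADJ hIRR hc hCORE hKc hK hint, fun h => ?_⟩
  refine le_antisymm h1 (le_trans ?_ (Pool.Agent.Work.MP_3892ce_gt.arch_eq h))
  have := zetaLim_le_of_poly (arch_isPoly h)
  gcongr

end Pool.Agent.Work.MP_3892ce_str
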