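import Pool.Agent.Work.MP_3892ce_str.FillAll
import Pool.Agent.Work.MP_3892ce_str.Ext2

/-! # Melzak's conjecture from three static statements (helper15) -/

set_option autoImplicit false

open MeasureTheory Set
open scoped ENNReal Pointwise

namespace Pool.Agent.Work.MP_3892ce_str

open Pool.Agent.Work.MP_3892ce_static (E HP Face len L Irr Adj Frame area Stmt_FR1 Stmt_FR2 Stmt_LEN
  Stmt_FILL NinePairs Stmt_ADJ Stmt_IRR)
open Pool.Agent.Work.MP_3892ce_gt (IsArchPrism zeta1)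

/-- `m` numbers five facets with the largest areas -/
def Largest {ι : Type} (n : ι → E 3) (b : ι → ℝ) (U : ι → (E 2 →ₗᵢ[ℝ] E 3)) (m : Fin 5 → ι) :
    Prop :=
  Function.Injective m ∧ ∀ k, k ∉ Set.range m → ∀ i, area (HP n b) (n k) (U k) (b k) ≤
    area (HP n b) (n (m i)) (U (m i)) (b (m i))

/-- static bound if the five half-spaces of the nine pairs have an unbounded intersection -/
def Stmt_UNBC (c : ℝ) : Prop :=
  ∀ (ι : Type) [Fintype ι] [DecidableEq ι] (n : ι → E 3) (b : ι → ℝ)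
    (U : ι → (E 2 →ₗᵢ[ℝ] E 3)), (∀ i, Frame (n i) (U i)) → Irr n b →
    ∀ m : Fin 5 → ι, Largest n b U m → NinePairs n b m →
      ¬ Bornology.IsBounded (HP (fun k => n (m k)) (fun k => b (m k))) →
      c * (volume (HP n b)).toReal ≤ L n b ^ 3

/-- static bound if one corner is sharp -/
def Stmt_SHARP (c : ℝ) : Prop :=
  ∀ (ι : Type) [Fintype ι] [DecidableEq ι] (n : ι → E 3) (b : ι → ℝ)
    (U : ι → (E 2 →ₗᵢ[ℝ] E 3)), (∀ i, Frame (n i) (U i)) → Irr n b → 5 < Fintype.card ι →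
    ∀ m : Fin 5 → ι, Largest n b U m → NinePairs n b m →
      Bornology.IsBounded (HP (fun k => n (m k)) (fun k => b (m k))) →
      (∃ t i j : Fin 5, (t = 3 ∨ t = 4) ∧ i < j ∧ j ≤ 2 ∧ ∃ α β γ : ℝ, 0 ≤ α ∧ 0 ≤ β ∧ 0 ≤ γ ∧
        ‖β • Pool.Agent.Work.MP_3892ce_static.nu n U (m t) (m i) +
          γ • Pool.Agent.Work.MP_3892ce_static.nu n U (m t) (m j)‖ +
        ‖α • Pool.Agent.Work.MP_3892ce_static.nu n U (m i) (m j) +
          β • Pool.Agent.Work.MP_3892ce_static.nu n U (m i) (m t)‖ +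
        ‖α • Pool.Agent.Work.MP_3892ce_static.nu n U (m j) (m i) +
          γ • Pool.Agent.Work.MP_3892ce_static.nu n U (m j) (m t)‖ < α + β + γ) →
      c * (volume (HP n b)).toReal ≤ L n b ^ 3

theorem nine_of_padj {ι : Type} {n : ι → E 3} {b : ι → ℝ} {s : Fin 5 → ι} (h : PAdj n b s) :
    NinePairs n b (fun k => s (ppE.symm k)) := by
  intro i j hij h34
  have key : ∀ i j : Fin 5, i < j → ¬ (i = 3 ∧ j = 4) → ppE.symm i ≠ ppE.symm j ∧
      ¬ (ppE.symm i = 0 ∧ ppE.symm j = 1) ∧ ¬ (ppE.symm i = 1 ∧ ppE.symm j = 0) := by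
    decide
  obtain ⟨h1, h2, h3⟩ := key i j hij h34
  exact h _ _ h1 h2 h3

theorem core9 (hFR1 : Stmt_FR1) (hFILL : Stmt_FILL) {c : ℝ} (hS2 : Stmt_S2 c)
    (hUNB : Stmt_UNBC c) (hSH : Stmt_SHARP c) : Stmt_CORE c := by
  intro ι _ _ n b hI hlt
  classical
  rcases Nat.lt_or_ge 5 (Fintype.card ι) with h5 | h5
  swap
  · obtain ⟨m, a, hma⟩ := few hI h5
    exact ⟨m, a, hma ▸ hI.bdd, hma.symm.subset, by rw [hma]; exact zeta1_le hI⟩
  choose U hU using fun i => hFR1 2 (n i) (hI.unit i)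
  obtain ⟨s, hs, hsA⟩ := largest (fun i => area (HP n b) (n i) (U i) (b i)) 5 (by omega)
  by_cases hp : ∃ p : Equiv.Perm (Fin 5), PAdj n b (s ∘ p)
  swap
  · exact absurd (hS2 ι n b U hU hI h5 s hs hsA hp) (not_le.2 hlt)
  obtain ⟨p, hp⟩ := hp
  set m : Fin 5 → ι := fun k => s (p (ppE.symm k)) with hm
  have hmi : Function.Injective m := hs.comp (p.injective.comp ppE.symm.injective)
  have hran : Set.range m = Set.range s := by
    have : m = s ∘ (p ∘ ppE.symm) := rfl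
    rw [this]
    exact (p.surjective.comp ppE.symm.surjective).range_comp s
  have hL : Largest n b U m := by
    refine ⟨hmi, fun k hk i => ?_⟩
    rw [hran] at hk
    exact hsA k hk _
  have hN : NinePairs n b m := nine_of_padj hp
  by_cases hB : Bornology.IsBounded (HP (fun k => n (m k)) (fun k => b (m k)))
  swap
  · exact absurd (hUNB ι n b U hU hI m hL hN hB) (not_le.2 hlt)
  obtain ⟨h1, h2 | h2⟩ := hFILL ι n b U hU hI m hmi hN hB
  · refine ⟨fun k => n (m k), fun k => b (m k), hB, fun x hx k => hx _, ?_⟩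
    exact (zeta1_le h1).trans (ENNReal.ofReal_le_ofReal h2)
  · exact absurd (hSH ι n b U hU hI h5 m hL hN hB h2) (not_le.2 hlt)

/-- Melzak's conjecture from the three static statements -/
theorem full9 (hFR1 : Stmt_FR1) (hFILL : Stmt_FILL) (hADJ : Stmt_ADJ) (hIRR : Stmt_IRR) {c : ℝ}
    (hc : 972 * √3 < c) (hS2 : Stmt_S2 c) (hUNB : Stmt_UNBC c) (hSH : Stmt_SHARP c)
    {K : Set (E 3)} (hKc : IsCompact K) (hK : Convex ℝ K) (hint : (interior K).Nonempty) :
    ENNReal.ofReal (972 * √3) * volume K ≤ zetaLim K ^ 3 ∧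
    (ENNReal.ofReal (972 * √3) * volume K = zetaLim K ^ 3 ↔ IsArchPrism K) :=
  full hADJ hIRR hc (core9 hFR1 hFILL hS2 hUNB hSH) hKc hK hint

end Pool.Agent.Work.MP_3892ce_str
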