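import Pool.Agent.Work.MP_3892ce_str.Str

/-! # Further facets of a polytope with prism structure cut exactly one vertex (helper15) -/

set_option autoImplicit false

open Set

namespace Pool.Agent.Work.MP_3892ce_str

open Pool.Agent.Work.MP_3892ce_static

variable {ι : Type} {n : ι → E 3} {b : ι → ℝ} {s : Fin 5 → ι} {μ : Fin 5 → ℝ}

/-- the values of all slacks and of the constant function `1` -/
structure Cuts (n : ι → E 3) (b : ι → ℝ) (s : Fin 5 → ι) (μ : Fin 5 → ℝ) (F : ι → VV → ℝ)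
    (Λ : VV → ℝ) : Prop where
  str : Str n b s μ
  inj : Function.Injective s
  adj : PAdj n b s
  valF : ∀ k, Val n b s μ (sl n b k) (F k)
  valL : Val n b s μ (fun _ => 1) Λ

theorem exists_cuts (hs : Function.Injective s) (hA : PAdj n b s) :
    ∃ μ F Λ, Cuts n b s μ F Λ := by
  obtain ⟨μ, hS⟩ := exists_str hs hA
  choose F hF using fun k => hS.val (n k) (b k)
  obtain ⟨Λ, hΛ⟩ := hS.val 0 1
  refine ⟨μ, F, Λ, hS, hs, hA, hF, ?_⟩
  have : (fun x : E 3 => (1 : ℝ) - inner ℝ (0 : E 3) x) = fun _ => 1 := by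
    funext x
    rw [inner_zero_left, sub_zero]
  rw [this] at hΛ
  exact hΛ

/-- `x` satisfies the five main inequalities -/
def InQ (n : ι → E 3) (b : ι → ℝ) (s : Fin 5 → ι) (x : E 3) : Prop := ∀ i, 0 ≤ sl n b (s i) x

theorem InQ.aa {x : E 3} (hx : InQ n b s x) (hS : Str n b s μ) (e : Fin 2) :
    0 ≤ aa n b s μ e x := mul_nonneg (hS.pos _).le (hx _)

theorem InQ.cc {x : E 3} (hx : InQ n b s x) (hS : Str n b s μ) (l : Fin 3) :
    0 ≤ cc n b s μ l x := mul_nonneg (hS.pos _).le (hx _)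

theorem InQ.om {x : E 3} (hx : InQ n b s x) (hS : Str n b s μ) (v : VV) :
    0 ≤ om n b s μ v x := mul_nonneg (hx.aa hS _) (hx.cc hS _)

theorem InQ.aa_le {x : E 3} (hx : InQ n b s x) (hS : Str n b s μ) (e : Fin 2) :
    Pool.Agent.Work.MP_3892ce_str.aa n b s μ e x ≤ NN n b s μ x :=
  Finset.single_le_sum (f := fun e => Pool.Agent.Work.MP_3892ce_str.aa n b s μ e x)
    (fun e _ => hx.aa hS e) (Finset.mem_univ e)

theorem InQ.cc_le {x : E 3} (hx : InQ n b s x) (hS : Str n b s μ) (l : Fin 3) :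
    Pool.Agent.Work.MP_3892ce_str.cc n b s μ l x ≤ NN n b s μ x := by
  unfold NN
  rw [hS.rel x]
  exact Finset.single_le_sum (f := fun e => Pool.Agent.Work.MP_3892ce_str.cc n b s μ e x)
    (fun e _ => hx.cc hS e) (Finset.mem_univ l)

theorem InQ.N_pos {x : E 3} (hx : InQ n b s x) (hS : Str n b s μ) : 0 < NN n b s μ x := by
  have h0 : 0 ≤ NN n b s μ x := Finset.sum_nonneg fun e _ => hx.aa hS e
  rcases h0.lt_or_eq with h | h
  · exact h
  exfalso
  obtain ⟨g, hh, hgh⟩ := hS.rep 0 1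
  have h1 := hgh x
  have ha : ∀ e, Pool.Agent.Work.MP_3892ce_str.aa n b s μ e x = 0 := fun e =>
    le_antisymm (by rw [h]; exact hx.aa_le hS e) (hx.aa hS e)
  have hc : ∀ l, Pool.Agent.Work.MP_3892ce_str.cc n b s μ l x = 0 := fun l =>
    le_antisymm (by rw [h]; exact hx.cc_le hS l) (hx.cc hS l)
  rw [inner_zero_left, sub_zero, Finset.sum_eq_zero fun e _ => by rw [ha, mul_zero],
    Finset.sum_eq_zero fun l _ => by rw [hc, mul_zero]] at h1
  norm_num at h1

variable {F : ι → VV → ℝ} {Λ : VV → ℝ}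

theorem tail_pos {k : ι} (hk : k ∉ Set.range s) (v v' : VV) (x : E 3) (t t' : ℝ)
    (h : EdgePt n b s μ v v' x t t') : 0 < sl n b k x := h.tail k hk

theorem one_pos' (v v' : VV) (x : E 3) (t t' : ℝ) (_ : EdgePt n b s μ v v' x t t') :
    0 < (fun _ : E 3 => (1 : ℝ)) x := one_pos

/-- at most one negative value -/
theorem Cuts.uniq (hC : Cuts n b s μ F Λ) {k : ι} (hk : k ∉ Set.range s) {v v' : VV}
    (h1 : F k v ≤ 0) (h2 : F k v' ≤ 0) : v = v' :=
  two_pos hC.str hC.inj hC.adj (hC.valF k) (tail_pos hk) h1 h2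

theorem Cuts.pos_of_ne (hC : Cuts n b s μ F Λ) {k : ι} (hk : k ∉ Set.range s) {v v' : VV}
    (h1 : F k v ≤ 0) (h2 : v' ≠ v) : 0 < F k v' := by
  by_contra h
  exact h2 (hC.uniq hk (not_lt.1 h) h1)

/-- every further facet cuts a vertex -/
theorem Cuts.exists_neg (hC : Cuts n b s μ F Λ) (hI : Irr n b) {k : ι} (hk : k ∉ Set.range s) :
    ∃ v, F k v < 0 := by
  obtain ⟨x, hx, hx'⟩ := hI.wit k
  have hsl : ∀ i, 0 < sl n b (s i) x := by
    intro i
    unfold sl
    have := hx' (s i) (fun h => hk ⟨i, h⟩)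
    linarith
  have hom : ∀ v, 0 < om n b s μ v x := fun v =>
    mul_pos (mul_pos (hC.str.pos _) (hsl _)) (mul_pos (hC.str.pos _) (hsl _))
  have h0 : sl n b k x = 0 := by
    unfold sl
    rw [hx, sub_self]
  have h1 := (hC.valF k).val x
  rw [h0, mul_zero] at h1
  by_contra hcon
  push Not at hcon
  have h2 := (Finset.sum_eq_zero_iff_of_nonneg fun v _ => mul_nonneg (hom v).le (hcon v)).1 h1.symm
  have h3 : ∀ v, F k v = 0 := fun v =>
    (mul_eq_zero.1 (h2 v (Finset.mem_univ v))).resolve_left (hom v).ne'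
  have h4 : ((0, 0) : VV) = (1, 0) := hC.uniq hk (h3 _).le (h3 _).le
  exact absurd (congrArg Prod.fst h4) (by decide)

/-- cuts at different vertices do not interact -/
theorem Cuts.disj (hC : Cuts n b s μ F Λ) {k k' : ι} (hk : k ∉ Set.range s)
    (hk' : k' ∉ Set.range s) {v v' : VV} (hne : v ≠ v') (h1 : F k v < 0) (h2 : F k' v' < 0)
    {x : E 3} (hx : InQ n b s x) (h : sl n b k' x ≤ 0) : 0 ≤ sl n b k x := by
  obtain ⟨p1, p2, p3⟩ := prod_lt hC.str hC.inj hC.adj (hC.valF k) (hC.valF k') (tail_pos hk)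
    (tail_pos hk') hne h1.le h2.le
  have hG := (hC.valF k).comb (hC.valF k') (F k' v) (- F k v)
  have h3 := hG.val x
  have h4 : 0 ≤ ∑ u, om n b s μ u x * (F k' v * F k u + - F k v * F k' u) := by
    refine Finset.sum_nonneg fun u _ => mul_nonneg (hx.om hC.str u) ?_
    by_cases hu : u = v
    · rw [hu]
      have : F k' v * F k v + - F k v * F k' v = 0 := by ring
      exact this.ge
    by_cases hu' : u = v'
    · rw [hu']
      nlinarith
    · have a1 := hC.pos_of_ne hk h1.le hu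
      have a2 := hC.pos_of_ne hk' h2.le hu'
      nlinarith [mul_pos p2 a1, mul_pos (neg_pos.2 h1) a2]
  rw [← h3] at h4
  have h5 : 0 ≤ F k' v * sl n b k x + - F k v * sl n b k' x :=
    nonneg_of_mul_nonneg_right h4 (hx.N_pos hC.str)
  have h6 : - F k v * sl n b k' x ≤ 0 := mul_nonpos_of_nonneg_of_nonpos (by linarith) h
  have h7 : 0 ≤ F k' v * sl n b k x := by linarith
  exact nonneg_of_mul_nonneg_right h7 p2

/-- a point in a main facet which does not contain the vertex `v` is not cut off by the cuts at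
`v` -/
theorem Cuts.main (hC : Cuts n b s μ F Λ) {k : ι} (hk : k ∉ Set.range s) {v : VV}
    (h1 : F k v < 0) {x : E 3} (hx : InQ n b s x) (h : om n b s μ v x = 0) : 0 ≤ sl n b k x := by
  have h3 := (hC.valF k).val x
  have h4 : 0 ≤ ∑ u, om n b s μ u x * F k u := by
    refine Finset.sum_nonneg fun u _ => ?_
    by_cases hu : u = v
    · rw [hu, h, zero_mul]
    · exact mul_nonneg (hx.om hC.str u) (hC.pos_of_ne hk h1.le hu).le
  rw [← h3] at h4
  exact nonneg_of_mul_nonneg_right h4 (hx.N_pos hC.str)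

/-- the facets which cut the vertex `v` -/
def CS (s : Fin 5 → ι) (F : ι → VV → ℝ) (v : VV) : Set ι := {k | k ∉ Set.range s ∧ F k v < 0}

/-- points with bounded `NN` are bounded -/
theorem bdd_of_NN (hS : Str n b s μ) (M : ℝ) :
    Bornology.IsBounded {x : E 3 | InQ n b s x ∧ NN n b s μ x ≤ M} := by
  have key : ∀ v : E 3, ∃ R, ∀ x, InQ n b s x → NN n b s μ x ≤ M → |inner ℝ v x| ≤ R := by
    intro v
    obtain ⟨g, h, hgh⟩ := hS.rep v 0
    refine ⟨∑ e, |g e| * |M| + ∑ l, |h l| * |M|, fun x hx hM => ?_⟩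
    have h1 := hgh x
    have h2 : |inner ℝ v x| = |∑ e, g e * aa n b s μ e x + ∑ l, h l * cc n b s μ l x| := by
      rw [← h1, zero_sub, abs_neg]
    rw [h2]
    refine (abs_add_le _ _).trans (add_le_add ?_ ?_)
    · refine (Finset.abs_sum_le_sum_abs _ _).trans (Finset.sum_le_sum fun e _ => ?_)
      rw [abs_mul]
      refine mul_le_mul_of_nonneg_left ?_ (abs_nonneg _)
      rw [abs_of_nonneg (hx.aa hS e)]
      exact (hx.aa_le hS e).trans (hM.trans (le_abs_self M))
    · refine (Finset.abs_sum_le_sum_abs _ _).trans (Finset.sum_le_sum fun e _ => ?_)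
      rw [abs_mul]
      refine mul_le_mul_of_nonneg_left ?_ (abs_nonneg _)
      rw [abs_of_nonneg (hx.cc hS e)]
      exact (hx.cc_le hS e).trans (hM.trans (le_abs_self M))
  set B := EuclideanSpace.basisFun (Fin 3) ℝ with hB
  choose R hR using fun j : Fin 3 => key (B j)
  rw [isBounded_iff_forall_norm_le]
  refine ⟨∑ j, R j, fun x hx => ?_⟩
  have h1 : x = ∑ j, inner ℝ (B j) x • B j := (B.sum_repr' x).symm
  calc ‖x‖ = ‖∑ j, inner ℝ (B j) x • B j‖ := by rw [← h1]
    _ ≤ ∑ j, ‖inner ℝ (B j) x • B j‖ := norm_sum_le _ _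
    _ ≤ ∑ j, R j := by
        refine Finset.sum_le_sum fun j _ => ?_
        rw [norm_smul, B.norm_eq_one, mul_one, Real.norm_eq_abs]
        exact hR j x hx.1 hx.2

/-- the part of the prism cut off by a facet at a vertex at finite distance is bounded -/
theorem Cuts.bdd (hC : Cuts n b s μ F Λ) {k : ι} (hk : k ∉ Set.range s) {v : VV}
    (h1 : F k v < 0) (hΛ : 0 < Λ v) :
    Bornology.IsBounded {x : E 3 | InQ n b s x ∧ sl n b k x ≤ 0} := by
  set G : VV → ℝ := fun u => Λ v * F k u + - F k v * Λ u with hG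
  have hGv : G v = 0 := by
    simp only [hG]
    ring
  have hGp : ∀ u, u ≠ v → 0 < G u := by
    intro u hu
    have a1 := hC.pos_of_ne hk h1.le hu
    simp only [hG]
    rcases le_or_gt 0 (Λ u) with h | h
    · nlinarith [mul_pos hΛ a1, mul_nonneg (neg_pos.2 h1).le h]
    · have := (prod_lt hC.str hC.inj hC.adj (hC.valF k) hC.valL (tail_pos hk) one_pos'
        (Ne.symm hu) h1.le h.le).2.2
      nlinarith
  have hval := (hC.valF k).comb hC.valL (Λ v) (- F k v)
  -- a positive lower bound for the other values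
  obtain ⟨m, hm, hmG⟩ : ∃ m : ℝ, 0 < m ∧ ∀ u, u ≠ v → m ≤ G u := by
    classical
    have hne : (Finset.univ.erase v).Nonempty := by
      by_cases hv : v = (0, 0)
      · exact ⟨(1, 0), Finset.mem_erase.2 ⟨by rw [hv]; decide, Finset.mem_univ _⟩⟩
      · exact ⟨(0, 0), Finset.mem_erase.2 ⟨fun h => hv h.symm, Finset.mem_univ _⟩⟩
    obtain ⟨u0, hu0, hmin⟩ := (Finset.univ.erase v).exists_min_image G hne
    exact ⟨G u0, hGp u0 (Finset.mem_erase.1 hu0).1, fun u hu =>
      hmin u (Finset.mem_erase.2 ⟨hu, Finset.mem_univ u⟩)⟩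
  set A := - F k v with hA
  have hA0 : 0 < A := by
    rw [hA]
    linarith
  set R := ∑ u, |Λ u| with hR
  have hR0 : 0 ≤ R := Finset.sum_nonneg fun u _ => abs_nonneg _
  have hRu : ∀ u, |Λ u| ≤ R := fun u =>
    Finset.single_le_sum (f := fun u => |Λ u|) (fun u _ => abs_nonneg _) (Finset.mem_univ u)
  refine (bdd_of_NN hC.str ((1 + (Λ v + R) * (A / m)) / Λ v)).subset ?_
  rintro x ⟨hx, hxk⟩
  refine ⟨hx, ?_⟩
  have hN := hx.N_pos hC.str
  set N := NN n b s μ x with hNd
  classical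
  have e1 := hval.val x
  have e2 := hC.valL.val x
  have e3 := hC.str.sum_om x
  rw [← hNd] at e1 e2 e3
  set D := ∑ u ∈ Finset.univ.erase v, om n b s μ u x with hD
  have hDN : om n b s μ v x + D = N * N := by
    rw [← e3, hD]
    exact Finset.add_sum_erase Finset.univ (fun u => om n b s μ u x) (Finset.mem_univ v)
  have hD1 : m * D ≤ N * A := by
    have h3 : m * D ≤ ∑ u, om n b s μ u x * G u := by
      rw [← Finset.add_sum_erase _ _ (Finset.mem_univ v), hGv, mul_zero, zero_add, hD,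
        Finset.mul_sum]
      refine Finset.sum_le_sum fun u hu => ?_
      rw [mul_comm]
      exact mul_le_mul_of_nonneg_left (hmG u (Finset.mem_erase.1 hu).1) (hx.om hC.str u)
    refine h3.trans ?_
    rw [← e1]
    refine mul_le_mul_of_nonneg_left ?_ hN.le
    have := mul_nonpos_of_nonneg_of_nonpos hΛ.le hxk
    linarith
  have hD2 : D ≤ N * (A / m) := by
    rw [← mul_div_assoc, le_div_iff₀ hm]
    linarith
  have hD0 : 0 ≤ D := Finset.sum_nonneg fun u _ => hx.om hC.str u
  have hlow : om n b s μ v x * Λ v - R * D ≤ N := by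
    rw [mul_one] at e2
    rw [e2, ← Finset.add_sum_erase _ _ (Finset.mem_univ v), sub_eq_add_neg]
    refine add_le_add le_rfl ?_
    rw [hD, Finset.mul_sum, ← Finset.sum_neg_distrib]
    refine Finset.sum_le_sum fun u _ => ?_
    have h3 := hx.om hC.str u
    have h4 := neg_abs_le (Λ u)
    have h5 := hRu u
    have h6 : -R ≤ Λ u := by linarith
    nlinarith
  have hfin : N * (N * Λ v - (Λ v + R) * (A / m)) ≤ N * 1 := by
    have h3 : om n b s μ v x = N * N - D := by linarith
    rw [h3] at hlow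
    have h4 : (Λ v + R) * D ≤ (Λ v + R) * (N * (A / m)) :=
      mul_le_mul_of_nonneg_left hD2 (by positivity)
    nlinarith
  have h5 := le_of_mul_le_mul_left hfin hN
  rw [le_div_iff₀ hΛ]
  linarith

end Pool.Agent.Work.MP_3892ce_str
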