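import Pool.Agent.Work.MP_3892ce_str.Poly
import Pool.Agent.Work.MP_3892ce_static.EXT

/-! # Melzak's inequality for limits of polytopes (helper15) -/

set_option autoImplicit false

open MeasureTheory Set
open scoped ENNReal Pointwise

namespace Pool.Agent.Work.MP_3892ce_str

open Pool.Agent.Work.MP_3892ce_static
open Pool.Agent.Work.MP_3892ce_gt (IsEdge zeta1 Cert IsArchPrism prS det3 pla vol6 Lsum E3)

/-- a polytope in three-space with interior points: a bounded set of solutions of finitely many
linear inequalities, with nonempty interior -/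
def IsPoly (P : Set (E 3)) : Prop :=
  Bornology.IsBounded P ∧ (interior P).Nonempty ∧
    ∃ (m : ℕ) (n : Fin m → E 3) (b : Fin m → ℝ), P = {x | ∀ i, inner ℝ (n i) x ≤ b i}

/-- the infimum of the lower limits of the total edge lengths of all sequences of polytopes which
converge to `K` in the Hausdorff metric -/
noncomputable def zetaLim (K : Set (E 3)) : ℝ≥0∞ :=
  ⨅ (P : ℕ → Set (E 3)) (_ : ∀ j, IsPoly (P j))
    (_ : Filter.Tendsto (fun j => Metric.hausdorffDist (P j) K) Filter.atTop (nhds 0)),
    Filter.liminf (fun j => zeta1 (P j)) Filter.atTop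

theorem zetaLim_le_of_poly {P : Set (E 3)} (h : IsPoly P) : zetaLim P ≤ zeta1 P := by
  unfold zetaLim
  refine (iInf_le _ fun _ => P).trans ((iInf_le _ fun _ => h).trans ((iInf_le _ ?_).trans ?_))
  · simp only [Metric.hausdorffDist_self_zero]
    exact tendsto_const_nhds
  · rw [Filter.liminf_const]

section arch

variable {a : Fin 3 → E3} {u : E3} {s : ℝ}

theorem cramer (x y z v : E3) : det3 x y z • v = det3 v y z • x + det3 x v z • y + det3 x y v • z := by
  ext i
  fin_cases i <;>
    · simp only [det3, PiLp.smul_apply, PiLp.add_apply, smul_eq_mul, Fin.mk_one, Fin.zero_eta,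
        Fin.isValue, Fin.reduceFinMk]
      ring

theorem arch_data (hd : ∀ i j, i ≠ j → dist (a i) (a j) = s) :
    ‖a 1 - a 0‖ = s ∧ ‖a 2 - a 0‖ = s ∧ (inner ℝ (a 1 - a 0) (a 2 - a 0) : ℝ) = s ^ 2 / 2 := by
  have h1 : ‖a 1 - a 0‖ = s := by
    rw [← dist_eq_norm]
    exact hd _ _ (by decide)
  have h2 : ‖a 2 - a 0‖ = s := by
    rw [← dist_eq_norm]
    exact hd _ _ (by decide)
  have h3 : ‖(a 1 - a 0) - (a 2 - a 0)‖ = s := by
    rw [sub_sub_sub_cancel_right, ← dist_eq_norm]
    exact hd _ _ (by decide)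
  refine ⟨h1, h2, ?_⟩
  have := norm_sub_sq_real (a 1 - a 0) (a 2 - a 0)
  rw [h1, h2, h3] at this
  linarith

/-- the Archimedean prism as a set of solutions of five inequalities -/
theorem arch_HP (hs : 0 < s) (hd : ∀ i j, i ≠ j → dist (a i) (a j) = s)
    (hu : ‖u‖ = s) (ho : ∀ i j, inner ℝ (a i - a j) u = (0 : ℝ)) :
    ∃ (n : Fin 5 → E 3) (b : Fin 5 → ℝ), prS a u = HP n b := by
  obtain ⟨h1, h2, h3⟩ := arch_data hd
  set p := a 1 - a 0 with hp
  set q := a 2 - a 0 with hq
  have hpu : (inner ℝ p u : ℝ) = 0 := ho 1 0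
  have hqu : (inner ℝ q u : ℝ) = 0 := ho 2 0
  have h3' : (inner ℝ q p : ℝ) = s ^ 2 / 2 := by rw [real_inner_comm]; exact h3
  have hpu' : (inner ℝ u p : ℝ) = 0 := by rw [real_inner_comm]; exact hpu
  have hqu' : (inner ℝ u q : ℝ) = 0 := by rw [real_inner_comm]; exact hqu
  let n0 : Fin 5 → E 3 := ![q - (2 : ℝ) • p, p - (2 : ℝ) • q, p + q, -u, u]
  let b0 : Fin 5 → ℝ := ![0, 0, 3 / 2 * s ^ 2, 0, s ^ 2]
  have hval : ∀ x y z : ℝ, ∀ i, inner ℝ (n0 i) (x • p + y • q + z • u) =
      (![-(3 / 2 * s ^ 2 * x), -(3 / 2 * s ^ 2 * y), 3 / 2 * s ^ 2 * (x + y), -(s ^ 2 * z),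
        s ^ 2 * z] : Fin 5 → ℝ) i := by
    intro x y z i
    have e1 : (inner ℝ p p : ℝ) = s ^ 2 := by rw [real_inner_self_eq_norm_sq, h1]
    have e2 : (inner ℝ q q : ℝ) = s ^ 2 := by rw [real_inner_self_eq_norm_sq, h2]
    have e3 : (inner ℝ u u : ℝ) = s ^ 2 := by rw [real_inner_self_eq_norm_sq, hu]
    fin_cases i
    · show (inner ℝ (q - (2 : ℝ) • p) (x • p + y • q + z • u) : ℝ) = -(3 / 2 * s ^ 2 * x)
      simp only [inner_sub_left, inner_add_right, inner_smul_right, inner_smul_left, e1, e2, e3,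
        h3, h3', hpu, hqu, RCLike.conj_to_real]
      ring
    · show (inner ℝ (p - (2 : ℝ) • q) (x • p + y • q + z • u) : ℝ) = -(3 / 2 * s ^ 2 * y)
      simp only [inner_sub_left, inner_add_right, inner_smul_right, inner_smul_left, e1, e2, e3,
        h3, h3', hpu, hqu, RCLike.conj_to_real]
      ring
    · show (inner ℝ (p + q) (x • p + y • q + z • u) : ℝ) = 3 / 2 * s ^ 2 * (x + y)
      simp only [inner_add_left, inner_add_right, inner_smul_right, e1, e2, e3,
        h3, h3', hpu, hqu]
      ring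
    · show (inner ℝ (-u) (x • p + y • q + z • u) : ℝ) = -(s ^ 2 * z)
      simp only [inner_neg_left, inner_add_right, inner_smul_right, e3, hpu', hqu']
      ring
    · show (inner ℝ u (x • p + y • q + z • u) : ℝ) = s ^ 2 * z
      simp only [inner_add_right, inner_smul_right, e3, hpu', hqu']
      ring
  refine ⟨n0, fun i => b0 i + inner ℝ (n0 i) (a 0), ?_⟩
  have hs2 : 0 < s ^ 2 := by positivity
  have hmem : ∀ x y z : ℝ, 0 ≤ x → 0 ≤ y → x + y ≤ 1 → 0 ≤ z → z ≤ 1 →
      a 0 + (x • p + y • q + z • u) ∈ HP n0 fun i => b0 i + inner ℝ (n0 i) (a 0) := by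
    intro x y z hx hy hxy hz hz1 i
    rw [inner_add_right, hval, add_comm]
    refine add_le_add_left ?_ _
    fin_cases i
    · show -(3 / 2 * s ^ 2 * x) ≤ 0
      have : 0 ≤ 3 / 2 * s ^ 2 * x := by positivity
      linarith
    · show -(3 / 2 * s ^ 2 * y) ≤ 0
      have : 0 ≤ 3 / 2 * s ^ 2 * y := by positivity
      linarith
    · show 3 / 2 * s ^ 2 * (x + y) ≤ 3 / 2 * s ^ 2
      have : 3 / 2 * s ^ 2 * (x + y) ≤ 3 / 2 * s ^ 2 * 1 := by gcongr
      linarith
    · show -(s ^ 2 * z) ≤ 0
      have : 0 ≤ s ^ 2 * z := by positivity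
      linarith
    · show s ^ 2 * z ≤ s ^ 2
      have : s ^ 2 * z ≤ s ^ 2 * 1 := by gcongr
      linarith
  apply Subset.antisymm
  · refine convexHull_min ?_ (convex_HP _ _)
    rintro _ (⟨i, rfl⟩ | ⟨i, rfl⟩)
    · fin_cases i
      · have := hmem 0 0 0 le_rfl le_rfl (by norm_num) le_rfl (by norm_num)
        have e : a 0 + ((0 : ℝ) • p + (0 : ℝ) • q + (0 : ℝ) • u) = a 0 := by simp
        rw [e] at this
        exact this
      · have := hmem 1 0 0 (by norm_num) le_rfl (by norm_num) le_rfl (by norm_num)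
        have e : a 0 + ((1 : ℝ) • p + (0 : ℝ) • q + (0 : ℝ) • u) = a 1 := by
          rw [hp]; module
        rw [e] at this
        exact this
      · have := hmem 0 1 0 le_rfl (by norm_num) (by norm_num) le_rfl (by norm_num)
        have e : a 0 + ((0 : ℝ) • p + (1 : ℝ) • q + (0 : ℝ) • u) = a 2 := by
          rw [hq]; module
        rw [e] at this
        exact this
    · fin_cases i
      · have := hmem 0 0 1 le_rfl le_rfl (by norm_num) (by norm_num) le_rfl
        have e : a 0 + ((0 : ℝ) • p + (0 : ℝ) • q + (1 : ℝ) • u) = a 0 + u := by simp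
        rw [e] at this
        exact this
      · have := hmem 1 0 1 (by norm_num) le_rfl (by norm_num) (by norm_num) le_rfl
        have e : a 0 + ((1 : ℝ) • p + (0 : ℝ) • q + (1 : ℝ) • u) = a 1 + u := by
          rw [hp]; module
        rw [e] at this
        exact this
      · have := hmem 0 1 1 le_rfl (by norm_num) (by norm_num) (by norm_num) le_rfl
        have e : a 0 + ((0 : ℝ) • p + (1 : ℝ) • q + (1 : ℝ) • u) = a 2 + u := by
          rw [hq]; module
        rw [e] at this
        exact this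
  · intro v hv
    have hdet := Pool.Agent.Work.MP_3892ce_gt.det_arch hd hu ho
    have hdet0 : det3 p q u ≠ 0 := by
      intro h0
      rw [← hp, ← hq, h0] at hdet
      have : 0 < 3 / 4 * s ^ 6 := by positivity
      simp at hdet
      exact hs.ne' hdet
    have hc := cramer p q u (v - a 0)
    set x := det3 (v - a 0) q u / det3 p q u with hx
    set y := det3 p (v - a 0) u / det3 p q u with hy
    set z := det3 p q (v - a 0) / det3 p q u with hz
    have hv0 : v - a 0 = x • p + y • q + z • u := by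
      have h4 : v - a 0 = (det3 p q u)⁻¹ • (det3 p q u • (v - a 0)) := by
        rw [smul_smul, inv_mul_cancel₀ hdet0, one_smul]
      rw [hc, smul_add, smul_add, smul_smul, smul_smul, smul_smul, ← div_eq_inv_mul,
        ← div_eq_inv_mul, ← div_eq_inv_mul] at h4
      exact h4
    have hvv : v = a 0 + (x • p + y • q + z • u) := by rw [← hv0]; abel
    have hin : ∀ i, inner ℝ (n0 i) (x • p + y • q + z • u) ≤ b0 i := by
      intro i
      have := hv i
      rw [hvv, inner_add_right] at this
      linarith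
    have i0 : -(3 / 2 * s ^ 2 * x) ≤ 0 := by
      have := hin 0
      rw [hval] at this
      exact this
    have i1 : -(3 / 2 * s ^ 2 * y) ≤ 0 := by
      have := hin 1
      rw [hval] at this
      exact this
    have i2 : 3 / 2 * s ^ 2 * (x + y) ≤ 3 / 2 * s ^ 2 := by
      have := hin 2
      rw [hval] at this
      exact this
    have i3 : -(s ^ 2 * z) ≤ 0 := by
      have := hin 3
      rw [hval] at this
      exact this
    have i4 : s ^ 2 * z ≤ s ^ 2 := by
      have := hin 4
      rw [hval] at this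
      exact this
    have x0 : 0 ≤ x := by
      by_contra h
      push Not at h
      nlinarith
    have y0 : 0 ≤ y := by
      by_contra h
      push Not at h
      nlinarith
    have xy : x + y ≤ 1 := by
      by_contra h
      push Not at h
      nlinarith
    have z0 : 0 ≤ z := by
      by_contra h
      push Not at h
      nlinarith
    have z1 : z ≤ 1 := by
      by_contra h
      push Not at h
      nlinarith
    rw [hvv]
    exact Pool.Agent.Work.MP_3892ce_gt.mem_prS x0 y0 xy z0 z1

theorem bounded_hull (A B : Fin 3 → E3) :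
    Bornology.IsBounded (convexHull ℝ (Set.range A ∪ Set.range B)) := by
  refine Bornology.IsBounded.subset ?_ Subset.rfl
  rw [isBounded_convexHull]
  exact ((Set.finite_range A).union (Set.finite_range B)).isBounded

theorem arch_int (hs : 0 < s) (hd : ∀ i j, i ≠ j → dist (a i) (a j) = s)
    (hu : ‖u‖ = s) (ho : ∀ i j, inner ℝ (a i - a j) u = (0 : ℝ)) :
    (interior (prS a u)).Nonempty := by
  have h2 := Pool.Agent.Work.MP_3892ce_gt.volume_para_le (a := a) (u := u)
  have hdet := Pool.Agent.Work.MP_3892ce_gt.det_arch hd hu ho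
  have hpos : 0 < |det3 (a 1 - a 0) (a 2 - a 0) u| := by
    rw [abs_pos]
    intro h0
    rw [h0] at hdet
    simp at hdet
    exact hs.ne' hdet
  have h3 : volume (prS a u) ≠ 0 := by
    intro h0
    rw [h0, mul_zero, nonpos_iff_eq_zero, ENNReal.ofReal_eq_zero] at h2
    linarith
  by_contra hne
  rw [not_nonempty_iff_eq_empty] at hne
  have h4 := (convex_convexHull ℝ (Set.range a ∪ Set.range fun i => a i + u)).addHaar_frontier
    (volume : Measure E3)
  apply h3
  refine measure_mono_null ?_ h4
  intro x hx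
  rw [frontier, mem_sdiff]
  refine ⟨subset_closure hx, ?_⟩
  have : interior (convexHull ℝ (Set.range a ∪ Set.range fun i => a i + u)) = ∅ := hne
  rw [this]
  exact notMem_empty x

end arch

theorem arch_isPoly {K : Set (E 3)} (h : IsArchPrism K) : IsPoly K := by
  obtain ⟨a, u, s, hs, hd, hu, ho, rfl⟩ := h
  refine ⟨bounded_hull a _, arch_int hs hd hu ho, 5, ?_⟩
  exact arch_HP hs hd hu ho

end Pool.Agent.Work.MP_3892ce_str
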