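import Pool.Agent.Work.MP_3892ce_str.Cut
import Pool.Agent.Work.MP_3892ce_str.Facet

/-! # Filling the cuts at a vertex which is not sharp does not increase the edge length
(helper15) -/

set_option autoImplicit false
set_option linter.unusedSectionVars false

open MeasureTheory Set
open scoped ENNReal Pointwise

namespace Pool.Agent.Work.MP_3892ce_str

open Pool.Agent.Work.MP_3892ce_static

variable {ι : Type} {n : ι → E 3} {b : ι → ℝ} {s : Fin 5 → ι} {μ : Fin 5 → ℝ} {F : ι → VV → ℝ}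
  {Λ : VV → ℝ} {v : VV}

/-- the corner of the facets `i`, `j`, `k` is not sharp -/
def NonSharp (n : ι → E 3) (i j k : ι) : Prop :=
  ∀ x y z : ℝ, 0 ≤ x → 0 ≤ y → 0 ≤ z → x + y + z ≤
    ‖x • nu n i j + y • nu n i k‖ + ‖x • nu n j i + z • nu n j k‖ +
      ‖y • nu n k i + z • nu n k j‖

/-- the three main facets through the vertex `v` -/
def f0 (v : VV) : Fin 5 := Fin.castAdd 3 (1 - v.1)

def f1 (v : VV) : Fin 5 := Fin.natAdd 2 (v.2 + 1)

def f2 (v : VV) : Fin 5 := Fin.natAdd 2 (v.2 + 2)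

theorem f_ne : ∀ v : VV, f0 v ≠ f1 v ∧ f0 v ≠ f2 v ∧ f1 v ≠ f2 v := by decide

theorem f_other : ∀ (v : VV) (j : Fin 5), j ≠ f0 v → j ≠ f1 v → j ≠ f2 v →
    j = Fin.castAdd 3 v.1 ∨ j = Fin.natAdd 2 v.2 := by decide

/-- the remaining facets -/
abbrev RI (s : Fin 5 → ι) (F : ι → VV → ℝ) (v : VV) : Type := {i : ι // i ∉ CS s F v}

/-- normals and support numbers of the filled polytope -/
def rn (n : ι → E 3) (s : Fin 5 → ι) (F : ι → VV → ℝ) (v : VV) (i : RI s F v) : E 3 := n i.1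

def rb (b : ι → ℝ) (s : Fin 5 → ι) (F : ι → VV → ℝ) (v : VV) (i : RI s F v) : ℝ := b i.1

theorem main_mem (s : Fin 5 → ι) (F : ι → VV → ℝ) (v : VV) (j : Fin 5) : s j ∉ CS s F v :=
  fun h => h.1 ⟨j, rfl⟩

theorem subset_fill : HP n b ⊆ HP (rn n s F v) (rb b s F v) := fun _ hx i => hx i.1

theorem inQ_of_fill {x : E 3} (hx : x ∈ HP (rn n s F v) (rb b s F v)) : InQ n b s x := by
  intro i
  have h1 : inner ℝ (n (s i)) x ≤ b (s i) := hx ⟨s i, main_mem s F v i⟩
  unfold sl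
  linarith

theorem Cuts.irr_fill [Finite ι] (hC : Cuts n b s μ F Λ) (hI : Irr n b) (hΛ : 0 < Λ v) :
    Irr (rn n s F v) (rb b s F v) where
  unit := fun i => hI.unit i.1
  int := by
    obtain ⟨x, hx⟩ := hI.int
    exact ⟨x, fun i => hx i.1⟩
  bdd := by
    have h1 : HP (rn n s F v) (rb b s F v) ⊆
        HP n b ∪ ⋃ k : CS s F v, {x : E 3 | InQ n b s x ∧ sl n b k.1 x ≤ 0} := by
      intro x hx
      by_cases h : ∀ k ∈ CS s F v, 0 ≤ sl n b k x
      · left
        intro k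
        by_cases hk : k ∈ CS s F v
        · have := h k hk
          unfold sl at this
          linarith
        · exact hx ⟨k, hk⟩
      · right
        push Not at h
        obtain ⟨k, hk, hk'⟩ := h
        exact mem_iUnion.2 ⟨⟨k, hk⟩, inQ_of_fill hx, hk'.le⟩
    refine Bornology.IsBounded.subset ?_ h1
    refine hI.bdd.union ?_
    exact Bornology.isBounded_iUnion.2 fun k => hC.bdd k.2.1 k.2.2 hΛ
  wit := by
    intro i
    obtain ⟨x, hx, hx'⟩ := hI.wit i.1
    exact ⟨x, hx, fun j hj => hx' j.1 fun h => hj (Subtype.ext h)⟩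

/-- points of the other facets are not cut off -/
theorem Cuts.keep (hC : Cuts n b s μ F Λ) (hI : Irr n b) {x : E 3}
    (hx : x ∈ HP (rn n s F v) (rb b s F v)) {i : ι} (hi : i ∉ CS s F v) (h0 : i ≠ s (f0 v))
    (h1 : i ≠ s (f1 v)) (h2 : i ≠ s (f2 v)) (hxi : inner ℝ (n i) x = b i) : x ∈ HP n b := by
  have hQ := inQ_of_fill hx
  intro k
  by_cases hk : k ∈ CS s F v
  · have hsl : sl n b i x = 0 := by
      unfold sl
      rw [hxi, sub_self]
    have key : 0 ≤ sl n b k x := by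
      by_cases hr : i ∈ Set.range s
      · obtain ⟨j, hj⟩ := hr
        refine hC.main hk.1 hk.2 hQ ?_
        have hj0 : j ≠ f0 v := fun h => h0 (by rw [← hj, h])
        have hj1 : j ≠ f1 v := fun h => h1 (by rw [← hj, h])
        have hj2 : j ≠ f2 v := fun h => h2 (by rw [← hj, h])
        unfold om
        rcases f_other v j hj0 hj1 hj2 with h | h
        · have : aa n b s μ v.1 x = 0 := by
            unfold aa
            rw [← h, hj, hsl, mul_zero]
          rw [this, zero_mul]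
        · have : cc n b s μ v.2 x = 0 := by
            unfold cc
            rw [← h, hj, hsl, mul_zero]
          rw [this, mul_zero]
      · obtain ⟨v', hv'⟩ := hC.exists_neg hI hr
        have hne : v ≠ v' := by
          rintro rfl
          exact hi ⟨hr, hv'⟩
        exact hC.disj hk.1 hr hne hk.2 hv' hQ hsl.le
    unfold sl at key
    linarith
  · exact hx ⟨k, hk⟩

section

variable [Fintype ι] [DecidableEq ι] [Fintype (RI s F v)]

theorem Cuts.face_fill (hC : Cuts n b s μ F Λ) (hI : Irr n b) (i j : RI s F v)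
    (h : (i.1 ≠ s (f0 v) ∧ i.1 ≠ s (f1 v) ∧ i.1 ≠ s (f2 v)) ∨
      (j.1 ≠ s (f0 v) ∧ j.1 ≠ s (f1 v) ∧ j.1 ≠ s (f2 v))) :
    Face (rn n s F v) (rb b s F v) i ∩ Face (rn n s F v) (rb b s F v) j =
      Face n b i.1 ∩ Face n b j.1 := by
  apply Subset.antisymm
  · rintro x ⟨⟨hx, hxi⟩, ⟨_, hxj⟩⟩
    have hmem : x ∈ HP n b := by
      rcases h with h | h
      · exact hC.keep hI hx i.2 h.1 h.2.1 h.2.2 hxi
      · exact hC.keep hI hx j.2 h.1 h.2.1 h.2.2 hxj
    exact ⟨⟨hmem, hxi⟩, ⟨hmem, hxj⟩⟩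
  · rintro x ⟨⟨hx, hxi⟩, ⟨_, hxj⟩⟩
    exact ⟨⟨subset_fill hx, hxi⟩, ⟨subset_fill hx, hxj⟩⟩

/-- gain of length -/
noncomputable def dd (n : ι → E 3) (b : ι → ℝ) (s : Fin 5 → ι) (F : ι → VV → ℝ) (v : VV)
    (i j : RI s F v) : ℝ := len (rn n s F v) (rb b s F v) i j - len n b i.1 j.1

omit [Fintype ι] [Fintype (RI s F v)] in
theorem dd_self (i : RI s F v) : dd n b s F v i i = 0 := by
  unfold dd len
  rw [if_pos rfl, if_pos rfl, sub_zero]

omit [Fintype ι] [Fintype (RI s F v)] in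
theorem dd_symm (i j : RI s F v) : dd n b s F v i j = dd n b s F v j i := by
  have h : ∀ {κ : Type} [DecidableEq κ] (m : κ → E 3) (c : κ → ℝ) (i j : κ),
      len m c i j = len m c j i := by
    intro κ _ m c i j
    unfold len
    by_cases h : i = j
    · rw [if_pos h, if_pos h.symm]
    · rw [if_neg h, if_neg (fun h' => h h'.symm), inter_comm]
  unfold dd
  rw [h (rn n s F v), h n]

theorem Cuts.dd_nonneg (hC : Cuts n b s μ F Λ) (hI : Irr n b) (hΛ : 0 < Λ v) (i j : RI s F v) :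
    0 ≤ dd n b s F v i j := by
  unfold dd len
  by_cases h : i = j
  · rw [if_pos h, if_pos (congrArg Subtype.val h), sub_zero]
  · rw [if_neg h, if_neg fun h' => h (Subtype.ext h'), sub_nonneg]
    refine Metric.diam_mono ?_ ((hC.irr_fill hI hΛ).bdd.subset fun x hx => hx.1.1)
    rintro x ⟨⟨hx, hxi⟩, ⟨_, hxj⟩⟩
    exact ⟨⟨subset_fill hx, hxi⟩, ⟨subset_fill hx, hxj⟩⟩

theorem Cuts.dd_zero (hC : Cuts n b s μ F Λ) (hI : Irr n b) (i j : RI s F v)
    (h : (i.1 ≠ s (f0 v) ∧ i.1 ≠ s (f1 v) ∧ i.1 ≠ s (f2 v)) ∨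
      (j.1 ≠ s (f0 v) ∧ j.1 ≠ s (f1 v) ∧ j.1 ≠ s (f2 v))) : dd n b s F v i j = 0 := by
  unfold dd len
  by_cases h' : i = j
  · rw [if_pos h', if_pos (congrArg Subtype.val h'), sub_zero]
  · rw [if_neg h', if_neg fun h'' => h' (Subtype.ext h''), hC.face_fill hI i j h, sub_self]

open Classical in
/-- the facets which cut the vertex `v`, as a finite set -/
noncomputable def CF {ι : Type} [Fintype ι] (s : Fin 5 → ι) (F : ι → VV → ℝ) (v : VV) : Finset ι :=
  Finset.univ.filter (fun k => ¬ k ∉ CS s F v)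

/-- splitting a sum -/
theorem split_sum {A : Type*} [AddCommMonoid A] (g : ι → A) :
    ∑ j, g j = ∑ j : RI s F v, g j.1 +
      ∑ k ∈ CF s F v, g k := by
  classical
  rw [← Finset.sum_filter_add_sum_filter_not Finset.univ (fun k => k ∉ CS s F v)]
  have h1 : ∑ x ∈ Finset.univ.filter (fun k => k ∉ CS s F v), g x = ∑ j : RI s F v, g j.1 :=
    Finset.sum_subtype _ (fun x => by simp) g
  rw [h1]
  unfold CF
  congr 1

theorem sum_three {κ : Type} [Fintype κ] [DecidableEq κ] {A : Type*} [AddCommMonoid A]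
    {a c d : κ} (h1 : a ≠ c) (h2 : a ≠ d) (h3 : c ≠ d) (g : κ → A)
    (h : ∀ x, x ≠ a → x ≠ c → x ≠ d → g x = 0) : ∑ x, g x = g a + g c + g d := by
  have e1 : ∑ x ∈ ({a, c, d} : Finset κ), g x = ∑ x, g x := by
    refine Finset.sum_subset (Finset.subset_univ _) fun x _ hx => ?_
    simp only [Finset.mem_insert, Finset.mem_singleton, not_or] at hx
    exact h x hx.1 hx.2.1 hx.2.2
  rw [← e1, Finset.sum_insert (by simp [h1, h2]), Finset.sum_insert (by simp [h3]),
    Finset.sum_singleton, add_assoc]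

omit [Fintype ι] [DecidableEq ι] in
theorem norm_nu_le (n : ι → E 3) (i j : ι) : ‖nu n i j‖ ≤ 1 := by
  unfold nu
  rw [norm_smul, norm_inv, norm_norm]
  by_cases h : ‖wv n i j‖ = 0
  · rw [h, mul_zero]
    exact zero_le_one
  · rw [inv_mul_cancel₀ h]

/-- the cut off part of a facet at the vertex -/
theorem Cuts.row (hFR2 : Stmt_FR2) (hFR1 : Stmt_FR1) (hLEN : Stmt_LEN)
    (hC : Cuts n b s μ F Λ) (hI : Irr n b) (hΛ : 0 < Λ v) (i j k : RI s F v) (hij : i ≠ j)
    (hik : i ≠ k) (hjk : j ≠ k)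
    (hT : ∀ x : RI s F v, x ≠ i → x ≠ j → x ≠ k →
      x.1 ≠ s (f0 v) ∧ x.1 ≠ s (f1 v) ∧ x.1 ≠ s (f2 v)) :
    ‖dd n b s F v i j • nu n i.1 j.1 + dd n b s F v i k • nu n i.1 k.1‖ ≤
      ∑ m ∈ CF s F v, len n b i.1 m := by
  have c1 := close_facet hFR2 hFR1 hLEN hI i.1
  have c2 := close_facet hFR2 hFR1 hLEN (hC.irr_fill hI hΛ) i
  rw [split_sum (s := s) (F := F) (v := v)] at c1
  have e1 : ∑ x : RI s F v, len (rn n s F v) (rb b s F v) i x • nu (rn n s F v) i x =
      ∑ x : RI s F v, len n b i.1 x.1 • nu n i.1 x.1 +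
      ∑ x : RI s F v, dd n b s F v i x • nu n i.1 x.1 := by
    rw [← Finset.sum_add_distrib]
    refine Finset.sum_congr rfl fun x _ => ?_
    rw [← add_smul]
    unfold dd
    rw [add_sub_cancel]
    rfl
  have e2 : ∑ x : RI s F v, dd n b s F v i x • nu n i.1 x.1 =
      dd n b s F v i i • nu n i.1 i.1 + dd n b s F v i j • nu n i.1 j.1 +
        dd n b s F v i k • nu n i.1 k.1 := by
    refine sum_three hij hik hjk _ fun x h1 h2 h3 => ?_
    rw [hC.dd_zero hI i x (Or.inr (hT x h1 h2 h3)), zero_smul]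
  rw [dd_self, zero_smul, zero_add] at e2
  rw [e1, e2] at c2
  have e3 : dd n b s F v i j • nu n i.1 j.1 + dd n b s F v i k • nu n i.1 k.1 =
      ∑ m ∈ CF s F v, len n b i.1 m • nu n i.1 m := by
    exact add_left_cancel (c2.trans c1.symm)
  rw [e3]
  refine (norm_sum_le _ _).trans (Finset.sum_le_sum fun m _ => ?_)
  rw [norm_smul, Real.norm_eq_abs, abs_of_nonneg (len_nonneg n b i.1 m)]
  have h1 := norm_nu_le n i.1 m
  have h2 := len_nonneg n b i.1 m
  calc len n b i.1 m * ‖nu n i.1 m‖ ≤ len n b i.1 m * 1 := mul_le_mul_of_nonneg_left h1 h2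
    _ = _ := mul_one _

/-- FILL: filling the cuts at a vertex which is not sharp -/
theorem Cuts.fill (hFR2 : Stmt_FR2) (hFR1 : Stmt_FR1) (hLEN : Stmt_LEN)
    (hC : Cuts n b s μ F Λ) (hI : Irr n b) (hΛ : 0 < Λ v)
    (hns : NonSharp n (s (f0 v)) (s (f1 v)) (s (f2 v))) :
    L (rn n s F v) (rb b s F v) ≤ L n b := by
  set I0 : RI s F v := ⟨s (f0 v), main_mem s F v _⟩ with hI0
  set I1 : RI s F v := ⟨s (f1 v), main_mem s F v _⟩ with hI1
  set I2 : RI s F v := ⟨s (f2 v), main_mem s F v _⟩ with hI2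
  obtain ⟨g01, g02, g12⟩ := f_ne v
  have n01 : I0 ≠ I1 := fun h => g01 (hC.inj (congrArg Subtype.val h))
  have n02 : I0 ≠ I2 := fun h => g02 (hC.inj (congrArg Subtype.val h))
  have n12 : I1 ≠ I2 := fun h => g12 (hC.inj (congrArg Subtype.val h))
  have hT : ∀ x : RI s F v, x ≠ I0 → x ≠ I1 → x ≠ I2 →
      x.1 ≠ s (f0 v) ∧ x.1 ≠ s (f1 v) ∧ x.1 ≠ s (f2 v) := fun x h0 h1 h2 =>
    ⟨fun h => h0 (Subtype.ext h), fun h => h1 (Subtype.ext h), fun h => h2 (Subtype.ext h)⟩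
  have r0 := hC.row hFR2 hFR1 hLEN hI hΛ I0 I1 I2 n01 n02 n12 hT
  have r1 := hC.row hFR2 hFR1 hLEN hI hΛ I1 I0 I2 n01.symm n12 n02
    fun x h1 h0 h2 => hT x h0 h1 h2
  have r2 := hC.row hFR2 hFR1 hLEN hI hΛ I2 I0 I1 n02.symm n12.symm n01
    fun x h2 h0 h1 => hT x h0 h1 h2
  rw [dd_symm I1 I0] at r1
  rw [dd_symm I2 I0, dd_symm I2 I1] at r2
  have hx := hC.dd_nonneg hI hΛ I0 I1
  have hy := hC.dd_nonneg hI hΛ I0 I2
  have hz := hC.dd_nonneg hI hΛ I1 I2
  have hmain := hns _ _ _ hx hy hz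
  -- the sums
  set C := CF s F v with hCd
  have s1 : ∑ i : RI s F v, ∑ j : RI s F v, len (rn n s F v) (rb b s F v) i j =
      ∑ i : RI s F v, ∑ j : RI s F v, len n b i.1 j.1 +
        ∑ i : RI s F v, ∑ j : RI s F v, dd n b s F v i j := by
    rw [← Finset.sum_add_distrib]
    refine Finset.sum_congr rfl fun i _ => ?_
    rw [← Finset.sum_add_distrib]
    refine Finset.sum_congr rfl fun j _ => ?_
    unfold dd
    ring
  have row : ∀ i : RI s F v, ∑ j : RI s F v, dd n b s F v i j =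
      dd n b s F v i I0 + dd n b s F v i I1 + dd n b s F v i I2 := by
    intro i
    exact sum_three n01 n02 n12 _ fun x h0 h1 h2 => hC.dd_zero hI i x (Or.inr (hT x h0 h1 h2))
  have s2 : ∑ i : RI s F v, ∑ j : RI s F v, dd n b s F v i j =
      2 * (dd n b s F v I0 I1 + dd n b s F v I0 I2 + dd n b s F v I1 I2) := by
    rw [sum_three n01 n02 n12 (fun i => ∑ j : RI s F v, dd n b s F v i j) fun x h0 h1 h2 => by
      refine Finset.sum_eq_zero fun j _ => hC.dd_zero hI x j (Or.inl (hT x h0 h1 h2))]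
    rw [row, row, row, dd_self, dd_self, dd_self, dd_symm I1 I0, dd_symm I2 I0, dd_symm I2 I1]
    ring
  have s3 : ∑ i, ∑ j, len n b i j = (∑ i : RI s F v, ∑ j : RI s F v, len n b i.1 j.1 +
      ∑ i : RI s F v, ∑ k ∈ C, len n b i.1 k) +
      (∑ k ∈ C, ∑ i : RI s F v, len n b k i.1 + ∑ k ∈ C, ∑ k' ∈ C, len n b k k') := by
    rw [split_sum (s := s) (F := F) (v := v) (fun i => ∑ j, len n b i j)]
    congr 1
    · rw [← Finset.sum_add_distrib]
      exact Finset.sum_congr rfl fun i _ => split_sum (s := s) (F := F) (v := v) _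
    · rw [← Finset.sum_add_distrib]
      exact Finset.sum_congr rfl fun i _ => split_sum (s := s) (F := F) (v := v) _
  have s4 : ∑ k ∈ C, ∑ i : RI s F v, len n b k i.1 = ∑ i : RI s F v, ∑ k ∈ C, len n b i.1 k := by
    rw [Finset.sum_comm]
    refine Finset.sum_congr rfl fun i _ => Finset.sum_congr rfl fun k _ => ?_
    unfold len
    by_cases h : k = i.1
    · rw [if_pos h, if_pos h.symm]
    · rw [if_neg h, if_neg (fun h' => h h'.symm), inter_comm]
  have s5 : 0 ≤ ∑ k ∈ C, ∑ k' ∈ C, len n b k k' :=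
    Finset.sum_nonneg fun k _ => Finset.sum_nonneg fun k' _ => len_nonneg n b k k'
  have s6 : ∑ k ∈ C, len n b I0.1 k + ∑ k ∈ C, len n b I1.1 k + ∑ k ∈ C, len n b I2.1 k ≤
      ∑ i : RI s F v, ∑ k ∈ C, len n b i.1 k := by
    have e1 : ∑ i ∈ ({I0, I1, I2} : Finset (RI s F v)), ∑ k ∈ C, len n b i.1 k ≤
        ∑ i : RI s F v, ∑ k ∈ C, len n b i.1 k :=
      Finset.sum_le_sum_of_subset_of_nonneg (Finset.subset_univ _) fun i _ _ =>
        Finset.sum_nonneg fun k _ => len_nonneg n b i.1 k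
    rw [Finset.sum_insert (by simp [n01, n02]), Finset.sum_insert (by simp [n12]),
      Finset.sum_singleton] at e1
    linarith
  unfold L
  rw [s1, s2, s3, s4]
  linarith

end

end Pool.Agent.Work.MP_3892ce_str
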