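import Pool.Agent.Work.MP_3892ce_str.Fill
import Pool.Agent.Work.MP_3892ce_static.Interface2

/-! # Filling all vertices: the statement `Stmt_FILL` (helper15) -/

set_option autoImplicit false

open MeasureTheory Set
open scoped ENNReal Pointwise

namespace Pool.Agent.Work.MP_3892ce_str

open Pool.Agent.Work.MP_3892ce_static (E HP Face len L Irr Adj Frame Stmt_FR1 Stmt_FR2 Stmt_LEN
  Stmt_FILL NinePairs)

variable {ι : Type} {n : ι → E 3} {b : ι → ℝ} {s : Fin 5 → ι} {μ : Fin 5 → ℝ} {F : ι → VV → ℝ}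
  {Λ : VV → ℝ} {v : VV}

/-- a nonzero vector orthogonal to two given vectors -/
theorem exists_orth (x y : E 3) : ∃ d : E 3, d ≠ 0 ∧ inner ℝ x d = 0 ∧ inner ℝ y d = 0 := by
  let f : E 3 →ₗ[ℝ] ℝ × ℝ := LinearMap.prod (innerₛₗ ℝ x) (innerₛₗ ℝ y)
  have h1 : Module.finrank ℝ (ℝ × ℝ) < Module.finrank ℝ (E 3) := by simp
  have h2 := LinearMap.ker_ne_bot_of_finrank_lt (f := f) h1
  obtain ⟨d, hd, hd0⟩ := (Submodule.ne_bot_iff _).1 h2
  have h3 : f d = 0 := hd
  refine ⟨d, hd0, ?_, ?_⟩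
  · exact congrArg Prod.fst h3
  · exact congrArg Prod.snd h3

theorem sl_line (k : ι) (x d : E 3) (τ : ℝ) :
    sl n b k (x + τ • d) = sl n b k x + τ * (- inner ℝ (n k) d) := by
  unfold sl
  rw [inner_add_right, inner_smul_right]
  ring

/-- if the intersection of the main half-spaces is bounded, then all vertices are at finite
distance -/
theorem Cuts.finite_vertex (hC : Cuts n b s μ F Λ) (hB : Bornology.IsBounded {x | InQ n b s x})
    (v : VV) : 0 < Λ v := by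
  by_contra hcon
  push Not at hcon
  obtain ⟨e, l⟩ := v
  have hne : ∀ (e : Fin 2) (l : Fin 3), ((e, l) : VV) ≠ (e, l + 1) := by decide
  have hΛ' : 0 < Λ (e, l + 1) := by
    by_contra h
    exact hne e l (two_pos hC.str hC.inj hC.adj hC.valL one_pos' hcon (not_lt.1 h))
  have hall : ∀ (e : Fin 2) (l : Fin 3), (Fin.castAdd 3 (1 - e) : Fin 5) ≠
      Fin.natAdd 2 (l + 2) ∧
      ¬ ((Fin.castAdd 3 (1 - e) : Fin 5) = 0 ∧ (Fin.natAdd 2 (l + 2) : Fin 5) = 1) ∧
      ¬ ((Fin.castAdd 3 (1 - e) : Fin 5) = 1 ∧ (Fin.natAdd 2 (l + 2) : Fin 5) = 0) := by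
    decide
  obtain ⟨q1, q2, q3⟩ := hall e l
  obtain ⟨_, x, hx1, hx2, hx3⟩ := hC.adj _ _ q1 q2 q3
  have hall2 : ∀ (e : Fin 2) (l : Fin 3),
      ((Fin.castAdd 3 e : Fin 5) ≠ Fin.castAdd 3 (1 - e) ∧
        (Fin.castAdd 3 e : Fin 5) ≠ Fin.natAdd 2 (l + 2)) ∧
      ((Fin.natAdd 2 l : Fin 5) ≠ Fin.castAdd 3 (1 - e) ∧
        (Fin.natAdd 2 l : Fin 5) ≠ Fin.natAdd 2 (l + 2)) ∧
      ((Fin.natAdd 2 (l + 1) : Fin 5) ≠ Fin.castAdd 3 (1 - e) ∧
        (Fin.natAdd 2 (l + 1) : Fin 5) ≠ Fin.natAdd 2 (l + 2)) := by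
    decide
  obtain ⟨r1, r2, r3⟩ := hall2 e l
  have P := hC.str.pos
  have s1 := slack_pos hC.inj r1.1 r1.2 hx3
  have s2 := slack_pos hC.inj r2.1 r2.2 hx3
  have s3 := slack_pos hC.inj r3.1 r3.2 hx3
  obtain ⟨d, hd0, hd1, hd2⟩ := exists_orth (n (s (Fin.castAdd 3 (1 - e))))
    (n (s (Fin.natAdd 2 (l + 2))))
  -- slopes
  set p := μ (Fin.natAdd 2 l) * (- inner ℝ (n (s (Fin.natAdd 2 l))) d) with hp
  set p' := μ (Fin.natAdd 2 (l + 1)) * (- inner ℝ (n (s (Fin.natAdd 2 (l + 1)))) d) with hp'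
  have a1 : ∀ τ : ℝ, aa n b s μ (1 - e) (x + τ • d) = 0 := by
    intro τ
    unfold aa
    rw [sl_line, hd1]
    unfold sl
    rw [hx1]
    ring
  have c2 : ∀ τ : ℝ, cc n b s μ (l + 2) (x + τ • d) = 0 := by
    intro τ
    unfold cc
    rw [sl_line, hd2]
    unfold sl
    rw [hx2]
    ring
  have c0 : ∀ τ : ℝ, cc n b s μ l (x + τ • d) = cc n b s μ l x + τ * p := by
    intro τ
    unfold cc
    rw [sl_line]
    ring
  have c1 : ∀ τ : ℝ, cc n b s μ (l + 1) (x + τ • d) = cc n b s μ (l + 1) x + τ * p' := by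
    intro τ
    unfold cc
    rw [sl_line]
    ring
  set u := cc n b s μ l x with hu
  set u' := cc n b s μ (l + 1) x with hu'
  have u0 : 0 < u := mul_pos (P _) s2
  have u0' : 0 < u' := mul_pos (P _) s3
  have hN1 : ∀ τ : ℝ, NN n b s μ (x + τ • d) = aa n b s μ e (x + τ • d) := by
    intro τ
    unfold NN
    rw [sum2 e, a1, add_zero]
  have hN2 : ∀ τ : ℝ, NN n b s μ (x + τ • d) = u + τ * p + (u' + τ * p') := by
    intro τ
    unfold NN
    rw [hC.str.rel, sum3' l, c0, c1, c2, add_zero]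
  have hval : ∀ τ : ℝ, (u + τ * p + (u' + τ * p')) *
      ((u + τ * p) * Λ (e, l) + (u' + τ * p') * Λ (e, l + 1) - 1) = 0 := by
    intro τ
    have h := hC.valL.val (x + τ • d)
    rw [Fintype.sum_prod_type, sum2 e, sum3' l, sum3' l] at h
    unfold om at h
    simp only at h
    rw [a1, c0, c1, c2, ← hN1, hN2] at h
    linear_combination (-1 : ℝ) * h
  have h1 : u * Λ (e, l) + u' * Λ (e, l + 1) = 1 := by
    have h := hval 0
    simp only [zero_mul, add_zero] at h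
    rcases mul_eq_zero.1 h with h | h
    · linarith
    · linarith
  have h2 : p * Λ (e, l) + p' * Λ (e, l + 1) = 0 := by
    have e1 := hval 1
    have e2 := hval (-1)
    have e1' : (u + p + (u' + p')) * (p * Λ (e, l) + p' * Λ (e, l + 1)) = 0 := by
      linear_combination e1 - (u + p + (u' + p')) * h1
    have e2' : (u - p + (u' - p')) * (p * Λ (e, l) + p' * Λ (e, l + 1)) = 0 := by
      linear_combination (-1 : ℝ) * e2 + (u - p + (u' - p')) * h1
    rcases mul_eq_zero.1 e1' with h | h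
    · rcases mul_eq_zero.1 e2' with h' | h'
      · linarith
      · exact h'
    · exact h
  -- a ray in `Q`
  have ray : ∀ σ : ℝ, 0 ≤ σ * p → σ * p' ≥ 0 → ∀ τ : ℝ, 0 ≤ τ → InQ n b s (x + (τ * σ) • d) := by
    intro σ hσ hσ' τ hτ
    have b0 : 0 ≤ cc n b s μ l (x + (τ * σ) • d) := by
      rw [c0, mul_assoc]
      positivity
    have b1 : 0 ≤ cc n b s μ (l + 1) (x + (τ * σ) • d) := by
      rw [c1, mul_assoc]
      have : 0 ≤ τ * (σ * p') := mul_nonneg hτ hσ'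
      linarith
    have b2 : 0 ≤ aa n b s μ e (x + (τ * σ) • d) := by
      rw [← hN1, hN2, ← c0, ← c1]
      linarith
    have b3 : 0 ≤ aa n b s μ (1 - e) (x + (τ * σ) • d) := (a1 _).symm.le
    have b4 : 0 ≤ cc n b s μ (l + 2) (x + (τ * σ) • d) := (c2 _).symm.le
    have hcase : ∀ (e : Fin 2) (l : Fin 3) (i : Fin 5), i = Fin.castAdd 3 e ∨
        i = Fin.castAdd 3 (1 - e) ∨ i = Fin.natAdd 2 l ∨ i = Fin.natAdd 2 (l + 1) ∨
        i = Fin.natAdd 2 (l + 2) := by decide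
    intro i
    rcases hcase e l i with rfl | rfl | rfl | rfl | rfl
    · exact nonneg_of_mul_nonneg_right b2 (P _)
    · exact nonneg_of_mul_nonneg_right b3 (P _)
    · exact nonneg_of_mul_nonneg_right b0 (P _)
    · exact nonneg_of_mul_nonneg_right b1 (P _)
    · exact nonneg_of_mul_nonneg_right b4 (P _)
  have hexσ : ∃ σ : ℝ, (σ = 1 ∨ σ = -1) ∧ 0 ≤ σ * p ∧ 0 ≤ σ * p' := by
    have key : 0 ≤ p * p' := by
      have h3 : p * p' * Λ (e, l + 1) = - (p * p * Λ (e, l)) := by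
        linear_combination p * h2
      have h4 : 0 ≤ p * p' * Λ (e, l + 1) := by
        rw [h3]
        nlinarith [mul_self_nonneg p]
      exact nonneg_of_mul_nonneg_left h4 hΛ'
    have hz : p = 0 → p' = 0 := by
      intro h
      rw [h, zero_mul, zero_add] at h2
      exact (mul_eq_zero.1 h2).resolve_right hΛ'.ne'
    rcases lt_trichotomy p 0 with h | h | h
    · refine ⟨-1, Or.inr rfl, by linarith, ?_⟩
      nlinarith
    · rw [hz h, h]
      exact ⟨1, Or.inl rfl, by norm_num, by norm_num⟩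
    · refine ⟨1, Or.inl rfl, by linarith, ?_⟩
      nlinarith
  obtain ⟨σ, hσ1, hσ, hσ'⟩ := hexσ
  have hR := ray σ hσ hσ'
  obtain ⟨R, hR'⟩ := isBounded_iff_forall_norm_le.1 hB
  have hdn : 0 < ‖d‖ := norm_pos_iff.2 hd0
  have hR0 : 0 ≤ R := (norm_nonneg _).trans (hR' _ (hR 0 le_rfl))
  set τ := (R + ‖x‖ + 1) / ‖d‖ with hτ
  have hτ0 : 0 ≤ τ := by positivity
  have h5 := hR' _ (hR τ hτ0)
  have h6 : ‖(τ * σ) • d‖ = R + ‖x‖ + 1 := by
    rw [norm_smul, Real.norm_eq_abs, abs_mul, abs_of_nonneg hτ0]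
    have : |σ| = 1 := by
      rcases hσ1 with h | h <;> rw [h] <;> norm_num
    rw [this, mul_one, hτ, div_mul_cancel₀ _ hdn.ne']
  have h7 : ‖(τ * σ) • d‖ ≤ ‖x + (τ * σ) • d‖ + ‖x‖ := by
    have : (τ * σ) • d = (x + (τ * σ) • d) - x := by abel
    nth_rw 1 [this]
    exact norm_sub_le _ _
  linarith

section reindex

variable {κ : Type}

theorem HP_comp {d : ℕ} {ι κ : Type} (n : ι → E d) (b : ι → ℝ) {f : κ → ι}
    (hf : Function.Surjective f) : HP (fun k => n (f k)) (fun k => b (f k)) = HP n b := by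
  ext x
  constructor
  · intro hx i
    obtain ⟨k, rfl⟩ := hf i
    exact hx k
  · intro hx k
    exact hx _

theorem len_comp [DecidableEq ι] [DecidableEq κ] (n : ι → E 3) (b : ι → ℝ) (e : κ ≃ ι) (i j : κ) :
    len (fun k => n (e k)) (fun k => b (e k)) i j = len n b (e i) (e j) := by
  have hF : ∀ i, Face (fun k => n (e k)) (fun k => b (e k)) i = Face n b (e i) := by
    intro i
    unfold Face
    rw [HP_comp n b e.surjective]
  unfold len
  rw [hF, hF]
  by_cases h : i = j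
  · rw [if_pos h, if_pos (congrArg e h)]
  · rw [if_neg h, if_neg fun h' => h (e.injective h')]

theorem L_comp [Fintype ι] [DecidableEq ι] [Fintype κ] [DecidableEq κ] (n : ι → E 3) (b : ι → ℝ)
    (e : κ ≃ ι) : L (fun k => n (e k)) (fun k => b (e k)) = L n b := by
  unfold L
  congr 1
  rw [← Equiv.sum_comp e]
  refine Finset.sum_congr rfl fun i _ => ?_
  rw [← Equiv.sum_comp e]
  exact Finset.sum_congr rfl fun j _ => len_comp n b e i j

theorem Irr_comp (n : ι → E 3) (b : ι → ℝ) (e : κ ≃ ι) (h : Irr n b) :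
    Irr (fun k => n (e k)) (fun k => b (e k)) where
  unit := fun k => h.unit _
  int := by
    obtain ⟨x, hx⟩ := h.int
    exact ⟨x, fun k => hx _⟩
  bdd := by
    rw [HP_comp n b e.surjective]
    exact h.bdd
  wit := by
    intro k
    obtain ⟨x, hx, hx'⟩ := h.wit (e k)
    exact ⟨x, hx, fun j hj => hx' _ fun h' => hj (e.injective h')⟩

end reindex

/-- the structure of the filled polytope -/
theorem Cuts.restrict (hC : Cuts n b s μ F Λ) (v : VV) :
    Cuts (rn n s F v) (rb b s F v) (fun i => ⟨s i, main_mem s F v i⟩) μ (fun k => F k.1) Λ where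
  str := ⟨hC.str.pos, hC.str.rel, hC.str.rep⟩
  inj := fun i j h => hC.inj (congrArg Subtype.val h)
  adj := by
    intro i j h1 h2 h3
    obtain ⟨hne, x, hx1, hx2, hx3⟩ := hC.adj i j h1 h2 h3
    refine ⟨fun h => hne (congrArg Subtype.val h), x, hx1, hx2, fun k hk hk' => ?_⟩
    exact hx3 k.1 (fun h => hk (Subtype.ext h)) (fun h => hk' (Subtype.ext h))
  valF := fun k => ⟨(hC.valF k.1).add, (hC.valF k.1).val⟩
  valL := ⟨hC.valL.add, hC.valL.val⟩

/-- filling all vertices -/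
theorem Cuts.fill_all (hFR2 : Stmt_FR2) (hFR1 : Stmt_FR1) (hLEN : Stmt_LEN) : ∀ (N : ℕ)
    (ι : Type) [Fintype ι] [DecidableEq ι] (n : ι → E 3) (b : ι → ℝ) (s : Fin 5 → ι)
    (μ : Fin 5 → ℝ) (F : ι → VV → ℝ) (Λ : VV → ℝ), Fintype.card ι = N → Cuts n b s μ F Λ →
    Irr n b → (∀ v, 0 < Λ v) →
    Irr (fun k => n (s k)) (fun k => b (s k)) ∧
    ((∀ v, NonSharp n (s (f0 v)) (s (f1 v)) (s (f2 v))) →
      L (fun k => n (s k)) (fun k => b (s k)) ≤ L n b) := by
  intro N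
  induction N using Nat.strong_induction_on with
  | _ N ih =>
  intro ι _ _ n b s μ F Λ hN hC hI hΛ
  classical
  by_cases hk : ∃ k, k ∉ Set.range s
  · obtain ⟨k, hk⟩ := hk
    obtain ⟨v, hv⟩ := hC.exists_neg hI hk
    have hI' := hC.irr_fill (v := v) hI (hΛ v)
    have hcard : Fintype.card (RI s F v) < N := by
      rw [← hN]
      exact Fintype.card_subtype_lt (x := k) (not_not.2 ⟨hk, hv⟩)
    obtain ⟨h1, h2⟩ := ih _ hcard (RI s F v) (rn n s F v) (rb b s F v) _ μ _ Λ rfl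
      (hC.restrict v) hI' hΛ
    refine ⟨h1, fun hns => ?_⟩
    exact (h2 hns).trans (hC.fill hFR2 hFR1 hLEN hI (hΛ v) (hns v))
  · push Not at hk
    have hbij : Function.Bijective s := ⟨hC.inj, fun k => hk k⟩
    have e1 := Irr_comp n b (Equiv.ofBijective s hbij) hI
    have e2 := L_comp n b (Equiv.ofBijective s hbij)
    exact ⟨e1, fun _ => le_of_eq e2⟩

/-- the numbering of the interface -/
def pp : Fin 5 → Fin 5 := ![3, 4, 0, 1, 2]

def ppE : Fin 5 ≃ Fin 5 := ⟨pp, ![2, 3, 4, 0, 1], by decide, by decide⟩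

theorem nuU {n : ι → E 3} {U : ι → (E 2 →ₗᵢ[ℝ] E 3)} (hU : ∀ i, Frame (n i) (U i)) (i j : ι) :
    U i (Pool.Agent.Work.MP_3892ce_static.nu n U i j) = nu n i j := U_nuc (hU i) j

theorem norm_comb {n : ι → E 3} {U : ι → (E 2 →ₗᵢ[ℝ] E 3)} (hU : ∀ i, Frame (n i) (U i))
    (i j k : ι) (x y : ℝ) :
    ‖x • Pool.Agent.Work.MP_3892ce_static.nu n U i j +
      y • Pool.Agent.Work.MP_3892ce_static.nu n U i k‖ = ‖x • nu n i j + y • nu n i k‖ := by
  rw [← (U i).norm_map, map_add, map_smul, map_smul, nuU hU, nuU hU]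

theorem stmt_FILL (hFR2 : Stmt_FR2) (hFR1 : Stmt_FR1) (hLEN : Stmt_LEN) : Stmt_FILL := by
  intro ι _ _ n b U hU hI m hm hN hB
  have hs : Function.Injective (fun k => m (pp k)) := hm.comp (by decide)
  have hA : PAdj n b (fun k => m (pp k)) := by
    intro i j hij h1 h2
    have key : ∀ i j : Fin 5, i ≠ j → ¬ (i = 0 ∧ j = 1) → ¬ (i = 1 ∧ j = 0) →
        (pp i < pp j ∧ ¬ (pp i = 3 ∧ pp j = 4)) ∨ (pp j < pp i ∧ ¬ (pp j = 3 ∧ pp i = 4)) := by
      decide
    rcases key i j hij h1 h2 with ⟨h3, h4⟩ | ⟨h3, h4⟩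
    · exact hN _ _ h3 h4
    · obtain ⟨g1, x, g2, g3, g4⟩ := hN _ _ h3 h4
      exact ⟨g1.symm, x, g3, g2, fun k hk hk' => g4 k hk' hk⟩
  obtain ⟨μ, F, Λ, hC⟩ := exists_cuts hs hA
  have hB' : Bornology.IsBounded {x | InQ n b (fun k => m (pp k)) x} := by
    refine hB.subset fun x hx k => ?_
    have h1 := hx (ppE.symm k)
    have h2 : pp (ppE.symm k) = k := ppE.apply_symm_apply k
    unfold sl at h1
    simp only [h2] at h1
    linarith
  obtain ⟨h1, h2⟩ := Cuts.fill_all hFR2 hFR1 hLEN _ ι n b _ μ F Λ rfl hC hI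
    (hC.finite_vertex hB')
  have e1 := Irr_comp _ _ ppE.symm h1
  have e2 := L_comp (fun k => n (m (pp k))) (fun k => b (m (pp k))) ppE.symm
  have e3 : ∀ k, pp (ppE.symm k) = k := fun k => ppE.apply_symm_apply k
  simp only [e3] at e1 e2
  refine ⟨e1, ?_⟩
  by_cases hns : ∀ v, NonSharp n (m (pp (f0 v))) (m (pp (f1 v))) (m (pp (f2 v)))
  · left
    rw [e2]
    exact h2 hns
  right
  push Not at hns
  obtain ⟨v, hv⟩ := hns
  unfold NonSharp at hv
  push Not at hv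
  obtain ⟨x, y, z, hx, hy, hz, hlt⟩ := hv
  have key : ∀ v : VV, (pp (f0 v) = 3 ∨ pp (f0 v) = 4) ∧ pp (f1 v) ≤ 2 ∧ pp (f2 v) ≤ 2 ∧
      (pp (f1 v) < pp (f2 v) ∨ pp (f2 v) < pp (f1 v)) := by decide
  obtain ⟨k1, k2, k3, k4⟩ := key v
  rcases k4 with k4 | k4
  · refine ⟨pp (f0 v), pp (f1 v), pp (f2 v), k1, k4, k3, z, x, y, hz, hx, hy, ?_⟩
    rw [norm_comb hU, norm_comb hU, norm_comb hU]
    rw [add_comm (z • nu n (m (pp (f1 v))) (m (pp (f2 v)))),
      add_comm (z • nu n (m (pp (f2 v))) (m (pp (f1 v))))]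
    linarith
  · refine ⟨pp (f0 v), pp (f2 v), pp (f1 v), k1, k4, k2, z, y, x, hz, hy, hx, ?_⟩
    rw [norm_comb hU, norm_comb hU, norm_comb hU]
    rw [add_comm (z • nu n (m (pp (f1 v))) (m (pp (f2 v)))),
      add_comm (z • nu n (m (pp (f2 v))) (m (pp (f1 v)))),
      add_comm (y • nu n (m (pp (f0 v))) (m (pp (f2 v))))]
    linarith

end Pool.Agent.Work.MP_3892ce_str
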