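import Pool.Agent.Work.MP_3892ce_str.Core
import Pool.Agent.Work.MP_3892ce_static.IRR

/-! # Melzak's inequality for all polytopes, from the two static statements (helper15) -/

set_option autoImplicit false

open MeasureTheory Set
open scoped ENNReal Pointwise

namespace Pool.Agent.Work.MP_3892ce_str

open Pool.Agent.Work.MP_3892ce_static
open Pool.Agent.Work.MP_3892ce_gt (IsEdge zeta1 Cert IsArchPrism)

/-- a closed subset of the same finite volume of a convex set with interior points which is the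
closure of its interior -/
theorem eq_of_volume {P Q : Set (E 3)} (hPc : IsClosed P) (hPQ : P ⊆ Q) (hQ : Convex ℝ Q)
    (hQc : IsClosed Q) (hint : (interior Q).Nonempty) (hfin : volume Q ≠ ∞)
    (hv : volume Q ≤ volume P) : P = Q := by
  refine Subset.antisymm hPQ fun x hx => ?_
  by_contra hxP
  -- an open ball around `x` misses `P`
  have hopen : IsOpen Pᶜ := hPc.isOpen_compl
  have hcl : x ∈ closure (interior Q) := by
    rw [hQ.closure_interior_eq_closure_of_nonempty_interior hint, hQc.closure_eq]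
    exact hx
  have hne : (Pᶜ ∩ interior Q).Nonempty := by
    have := mem_closure_iff.1 hcl Pᶜ hopen hxP
    exact this
  have hpos : 0 < volume (Pᶜ ∩ interior Q) :=
    (hopen.inter isOpen_interior).measure_pos volume hne
  have h1 : volume P + volume (Pᶜ ∩ interior Q) ≤ volume Q := by
    rw [← measure_union (disjoint_left.2 fun y hy h => h.1 hy)
      (hopen.inter isOpen_interior).measurableSet]
    exact measure_mono (union_subset hPQ (inter_subset_right.trans interior_subset))
  have h2 : volume P + volume (Pᶜ ∩ interior Q) ≤ volume P + 0 := by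
    rw [add_zero]
    exact h1.trans hv
  have h3 := (ENNReal.add_le_add_iff_left (ne_top_of_le_ne_top hfin (measure_mono hPQ))).1 h2
  exact absurd h3 (not_le.2 hpos)

theorem kappa_pos : (0 : ℝ) < 972 * √3 := by positivity

/-- the reduction to five facets: a polytope with a small ratio is contained in a polytope with at
most five facets and not larger total edge length -/
def Stmt_CORE (c : ℝ) : Prop :=
  ∀ (ι : Type) [Fintype ι] [DecidableEq ι] (n : ι → E 3) (b : ι → ℝ), Irr n b →
    L n b ^ 3 < c * (volume (HP n b)).toReal →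
    ∃ (m : Fin 5 → E 3) (a : Fin 5 → ℝ), Bornology.IsBounded (HP m a) ∧ HP n b ⊆ HP m a ∧
      zeta1 (HP m a) ≤ ENNReal.ofReal (L n b)

theorem stmt_CORE (hFR2 : Stmt_FR2) (hFR1 : Stmt_FR1) (hLEN : Stmt_LEN) {c : ℝ} (hc : 0 ≤ c)
    (hS2 : Stmt_S2 c) (hS5 : Stmt_S5 c) : Stmt_CORE c := by
  intro ι _ _ n b hI hlt
  exact core hFR2 hFR1 hLEN hc hS2 hS5 _ ι n b rfl hI hlt

/-- for irredundant polytopes -/
theorem poly_irr (hADJ : Stmt_ADJ) {c : ℝ}
    (hc : 972 * √3 < c) (hCORE : Stmt_CORE c) (ι : Type) [Fintype ι]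
    [DecidableEq ι] (n : ι → E 3) (b : ι → ℝ) (hI : Irr n b) :
    ENNReal.ofReal (972 * √3) * volume (HP n b) ≤ zeta1 (HP n b) ^ 3 ∧
    (ENNReal.ofReal (972 * √3) * volume (HP n b) = zeta1 (HP n b) ^ 3 →
      IsArchPrism (HP n b)) := by
  have hc0 : 0 < c := kappa_pos.trans hc
  have hL0 : 0 ≤ L n b := by
    unfold L
    have : 0 ≤ ∑ i, ∑ j, len n b i j :=
      Finset.sum_nonneg fun i _ => Finset.sum_nonneg fun j _ => len_nonneg _ _ i j
    linarith
  have hz : zeta1 (HP n b) = ENNReal.ofReal (L n b) :=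
    le_antisymm (zeta1_le hI) (blk_ZETA hADJ ι n b hI)
  have hfin : volume (HP n b) ≠ ∞ := hI.bdd.measure_lt_top.ne
  have hvol : volume (HP n b) = ENNReal.ofReal (volume (HP n b)).toReal :=
    (ENNReal.ofReal_toReal hfin).symm
  have hint : (interior (HP n b)).Nonempty := by
    obtain ⟨x, hx⟩ := hI.int
    refine ⟨x, ?_⟩
    have hopen : IsOpen {x : E 3 | ∀ i, inner ℝ (n i) x < b i} := by
      have : {x : E 3 | ∀ i, inner ℝ (n i) x < b i} = ⋂ i, {x | inner ℝ (n i) x < b i} := by
        ext x; simp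
      rw [this]
      exact isOpen_iInter_of_finite fun i => isOpen_lt (by fun_prop) continuous_const
    exact interior_maximal (fun y hy i => (hy i).le) hopen hx
  have hVpos : 0 < (volume (HP n b)).toReal := by
    refine ENNReal.toReal_pos ?_ hfin
    intro h0
    exact (isOpen_interior.measure_pos volume hint).ne'
      (measure_mono_null interior_subset h0)
  by_cases hlt : L n b ^ 3 < c * (volume (HP n b)).toReal
  swap
  · -- large ratio
    have h1 : 972 * √3 * (volume (HP n b)).toReal < L n b ^ 3 := by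
      have := mul_lt_mul_of_pos_right hc hVpos
      linarith [not_lt.1 hlt]
    have h2 : ENNReal.ofReal (972 * √3) * volume (HP n b) < zeta1 (HP n b) ^ 3 := by
      rw [hz, hvol, ← ENNReal.ofReal_mul kappa_pos.le, ← ENNReal.ofReal_pow hL0]
      refine (ENNReal.ofReal_lt_ofReal_iff_of_nonneg ?_).2 h1
      positivity
    exact ⟨h2.le, fun h => absurd h h2.ne⟩
  obtain ⟨m, a, hB, hsub, hzQ⟩ := hCORE ι n b hI hlt
  have hintQ : (interior (HP m a)).Nonempty := hint.mono (interior_mono hsub)
  obtain ⟨A, B, hCert⟩ := Pool.Agent.Work.MP_3892ce_gt.red (n := m) (b := a) hB hintQ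
  have hQ0 : volume (HP m a) ≠ 0 := fun h0 =>
    (isOpen_interior.measure_pos volume hintQ).ne' (measure_mono_null interior_subset h0)
  obtain ⟨q1, q2⟩ := hCert.main hQ0
  have e1 : zeta1 (HP m a) ^ 3 ≤ zeta1 (HP n b) ^ 3 := by
    rw [hz]
    gcongr
  have e2 : ENNReal.ofReal (972 * √3) * volume (HP n b) ≤
      ENNReal.ofReal (972 * √3) * volume (HP m a) := by
    gcongr
  refine ⟨e2.trans (q1.trans e1), fun heq => ?_⟩
  have e3 : ENNReal.ofReal (972 * √3) * volume (HP m a) = zeta1 (HP m a) ^ 3 := by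
    refine le_antisymm q1 ?_
    exact e1.trans (heq.symm.le.trans e2)
  have e4 : volume (HP m a) ≤ volume (HP n b) := by
    have h1 : ENNReal.ofReal (972 * √3) * volume (HP m a) ≤
        ENNReal.ofReal (972 * √3) * volume (HP n b) := q1.trans (e1.trans heq.symm.le)
    refine (ENNReal.mul_le_mul_iff_right ?_ ENNReal.ofReal_ne_top).1 h1
    rw [Ne, ENNReal.ofReal_eq_zero, not_le]
    exact kappa_pos
  have e5 : HP n b = HP m a := eq_of_volume (ZETA.isClosed_HP n b) hsub
    (convex_HP m a) (VOL.closed_HP m a) hintQ hB.measure_lt_top.ne e4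
  rw [e5]
  exact q2.1 e3

/-- for all polytopes given by finitely many inequalities -/
theorem poly (hADJ : Stmt_ADJ) (hIRR : Stmt_IRR) {c : ℝ}
    (hc : 972 * √3 < c) (hCORE : Stmt_CORE c) (ι : Type) [Finite ι]
    (n : ι → E 3) (b : ι → ℝ) (hB : Bornology.IsBounded (HP n b))
    (hint : (interior (HP n b)).Nonempty) :
    ENNReal.ofReal (972 * √3) * volume (HP n b) ≤ zeta1 (HP n b) ^ 3 ∧
    (ENNReal.ofReal (972 * √3) * volume (HP n b) = zeta1 (HP n b) ^ 3 ↔
      IsArchPrism (HP n b)) := by
  obtain ⟨k, n', b', hI, heq⟩ := hIRR ι n b hB hint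
  obtain ⟨h1, h2⟩ := poly_irr hADJ hc hCORE (Fin k) n' b' hI
  rw [heq] at h1 h2
  exact ⟨h1, h2, fun h => le_antisymm h1 (Pool.Agent.Work.MP_3892ce_gt.arch_eq h)⟩

end Pool.Agent.Work.MP_3892ce_str
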