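import Pool.Agent.Work.MP_3892ce_static.RAD5

/-! # Five facets of a polytope with all pairs adjacent except one: the prism structure
(helper15).

Main facets `s 0, ..., s 4`, all pairs adjacent except perhaps `{0, 1}`. The slack functions
satisfy `μ 0 s_0 + μ 1 s_1 = μ 2 s_2 + μ 3 s_3 + μ 4 s_4`, so the polytope is a piece of the cone
over a triangular prism with vertices `(e, l)`, `e : Fin 2`, `l : Fin 3`; the vertex `(e, l)` is the
intersection of the facets `1 - e` and `{2, 3, 4} \ {2 + l}`. -/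

set_option autoImplicit false

open Set

namespace Pool.Agent.Work.MP_3892ce_str

open Pool.Agent.Work.MP_3892ce_static

variable {ι : Type} {n : ι → E 3} {b : ι → ℝ} {s : Fin 5 → ι}

/-- slack -/
noncomputable def sl (n : ι → E 3) (b : ι → ℝ) (i : ι) (x : E 3) : ℝ := b i - inner ℝ (n i) x

/-- all pairs of main facets except `{0, 1}` are adjacent -/
def PAdj (n : ι → E 3) (b : ι → ℝ) (s : Fin 5 → ι) : Prop :=
  ∀ i j : Fin 5, i ≠ j → ¬ (i = 0 ∧ j = 1) → ¬ (i = 1 ∧ j = 0) → Adj n b (s i) (s j)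

theorem three (a b c : ℝ) (h1 : 0 < b ∨ 0 < c) (h2 : 0 < a ∨ 0 < c) (h3 : 0 < a ∨ 0 < b)
    (g1 : b < 0 ∨ c < 0) (g2 : a < 0 ∨ c < 0) (g3 : a < 0 ∨ b < 0) : False := by
  rcases h1 with h1 | h1 <;> rcases h2 with h2 | h2 <;> rcases h3 with h3 | h3 <;>
    rcases g1 with g1 | g1 <;> rcases g2 with g2 | g2 <;> rcases g3 with g3 | g3 <;> linarith

/-- the signs of a relation between the slacks of the main facets -/
theorem signs (hs : Function.Injective s) (hA : PAdj n b s) {m : Fin 5 → ℝ}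
    (hm : RAD.Dep n b s m) (h0 : ∃ l, m l ≠ 0) :
    (0 < m 0 ∧ 0 < m 1 ∧ m 2 < 0 ∧ m 3 < 0 ∧ m 4 < 0) ∨
      (m 0 < 0 ∧ m 1 < 0 ∧ 0 < m 2 ∧ 0 < m 3 ∧ 0 < m 4) := by
  have P : ∀ i j k x y z : Fin 5, i ≠ j → i ≠ k → j ≠ k →
      (∀ l, l ≠ i → l ≠ j → l = x ∨ l = y ∨ l = z) → Adj n b (s i) (s j) →
      Adj n b (s i) (s k) → Adj n b (s j) (s k) → (0 < m x ∨ 0 < m y ∨ 0 < m z) ∧
        (m x < 0 ∨ m y < 0 ∨ m z < 0) := by
    intro i j k x y z h1 h2 h3 hc a1 a2 a3
    obtain ⟨l, e1, e2, e3⟩ := RAD.exists_pos hs hm h0 h1 h2 h3 a1 a2 a3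
    obtain ⟨l', e1', e2', e3'⟩ := RAD.exists_neg hs hm h0 h1 h2 h3 a1 a2 a3
    constructor
    · rcases hc l e1 e2 with h | h | h <;> rw [h] at e3
      · exact Or.inl e3
      · exact Or.inr (Or.inl e3)
      · exact Or.inr (Or.inr e3)
    · rcases hc l' e1' e2' with h | h | h <;> rw [h] at e3'
      · exact Or.inl e3'
      · exact Or.inr (Or.inl e3')
      · exact Or.inr (Or.inr e3')
  have A : ∀ i j : Fin 5, i ≠ j → ¬ (i = 0 ∧ j = 1) → ¬ (i = 1 ∧ j = 0) →
      Adj n b (s i) (s j) := hA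
  have p23 := P 2 3 0 0 1 4 (by decide) (by decide) (by decide) (by decide)
    (A 2 3 (by decide) (by decide) (by decide)) (A 2 0 (by decide) (by decide) (by decide))
    (A 3 0 (by decide) (by decide) (by decide))
  have p24 := P 2 4 0 0 1 3 (by decide) (by decide) (by decide) (by decide)
    (A 2 4 (by decide) (by decide) (by decide)) (A 2 0 (by decide) (by decide) (by decide))
    (A 4 0 (by decide) (by decide) (by decide))
  have p34 := P 3 4 0 0 1 2 (by decide) (by decide) (by decide) (by decide)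
    (A 3 4 (by decide) (by decide) (by decide)) (A 3 0 (by decide) (by decide) (by decide))
    (A 4 0 (by decide) (by decide) (by decide))
  have p02 := P 0 2 3 1 3 4 (by decide) (by decide) (by decide) (by decide)
    (A 0 2 (by decide) (by decide) (by decide)) (A 0 3 (by decide) (by decide) (by decide))
    (A 2 3 (by decide) (by decide) (by decide))
  have p03 := P 0 3 2 1 2 4 (by decide) (by decide) (by decide) (by decide)
    (A 0 3 (by decide) (by decide) (by decide)) (A 0 2 (by decide) (by decide) (by decide))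
    (A 3 2 (by decide) (by decide) (by decide))
  have p04 := P 0 4 2 1 2 3 (by decide) (by decide) (by decide) (by decide)
    (A 0 4 (by decide) (by decide) (by decide)) (A 0 2 (by decide) (by decide) (by decide))
    (A 4 2 (by decide) (by decide) (by decide))
  have p12 := P 1 2 3 0 3 4 (by decide) (by decide) (by decide) (by decide)
    (A 1 2 (by decide) (by decide) (by decide)) (A 1 3 (by decide) (by decide) (by decide))
    (A 2 3 (by decide) (by decide) (by decide))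
  have p13 := P 1 3 2 0 2 4 (by decide) (by decide) (by decide) (by decide)
    (A 1 3 (by decide) (by decide) (by decide)) (A 1 2 (by decide) (by decide) (by decide))
    (A 3 2 (by decide) (by decide) (by decide))
  have p14 := P 1 4 2 0 2 3 (by decide) (by decide) (by decide) (by decide)
    (A 1 4 (by decide) (by decide) (by decide)) (A 1 2 (by decide) (by decide) (by decide))
    (A 4 2 (by decide) (by decide) (by decide))
  by_cases hp : 0 < m 0 ∧ 0 < m 1
  · left
    obtain ⟨q0, q1⟩ := hp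
    refine ⟨q0, q1, ?_, ?_, ?_⟩
    · rcases p34.2 with h | h | h
      · linarith
      · linarith
      · exact h
    · rcases p24.2 with h | h | h
      · linarith
      · linarith
      · exact h
    · rcases p23.2 with h | h | h
      · linarith
      · linarith
      · exact h
  by_cases hn : m 0 < 0 ∧ m 1 < 0
  · right
    obtain ⟨q0, q1⟩ := hn
    refine ⟨q0, q1, ?_, ?_, ?_⟩
    · rcases p34.1 with h | h | h
      · linarith
      · linarith
      · exact h
    · rcases p24.1 with h | h | h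
      · linarith
      · linarith
      · exact h
    · rcases p23.1 with h | h | h
      · linarith
      · linarith
      · exact h
  exfalso
  have dr : ∀ {p q r : Prop}, ¬ p → (p ∨ q ∨ r) → (q ∨ r) := fun h1 h2 => h2.resolve_left h1
  have c1 : m 0 ≤ 0 ∨ m 1 ≤ 0 := by
    by_contra hc
    push Not at hc
    exact hp ⟨hc.1, hc.2⟩
  have c2 : 0 ≤ m 0 ∨ 0 ≤ m 1 := by
    by_contra hc
    push Not at hc
    exact hn ⟨hc.1, hc.2⟩
  rcases c1 with c1 | c1 <;> rcases c2 with c2 | c2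
  · exact three (m 2) (m 3) (m 4) (dr (not_lt.2 c1) p12.1) (dr (not_lt.2 c1) p13.1)
      (dr (not_lt.2 c1) p14.1) (dr (not_lt.2 c2) p12.2) (dr (not_lt.2 c2) p13.2)
      (dr (not_lt.2 c2) p14.2)
  · exact three (m 2) (m 3) (m 4) (dr (not_lt.2 c1) p12.1) (dr (not_lt.2 c1) p13.1)
      (dr (not_lt.2 c1) p14.1) (dr (not_lt.2 c2) p02.2) (dr (not_lt.2 c2) p03.2)
      (dr (not_lt.2 c2) p04.2)
  · exact three (m 2) (m 3) (m 4) (dr (not_lt.2 c1) p02.1) (dr (not_lt.2 c1) p03.1)
      (dr (not_lt.2 c1) p04.1) (dr (not_lt.2 c2) p12.2) (dr (not_lt.2 c2) p13.2)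
      (dr (not_lt.2 c2) p14.2)
  · exact three (m 2) (m 3) (m 4) (dr (not_lt.2 c1) p02.1) (dr (not_lt.2 c1) p03.1)
      (dr (not_lt.2 c1) p04.1) (dr (not_lt.2 c2) p02.2) (dr (not_lt.2 c2) p03.2)
      (dr (not_lt.2 c2) p04.2)

/-- weighted slack of the end facet `e` -/
noncomputable def aa (n : ι → E 3) (b : ι → ℝ) (s : Fin 5 → ι) (μ : Fin 5 → ℝ) (e : Fin 2)
    (x : E 3) : ℝ := μ (Fin.castAdd 3 e) * sl n b (s (Fin.castAdd 3 e)) x

/-- weighted slack of the lateral facet `l` -/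
noncomputable def cc (n : ι → E 3) (b : ι → ℝ) (s : Fin 5 → ι) (μ : Fin 5 → ℝ) (l : Fin 3)
    (x : E 3) : ℝ := μ (Fin.natAdd 2 l) * sl n b (s (Fin.natAdd 2 l)) x

/-- the prism structure -/
structure Str (n : ι → E 3) (b : ι → ℝ) (s : Fin 5 → ι) (μ : Fin 5 → ℝ) : Prop where
  pos : ∀ i, 0 < μ i
  rel : ∀ x, ∑ e, aa n b s μ e x = ∑ l, cc n b s μ l x
  rep : ∀ (v : E 3) (c : ℝ), ∃ (g : Fin 2 → ℝ) (h : Fin 3 → ℝ), ∀ x,
    c - inner ℝ v x = ∑ e, g e * aa n b s μ e x + ∑ l, h l * cc n b s μ l x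

/-- existence of the structure -/
theorem exists_str (hs : Function.Injective s) (hA : PAdj n b s) : ∃ μ, Str n b s μ := by
  obtain ⟨m, hm, h0⟩ := RAD.exists_dep5 n b s
  -- the relation has the right signs
  have hex : ∃ μ : Fin 5 → ℝ, (∀ i, 0 < μ i) ∧ ∀ x, ∑ e, aa n b s μ e x =
      ∑ l, cc n b s μ l x := by
    rcases signs hs hA hm h0 with ⟨h1, h2, h3, h4, h5⟩ | ⟨h1, h2, h3, h4, h5⟩
    · refine ⟨![m 0, m 1, - m 2, - m 3, - m 4], ?_, ?_⟩
      · intro i
        fin_cases i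
        · exact h1
        · exact h2
        · exact neg_pos.2 h3
        · exact neg_pos.2 h4
        · exact neg_pos.2 h5
      · intro x
        have h := hm x
        rw [Fin.sum_univ_five] at h
        rw [Fin.sum_univ_two, Fin.sum_univ_three]
        change m 0 * (b (s 0) - inner ℝ (n (s 0)) x) + m 1 * (b (s 1) - inner ℝ (n (s 1)) x) =
          - m 2 * (b (s 2) - inner ℝ (n (s 2)) x) + - m 3 * (b (s 3) - inner ℝ (n (s 3)) x) +
          - m 4 * (b (s 4) - inner ℝ (n (s 4)) x)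
        linarith
    · refine ⟨![- m 0, - m 1, m 2, m 3, m 4], ?_, ?_⟩
      · intro i
        fin_cases i
        · exact neg_pos.2 h1
        · exact neg_pos.2 h2
        · exact h3
        · exact h4
        · exact h5
      · intro x
        have h := hm x
        rw [Fin.sum_univ_five] at h
        rw [Fin.sum_univ_two, Fin.sum_univ_three]
        change - m 0 * (b (s 0) - inner ℝ (n (s 0)) x) + - m 1 * (b (s 1) - inner ℝ (n (s 1)) x) =
          m 2 * (b (s 2) - inner ℝ (n (s 2)) x) + m 3 * (b (s 3) - inner ℝ (n (s 3)) x) +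
          m 4 * (b (s 4) - inner ℝ (n (s 4)) x)
        linarith
  obtain ⟨μ, hpos, hrel⟩ := hex
  refine ⟨μ, hpos, hrel, ?_⟩
  -- four of the vectors `(n, b)` are independent
  set t : Fin 4 → Fin 5 := ![0, 2, 3, 4] with ht
  have hli : LinearIndependent ℝ (fun k : Fin 4 => ((n (s (t k)), b (s (t k))) : E 3 × ℝ)) := by
    rw [Fintype.linearIndependent_iff]
    intro g hg
    have g1 : g 0 • n (s 0) + g 1 • n (s 2) + g 2 • n (s 3) + g 3 • n (s 4) = 0 := by
      have := congrArg Prod.fst hg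
      rw [Prod.fst_sum, Fin.sum_univ_four] at this
      exact this
    have g2 : g 0 * b (s 0) + g 1 * b (s 2) + g 2 * b (s 3) + g 3 * b (s 4) = 0 := by
      have := congrArg Prod.snd hg
      rw [Prod.snd_sum, Fin.sum_univ_four] at this
      exact this
    have hdep : RAD.Dep n b s ![g 0, 0, g 1, g 2, g 3] := by
      intro x
      rw [Fin.sum_univ_five]
      change g 0 * (b (s 0) - inner ℝ (n (s 0)) x) + 0 * (b (s 1) - inner ℝ (n (s 1)) x) +
        g 1 * (b (s 2) - inner ℝ (n (s 2)) x) + g 2 * (b (s 3) - inner ℝ (n (s 3)) x) +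
        g 3 * (b (s 4) - inner ℝ (n (s 4)) x) = 0
      have g3 : inner ℝ (g 0 • n (s 0) + g 1 • n (s 2) + g 2 • n (s 3) + g 3 • n (s 4)) x = 0 := by
        rw [g1, inner_zero_left]
      rw [inner_add_left, inner_add_left, inner_add_left, real_inner_smul_left,
        real_inner_smul_left, real_inner_smul_left, real_inner_smul_left] at g3
      linarith
    by_contra hcon
    push Not at hcon
    obtain ⟨k, hk⟩ := hcon
    have h2 : ∃ l, (![g 0, 0, g 1, g 2, g 3] : Fin 5 → ℝ) l ≠ 0 := by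
      fin_cases k
      · exact ⟨0, hk⟩
      · exact ⟨2, hk⟩
      · exact ⟨3, hk⟩
      · exact ⟨4, hk⟩
    rcases signs hs hA hdep h2 with h | h
    · exact lt_irrefl _ (show (0 : ℝ) < 0 from h.2.1)
    · exact lt_irrefl _ (show (0 : ℝ) < 0 from h.2.1)
  have hspan := hli.span_eq_top_of_card_eq_finrank' (by simp)
  intro v c
  have hmem : ((v, c) : E 3 × ℝ) ∈
      Submodule.span ℝ (Set.range fun k : Fin 4 => ((n (s (t k)), b (s (t k))) : E 3 × ℝ)) := by
    rw [hspan]
    trivial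
  obtain ⟨g, hg⟩ := (Submodule.mem_span_range_iff_exists_fun ℝ).1 hmem
  have g1 : g 0 • n (s 0) + g 1 • n (s 2) + g 2 • n (s 3) + g 3 • n (s 4) = v := by
    have := congrArg Prod.fst hg
    rw [Prod.fst_sum, Fin.sum_univ_four] at this
    exact this
  have g2 : g 0 * b (s 0) + g 1 * b (s 2) + g 2 * b (s 3) + g 3 * b (s 4) = c := by
    have := congrArg Prod.snd hg
    rw [Prod.snd_sum, Fin.sum_univ_four] at this
    exact this
  refine ⟨![g 0 / μ 0, 0], ![g 1 / μ 2, g 2 / μ 3, g 3 / μ 4], fun x => ?_⟩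
  rw [Fin.sum_univ_two, Fin.sum_univ_three]
  change c - inner ℝ v x = g 0 / μ 0 * (μ 0 * (b (s 0) - inner ℝ (n (s 0)) x)) +
    0 * (μ 1 * (b (s 1) - inner ℝ (n (s 1)) x)) +
    (g 1 / μ 2 * (μ 2 * (b (s 2) - inner ℝ (n (s 2)) x)) +
    g 2 / μ 3 * (μ 3 * (b (s 3) - inner ℝ (n (s 3)) x)) +
    g 3 / μ 4 * (μ 4 * (b (s 4) - inner ℝ (n (s 4)) x)))
  have q : ∀ (i : Fin 5) (u w : ℝ), u / μ i * (μ i * w) = u * w := by
    intro i u w
    rw [← mul_assoc, div_mul_cancel₀ _ (hpos i).ne']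
  rw [q, q, q, q, ← g1, ← g2, inner_add_left, inner_add_left, inner_add_left,
    real_inner_smul_left, real_inner_smul_left, real_inner_smul_left, real_inner_smul_left]
  ring

/-- the vertices of the prism -/
abbrev VV : Type := Fin 2 × Fin 3

/-- sum of the weighted slacks -/
noncomputable def NN (n : ι → E 3) (b : ι → ℝ) (s : Fin 5 → ι) (μ : Fin 5 → ℝ) (x : E 3) : ℝ :=
  ∑ e, aa n b s μ e x

/-- weight of the vertex `v` at `x` -/
noncomputable def om (n : ι → E 3) (b : ι → ℝ) (s : Fin 5 → ι) (μ : Fin 5 → ℝ) (v : VV)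
    (x : E 3) : ℝ := aa n b s μ v.1 x * cc n b s μ v.2 x

/-- values of an affine function at the six vertices -/
structure Val (n : ι → E 3) (b : ι → ℝ) (s : Fin 5 → ι) (μ : Fin 5 → ℝ) (f : E 3 → ℝ)
    (F : VV → ℝ) : Prop where
  add : ∀ e e' l l', F (e, l) + F (e', l') = F (e, l') + F (e', l)
  val : ∀ x, NN n b s μ x * f x = ∑ v, om n b s μ v x * F v

variable {μ : Fin 5 → ℝ}

theorem Str.val (hS : Str n b s μ) (v : E 3) (c : ℝ) :
    ∃ F, Val n b s μ (fun x => c - inner ℝ v x) F := by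
  obtain ⟨g, h, hgh⟩ := hS.rep v c
  refine ⟨fun u => g u.1 + h u.2, fun e e' l l' => by ring, fun x => ?_⟩
  have hr := hS.rel x
  have h1 := hgh x
  rw [h1]
  unfold NN om
  rw [Fintype.sum_prod_type]
  rw [Fin.sum_univ_two, Fin.sum_univ_three] at hr
  rw [Fin.sum_univ_two, Fin.sum_univ_two, Fin.sum_univ_three, Fin.sum_univ_two,
    Fin.sum_univ_three, Fin.sum_univ_three]
  linear_combination (g 0 * aa n b s μ 0 x + g 1 * aa n b s μ 1 x) * hr

theorem Str.sum_om (hS : Str n b s μ) (x : E 3) :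
    ∑ v, om n b s μ v x = NN n b s μ x * NN n b s μ x := by
  have hr := hS.rel x
  unfold NN om
  rw [Fintype.sum_prod_type]
  rw [Fin.sum_univ_two, Fin.sum_univ_three] at hr
  rw [Fin.sum_univ_two, Fin.sum_univ_two, Fin.sum_univ_three, Fin.sum_univ_three]
  linear_combination (- (aa n b s μ 0 x + aa n b s μ 1 x)) * hr

theorem Val.comb {f f' : E 3 → ℝ} {F F' : VV → ℝ} (h : Val n b s μ f F)
    (h' : Val n b s μ f' F') (c c' : ℝ) :
    Val n b s μ (fun x => c * f x + c' * f' x) (fun v => c * F v + c' * F' v) := by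
  refine ⟨fun e e' l l' => ?_, fun x => ?_⟩
  · have h1 := h.add e e' l l'
    have h2 := h'.add e e' l l'
    linear_combination c * h1 + c' * h2
  · have h1 := h.val x
    have h2 := h'.val x
    have h3 : ∑ v, om n b s μ v x * (c * F v + c' * F' v) =
        c * ∑ v, om n b s μ v x * F v + c' * ∑ v, om n b s μ v x * F' v := by
      rw [Finset.mul_sum, Finset.mul_sum, ← Finset.sum_add_distrib]
      exact Finset.sum_congr rfl fun v _ => by ring
    rw [h3, ← h1, ← h2]
    ring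

theorem sum2 (e : Fin 2) (g : Fin 2 → ℝ) : ∑ u, g u = g e + g (1 - e) := by
  have h1 : ∀ e : Fin 2, (Finset.univ : Finset (Fin 2)) = {e, 1 - e} ∧ e ∉ ({1 - e} :
      Finset (Fin 2)) := by decide
  rw [(h1 e).1, Finset.sum_insert (h1 e).2, Finset.sum_singleton]

theorem sum2' {e e' : Fin 2} (he : e ≠ e') (g : Fin 2 → ℝ) : ∑ u, g u = g e + g e' := by
  have h1 : ∀ e e' : Fin 2, e ≠ e' → (Finset.univ : Finset (Fin 2)) = {e, e'} ∧ e ∉ ({e'} :
      Finset (Fin 2)) := by decide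
  rw [(h1 e e' he).1, Finset.sum_insert (h1 e e' he).2, Finset.sum_singleton]

theorem sum3 {l l' : Fin 3} (h : l ≠ l') (g : Fin 3 → ℝ) :
    ∑ u, g u = g l + g l' + g (-(l + l')) := by
  have h1 : ∀ l l' : Fin 3, l ≠ l' → (Finset.univ : Finset (Fin 3)) = {l, l', -(l + l')} ∧
      l ∉ ({l', -(l + l')} : Finset (Fin 3)) ∧ l' ∉ ({-(l + l')} : Finset (Fin 3)) := by decide
  obtain ⟨h2, h3, h4⟩ := h1 l l' h
  rw [h2, Finset.sum_insert h3, Finset.sum_insert h4, Finset.sum_singleton, add_assoc]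

theorem sum3' (l : Fin 3) (g : Fin 3 → ℝ) : ∑ u, g u = g l + g (l + 1) + g (l + 2) := by
  have h1 : ∀ l : Fin 3, (Finset.univ : Finset (Fin 3)) = {l, l + 1, l + 2} ∧
      l ∉ ({l + 1, l + 2} : Finset (Fin 3)) ∧ l + 1 ∉ ({l + 2} : Finset (Fin 3)) := by decide
  obtain ⟨h2, h3, h4⟩ := h1 l
  rw [h2, Finset.sum_insert h3, Finset.sum_insert h4, Finset.sum_singleton, add_assoc]

/-- the point on an edge -/
structure EdgePt (n : ι → E 3) (b : ι → ℝ) (s : Fin 5 → ι) (μ : Fin 5 → ℝ) (v v' : VV)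
    (x : E 3) (t t' : ℝ) : Prop where
  tp : 0 < t
  tp' : 0 < t'
  N : 0 < NN n b s μ x
  tail : ∀ k, k ∉ Set.range s → 0 < sl n b k x
  val : ∀ f F, Val n b s μ f F → NN n b s μ x * f x = t * F v + t' * F v'

theorem slack_pos {i j k : Fin 5} {x : E 3} (hs : Function.Injective s) (hki : k ≠ i)
    (hkj : k ≠ j) (hx : ∀ m, m ≠ s i → m ≠ s j → inner ℝ (n m) x < b m) :
    0 < sl n b (s k) x := by
  unfold sl
  have := hx (s k) (fun h => hki (hs h)) (fun h => hkj (hs h))
  linarith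

theorem edge_pt (hS : Str n b s μ) (hs : Function.Injective s) (hA : PAdj n b s) (v v' : VV)
    (hne : v ≠ v') (hadj : v.1 = v'.1 ∨ v.2 = v'.2) : ∃ x t t', EdgePt n b s μ v v' x t t' := by
  -- the pair of main facets
  have key : ∀ i j : Fin 5, Adj n b (s i) (s j) →
      ∃ x, (∀ k, k ≠ i → k ≠ j → 0 < sl n b (s k) x) ∧ sl n b (s i) x = 0 ∧
        sl n b (s j) x = 0 ∧ ∀ k, k ∉ Set.range s → 0 < sl n b k x := by
    intro i j hij
    obtain ⟨_, x, h1, h2, h3⟩ := hij
    refine ⟨x, fun k hki hkj => slack_pos hs hki hkj h3, ?_, ?_, fun k hk => ?_⟩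
    · unfold sl
      rw [h1, sub_self]
    · unfold sl
      rw [h2, sub_self]
    · unfold sl
      have := h3 k (fun h => hk ⟨i, h.symm⟩) (fun h => hk ⟨j, h.symm⟩)
      linarith
  obtain ⟨e, l⟩ := v
  obtain ⟨e', l'⟩ := v'
  simp only at hadj
  have P := hS.pos
  rcases hadj with rfl | rfl
  · -- same end
    have hl : l ≠ l' := fun h => hne (by rw [h])
    set e' : Fin 2 := 1 - e with he'
    set l'' : Fin 3 := - (l + l') with hl''
    have hall : ∀ (e : Fin 2) (l l' : Fin 3), l ≠ l' → (Fin.castAdd 3 (1 - e) : Fin 5) ≠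
        Fin.natAdd 2 (-(l + l')) ∧
        ¬ ((Fin.castAdd 3 (1 - e) : Fin 5) = 0 ∧ (Fin.natAdd 2 (-(l + l')) : Fin 5) = 1) ∧
        ¬ ((Fin.castAdd 3 (1 - e) : Fin 5) = 1 ∧ (Fin.natAdd 2 (-(l + l')) : Fin 5) = 0) := by
      decide
    obtain ⟨q1, q2, q3⟩ := hall e l l' hl
    obtain ⟨x, hx, hx1, hx2, hx3⟩ := key _ _ (hA _ _ q1 q2 q3)
    have hall2 : ∀ (e : Fin 2) (l l' : Fin 3), l ≠ l' →
        ((Fin.castAdd 3 e : Fin 5) ≠ Fin.castAdd 3 (1 - e) ∧
          (Fin.castAdd 3 e : Fin 5) ≠ Fin.natAdd 2 (-(l + l'))) ∧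
        ((Fin.natAdd 2 l : Fin 5) ≠ Fin.castAdd 3 (1 - e) ∧
          (Fin.natAdd 2 l : Fin 5) ≠ Fin.natAdd 2 (-(l + l'))) ∧
        ((Fin.natAdd 2 l' : Fin 5) ≠ Fin.castAdd 3 (1 - e) ∧
          (Fin.natAdd 2 l' : Fin 5) ≠ Fin.natAdd 2 (-(l + l'))) := by
      decide
    obtain ⟨r1, r2, r3⟩ := hall2 e l l' hl
    have a1 : 0 < aa n b s μ e x := mul_pos (P _) (hx _ r1.1 r1.2)
    have a2 : 0 < cc n b s μ l x := mul_pos (P _) (hx _ r2.1 r2.2)
    have a3 : 0 < cc n b s μ l' x := mul_pos (P _) (hx _ r3.1 r3.2)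
    have a4 : aa n b s μ e' x = 0 := by
      unfold aa
      rw [hx1, mul_zero]
    have a5 : cc n b s μ l'' x = 0 := by
      unfold cc
      rw [hx2, mul_zero]
    refine ⟨x, aa n b s μ e x * cc n b s μ l x, aa n b s μ e x * cc n b s μ l' x,
      mul_pos a1 a2, mul_pos a1 a3, ?_, hx3, ?_⟩
    · have h1 : NN n b s μ x = aa n b s μ e x + aa n b s μ e' x := sum2 e _
      rw [h1, a4, add_zero]
      exact a1
    · intro f F hF
      rw [hF.val x, Fintype.sum_prod_type]
      have h1 : ∀ g : Fin 2 → ℝ, ∑ u, g u = g e + g e' := sum2 e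
      have h2 : ∀ g : Fin 3 → ℝ, ∑ u, g u = g l + g l' + g l'' := sum3 hl
      rw [h1, h2, h2]
      unfold om
      simp only
      rw [a4, a5]
      ring
  · -- same lateral index
    have he : e ≠ e' := fun h => hne (by rw [h])
    have hall : ∀ l : Fin 3, (Fin.natAdd 2 (l + 1) : Fin 5) ≠ Fin.natAdd 2 (l + 2) ∧
        ¬ ((Fin.natAdd 2 (l + 1) : Fin 5) = 0 ∧ (Fin.natAdd 2 (l + 2) : Fin 5) = 1) ∧
        ¬ ((Fin.natAdd 2 (l + 1) : Fin 5) = 1 ∧ (Fin.natAdd 2 (l + 2) : Fin 5) = 0) := by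
      decide
    obtain ⟨q1, q2, q3⟩ := hall l
    obtain ⟨x, hx, hx1, hx2, hx3⟩ := key _ _ (hA _ _ q1 q2 q3)
    have hall2 : ∀ (e : Fin 2) (l : Fin 3),
        ((Fin.castAdd 3 e : Fin 5) ≠ Fin.natAdd 2 (l + 1) ∧
          (Fin.castAdd 3 e : Fin 5) ≠ Fin.natAdd 2 (l + 2)) ∧
        ((Fin.natAdd 2 l : Fin 5) ≠ Fin.natAdd 2 (l + 1) ∧
          (Fin.natAdd 2 l : Fin 5) ≠ Fin.natAdd 2 (l + 2)) := by
      decide
    have a1 : 0 < aa n b s μ e x := mul_pos (P _) (hx _ (hall2 e l).1.1 (hall2 e l).1.2)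
    have a1' : 0 < aa n b s μ e' x := mul_pos (P _) (hx _ (hall2 e' l).1.1 (hall2 e' l).1.2)
    have a2 : 0 < cc n b s μ l x := mul_pos (P _) (hx _ (hall2 e l).2.1 (hall2 e l).2.2)
    have a4 : cc n b s μ (l + 1) x = 0 := by
      unfold cc
      rw [hx1, mul_zero]
    have a5 : cc n b s μ (l + 2) x = 0 := by
      unfold cc
      rw [hx2, mul_zero]
    have h1 : ∀ g : Fin 2 → ℝ, ∑ u, g u = g e + g e' := sum2' he
    refine ⟨x, aa n b s μ e x * cc n b s μ l x, aa n b s μ e' x * cc n b s μ l x,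
      mul_pos a1 a2, mul_pos a1' a2, ?_, hx3, ?_⟩
    · unfold NN
      rw [h1]
      exact add_pos a1 a1'
    · intro f F hF
      rw [hF.val x, Fintype.sum_prod_type]
      have h2 : ∀ g : Fin 3 → ℝ, ∑ u, g u = g l + g (l + 1) + g (l + 2) := sum3' l
      rw [h1, h2, h2]
      unfold om
      simp only
      rw [a4, a5]
      ring

/-- the function is positive at the nine edge points: at most one value is not positive -/
theorem two_pos (hS : Str n b s μ) (hs : Function.Injective s) (hA : PAdj n b s) {f : E 3 → ℝ}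
    {F : VV → ℝ} (hF : Val n b s μ f F)
    (hf : ∀ v v' x t t', EdgePt n b s μ v v' x t t' → 0 < f x) {v v' : VV} (h1 : F v ≤ 0)
    (h2 : F v' ≤ 0) : v = v' := by
  have adj : ∀ v v' : VV, v ≠ v' → (v.1 = v'.1 ∨ v.2 = v'.2) → F v ≤ 0 → 0 < F v' := by
    intro v v' hne ha h1
    obtain ⟨x, t, t', hE⟩ := edge_pt hS hs hA v v' hne ha
    have h3 := hf v v' x t t' hE
    have h4 := hE.val f F hF
    have h5 := mul_pos hE.N h3
    rw [h4] at h5
    by_contra h6
    have h7 := mul_nonpos_of_nonneg_of_nonpos hE.tp.le h1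
    have h8 := mul_nonpos_of_nonneg_of_nonpos hE.tp'.le (not_lt.1 h6)
    linarith
  by_contra hne
  by_cases ha : v.1 = v'.1 ∨ v.2 = v'.2
  · have := adj v v' hne ha h1
    linarith
  · push Not at ha
    have h3 := hF.add v.1 v'.1 v.2 v'.2
    have h4 := adj v (v.1, v'.2) (fun h => ha.2 ((congrArg Prod.snd h).trans rfl)) (Or.inl rfl) h1
    have h5 := adj v (v'.1, v.2) (fun h => ha.1 ((congrArg Prod.fst h).trans rfl)) (Or.inr rfl) h1
    have h6 : F v = F (v.1, v.2) := rfl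
    have h7 : F v' = F (v'.1, v'.2) := rfl
    linarith

/-- values of two functions which are positive at the edge points -/
theorem prod_lt (hS : Str n b s μ) (hs : Function.Injective s) (hA : PAdj n b s)
    {f g : E 3 → ℝ} {F G : VV → ℝ} (hF : Val n b s μ f F) (hG : Val n b s μ g G)
    (hf : ∀ v v' x t t', EdgePt n b s μ v v' x t t' → 0 < f x)
    (hg : ∀ v v' x t t', EdgePt n b s μ v v' x t t' → 0 < g x) {v v' : VV} (hne : v ≠ v')
    (h1 : F v ≤ 0) (h2 : G v' ≤ 0) : 0 < F v' ∧ 0 < G v ∧ F v * G v' < F v' * G v := by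
  have p1 : 0 < F v' := by
    by_contra h
    exact hne (two_pos hS hs hA hF hf h1 (not_lt.1 h))
  have p2 : 0 < G v := by
    by_contra h
    exact hne (two_pos hS hs hA hG hg (not_lt.1 h) h2)
  refine ⟨p1, p2, ?_⟩
  by_cases ha : v.1 = v'.1 ∨ v.2 = v'.2
  · obtain ⟨x, t, t', hE⟩ := edge_pt hS hs hA v v' hne ha
    have f1 := mul_pos hE.N (hf v v' x t t' hE)
    have g1 := mul_pos hE.N (hg v v' x t t' hE)
    rw [hE.val f F hF] at f1
    rw [hE.val g G hG] at g1
    have e1 : t * (- F v) < t' * F v' := by linarith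
    have e2 : t' * (- G v') < t * G v := by linarith
    have e3 : (t * (- F v)) * (t' * (- G v')) < (t' * F v') * (t * G v) :=
      mul_lt_mul'' e1 e2 (mul_nonneg hE.tp.le (by linarith)) (mul_nonneg hE.tp'.le (by linarith))
    have e4 : 0 < t * t' := mul_pos hE.tp hE.tp'
    by_contra h
    have := mul_le_mul_of_nonneg_left (not_lt.1 h) e4.le
    nlinarith
  · push Not at ha
    have pos : ∀ (H : VV → ℝ) (w : VV), H w ≤ 0 → (∀ u u' : VV, H u ≤ 0 → H u' ≤ 0 → u = u') →
        ∀ u, u ≠ w → 0 < H u := by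
      intro H w hw hH u hu
      by_contra h
      exact hu (hH u w (not_lt.1 h) hw)
    have hF2 := fun u u' h h' => two_pos hS hs hA hF hf (v := u) (v' := u') h h'
    have hG2 := fun u u' h h' => two_pos hS hs hA hG hg (v := u) (v' := u') h h'
    have a1 := pos F v h1 hF2 (v.1, v'.2) (fun h => ha.2 ((congrArg Prod.snd h).symm.trans rfl))
    have a2 := pos F v h1 hF2 (v'.1, v.2) (fun h => ha.1 ((congrArg Prod.fst h).symm.trans rfl))
    have a3 := pos G v' h2 hG2 (v.1, v'.2) (fun h => ha.1 (by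
      have h' := congrArg Prod.fst h
      exact h'))
    have a4 := pos G v' h2 hG2 (v'.1, v.2) (fun h => ha.2 (by
      have h' := congrArg Prod.snd h
      exact h'))
    have b1 := hF.add v.1 v'.1 v.2 v'.2
    have b2 := hG.add v.1 v'.1 v.2 v'.2
    have c1 : F v = F (v.1, v.2) := rfl
    have c2 : F v' = F (v'.1, v'.2) := rfl
    have c3 : G v = G (v.1, v.2) := rfl
    have c4 : G v' = G (v'.1, v'.2) := rfl
    have d1 : - F v < F v' := by linarith
    have d2 : - G v' < G v := by linarith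
    have d3 := mul_lt_mul'' d1 d2 (by linarith) (by linarith)
    linarith

end Pool.Agent.Work.MP_3892ce_str
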